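import Pool.Agent.Lib_helper18.AQ.M.Defs
import Pool.Agent.Lib_helper18.AQ.K.DefsW

/-!
# PENM, block MA1: the numbers (helper99)
-/

set_option autoImplicit false

namespace Pool.Agent.AQ.PENM

open Finset Pool.Agent.PENT Pool.Agent.AQ.NC

variable [Cst]

theorem ma1_mul {a b τ : ℝ} (h : a ≤ τ * b) (hb : 0 ≤ b) (hτ : τ ≤ 1 / 1000) : 1000 * a ≤ b := by
  have h1 : τ * b ≤ 1 / 1000 * b := mul_le_mul_of_nonneg_right hτ hb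
  linarith

theorem ma1_pos {a b τ : ℝ} (h : a ≤ τ * b) (ha : 0 < a) (hτ : 0 < τ) : 0 < b := by
  by_contra hb
  push Not at hb
  have h1 : τ * b ≤ 0 := mul_nonpos_of_nonneg_of_nonpos hτ.le hb
  linarith

/-- BLOCK MA1: the numbers. `τ > 0` since `0 < c1 ≤ τ`; `e_j > 0` from `ew1`. -/
theorem prm_nums_pr {p : Prm 10} {τ : ℝ} (hp : p.Ok τ) (hτ : τ ≤ 1 / 1000) :
    (0 < p.ew ∧ 0 < p.em ∧ 0 < p.ta ∧ 0 < p.ep ∧ p.ep ≤ 1 / 1000 ∧ 0 < p.c1 ∧ p.c1 ≤ 1 / 1000) ∧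
    (1000 * p.em ≤ p.ta ∧ 1000 * p.ta ≤ p.ep) ∧
    (∀ j : Fin 11, 2 ≤ j.val → j.val ≤ 8 → 1000 * p.ew ≤ p.e j ∧ p.e j ≤ p.ep) ∧
    (∀ j : Fin 11, 2 ≤ j.val → j.val ≤ 8 → Even j.val → 1000 * p.e j ≤ p.em) ∧
    (∀ j : Fin 11, 2 ≤ j.val → j.val ≤ 8 → ¬ Even j.val → p.e j = p.ep) ∧
    (∀ j : Fin 11, 2 ≤ j.val → j.val < 8 → Even j.val → 1000 * p.e 8 ≤ p.e j) := by
  have hτ0 : 0 < τ := lt_of_lt_of_le hp.c10 hp.c11
  have he : ∀ j : Fin 11, 2 ≤ j.val → j.val ≤ 8 → 0 < p.e j := fun j h1 h2 =>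
    ma1_pos (hp.ew1 j h1 (by omega)) hp.ew0 hτ0
  have h2v : ((2 : Fin 11) : ℕ) = 2 := rfl
  have h8v : ((8 : Fin 11) : ℕ) = 8 := rfl
  have hem : 0 < p.em :=
    ma1_pos (hp.even (2 : Fin 11) (by rw [h2v]) (by rw [h2v]; norm_num) (by rw [h2v]; decide))
      (he 2 (by rw [h2v]) (by rw [h2v]; norm_num)) hτ0
  have hta : 0 < p.ta := ma1_pos hp.em_ta hem hτ0
  have hep : 0 < p.ep := ma1_pos hp.ta_ep hta hτ0
  have k1 : 1000 * p.em ≤ p.ta := ma1_mul hp.em_ta hta.le hτ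
  have k2 : 1000 * p.ta ≤ p.ep := ma1_mul hp.ta_ep hep.le hτ
  have k3 : ∀ j : Fin 11, 2 ≤ j.val → j.val ≤ 8 → Even j.val → 1000 * p.e j ≤ p.em :=
    fun j h1 h2 h3 => ma1_mul (hp.even j h1 (by omega) h3) hem.le hτ
  refine ⟨⟨hp.ew0, hem, hta, hep, le_trans hp.ep1 hτ, hp.c10, le_trans hp.c11 hτ⟩, ⟨k1, k2⟩,
    fun j h1 h2 => ⟨ma1_mul (hp.ew1 j h1 (by omega)) (he j h1 h2).le hτ, ?_⟩, k3,
    fun j h1 h2 h3 => hp.odd j h1 (by omega) h3, fun j h1 h2 h3 =>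
      ma1_mul (hp.low 8 j h1 (by omega) h3 (by rw [h8v])) (he j h1 (by omega)).le hτ⟩
  by_cases hj : Even j.val
  · have := k3 j h1 h2 hj
    linarith
  · exact le_of_eq (hp.odd j h1 (by omega) hj)

theorem ma1_z : 1 ≤ nm z := by
  have h1 := z1_pos
  have h2 := z_two
  unfold nm
  omega

theorem qM_ok_pr {p : Prm 10} {τ δ C1 : ℝ} (hδ : 0 < δ) (hδ1 : δ ≤ 1 / 10) (hC1 : 1 ≤ C1)
    (hp : p.Ok τ) (hτ : τ ≤ δ / 60000) (j : Fin 11) : (qM p δ C1 j).Ok := by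
  have h1 : τ ≤ 1 / 1000 := by linarith
  obtain ⟨⟨-, -, -, hep, -, hc, hc1⟩, -⟩ := prm_nums_pr hp h1
  have hep2 : p.ep ≤ δ / 60000 := le_trans hp.ep1 hτ
  refine ⟨?_, hδ, hδ1, fun _ => le_rfl, ?_, hc, ?_, ?_, fun i l => ?_⟩
  · change 0 < 100 * p.ep
    linarith
  · change ∑ _j : Fin 11, ((0 : ℝ) + 100 * p.ep) ≤ δ / 50
    rw [sum_const, card_univ, Fintype.card_fin, nsmul_eq_mul]
    push_cast
    linarith
  · change p.c1 ≤ 1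
    linarith
  · change 1 ≤ 1000 * C1 ^ 4 * (nm z : ℝ) / p.c1 ^ 2
    rw [le_div_iff₀ (by positivity)]
    have h2 : 1 ≤ C1 ^ 4 := one_le_pow₀ hC1
    have h3 : (1 : ℝ) ≤ (nm z : ℝ) := by exact_mod_cast ma1_z
    have h4 : p.c1 ^ 2 ≤ 1 := by nlinarith
    have h5 : 1 * 1 ≤ C1 ^ 4 * (nm z : ℝ) := mul_le_mul h2 h3 zero_le_one (by linarith)
    nlinarith
  · change sg (i + j) (l + j) = 1 ∨ sg (i + j) (l + j) = -1
    unfold sg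
    split_ifs
    · exact Or.inr rfl
    · exact Or.inl rfl
    · exact Or.inl rfl
    · exact Or.inr rfl

end Pool.Agent.AQ.PENM

namespace Pool.Agent.AQ.PENM

open Finset Pool.Agent.PENT Pool.Agent.AQ.NC

variable [Cst]

theorem prm_nums : type_of% @prm_nums_pr := @prm_nums_pr

theorem qM_ok : type_of% @qM_ok_pr := @qM_ok_pr

end Pool.Agent.AQ.PENM
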