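import Pool.Agent.Lib_helper18.AQ.M.Defs
import Pool.Agent.Lib_helper18.AQ.K.DefsW
import Pool.Agent.Lib_helper18.AQ.MF.MA1

set_option autoImplicit false

namespace Pool.Agent.AQ.PENM

open Finset Pool.Agent.PENT Pool.Agent.AQ.NC

variable [Cst]

theorem ma2_lo (p : Prm 10) (a a' b b' : ℝ) :
    (qN p a a' b b').lo 0 = 0 ∧ (qN p a a' b b').lo 1 = a ∧ (qN p a a' b b').lo 2 = p.e 2 ∧
    (qN p a a' b b').lo 3 = p.e 3 ∧ (qN p a a' b b').lo 4 = p.e 4 ∧
    (qN p a a' b b').lo 5 = p.e 5 ∧ (qN p a a' b b').lo 6 = p.e 6 ∧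
    (qN p a a' b b').lo 7 = p.e 7 ∧ (qN p a a' b b').lo 8 = p.e 8 ∧
    (qN p a a' b b').lo 9 = b ∧ (qN p a a' b b').lo 10 = 0 := by
  refine ⟨rfl, rfl, rfl, rfl, rfl, rfl, rfl, rfl, rfl, rfl, rfl⟩

theorem ma2_hi (p : Prm 10) (a a' b b' : ℝ) :
    (qN p a a' b b').hi 0 = 0 ∧ (qN p a a' b b').hi 1 = a' ∧
    (qN p a a' b b').hi 2 = p.e 2 + p.ew ∧
    (qN p a a' b b').hi 3 = p.e 3 + p.ew ∧ (qN p a a' b b').hi 4 = p.e 4 + p.ew ∧
    (qN p a a' b b').hi 5 = p.e 5 + p.ew ∧ (qN p a a' b b').hi 6 = p.e 6 + p.ew ∧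
    (qN p a a' b b').hi 7 = p.e 7 + p.ew ∧ (qN p a a' b b').hi 8 = p.e 8 + p.ew ∧
    (qN p a a' b b').hi 9 = b' ∧ (qN p a a' b b').hi 10 = p.ew := by
  refine ⟨rfl, rfl, rfl, rfl, rfl, rfl, rfl, rfl, rfl, rfl, rfl⟩

theorem qN_ok_pr {p : Prm 10} {τ : ℝ} (hp : p.Ok τ) (hτ : τ ≤ 1 / 1000) {a a' b b' : ℝ}
    (ha : p.em - p.ew ≤ a) (haa : a ≤ a') (ha' : a' ≤ p.ep + 2 * p.ew)
    (hb : p.em - p.ew ≤ b) (hbb : b ≤ b') (hb' : b' ≤ p.ep + 2 * p.ew) :
    (qN p a a' b b').Ok ∧ (qN p a a' b b').E8 := by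
  obtain ⟨⟨w0, em0, ta0, ep0, ep1, c0, c1⟩, ⟨h1, h2⟩, hw, hev, hod, h8⟩ := prm_nums hp hτ
  obtain ⟨l0, l1, l2, l3, l4, l5, l6, l7, l8, l9, l10⟩ := ma2_lo p a a' b b'
  obtain ⟨g0, g1, g2, g3, g4, g5, g6, g7, g8, g9, g10⟩ := ma2_hi p a a' b b'
  have w2 := hw 2 (by decide) (by decide)
  have w3 := hw 3 (by decide) (by decide)
  have w4 := hw 4 (by decide) (by decide)
  have w5 := hw 5 (by decide) (by decide)
  have w6 := hw 6 (by decide) (by decide)
  have w7 := hw 7 (by decide) (by decide)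
  have w8 := hw 8 (by decide) (by decide)
  have e2 := hev 2 (by decide) (by decide) (by decide)
  have e4 := hev 4 (by decide) (by decide) (by decide)
  have e6 := hev 6 (by decide) (by decide) (by decide)
  have e8 := hev 8 (by decide) (by decide) (by decide)
  have o3 := hod 3 (by decide) (by decide) (by decide)
  have o5 := hod 5 (by decide) (by decide) (by decide)
  have o7 := hod 7 (by decide) (by decide) (by decide)
  have k2 := h8 2 (by decide) (by decide) (by decide)
  have k4 := h8 4 (by decide) (by decide) (by decide)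
  have k6 := h8 6 (by decide) (by decide) (by decide)
  have hε : (qN p a a' b b').ε = 50 * p.ew := rfl
  have hc3 : (qN p a a' b b').c3 = p.c1 / (nm z : ℝ) := rfl
  have hz : (1 : ℝ) ≤ (nm z : ℝ) := by exact_mod_cast ma1_z
  refine ⟨⟨?_, ?_, ?_, l0, l10, ?_, ?_, ?_, ?_, ?_, ?_⟩, ?_⟩
  · rw [hε]; linarith
  · rw [hc3]; positivity
  · rw [hc3]
    exact (div_le_self c0.le hz).trans (by linarith)
  · intro j
    fin_cases j
    · exact (l0.trans g0.symm).le
    · exact l1.trans_le (haa.trans g1.symm.le)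
    · exact l2.trans_le (le_trans (by linarith) g2.symm.le)
    · exact l3.trans_le (le_trans (by linarith) g3.symm.le)
    · exact l4.trans_le (le_trans (by linarith) g4.symm.le)
    · exact l5.trans_le (le_trans (by linarith) g5.symm.le)
    · exact l6.trans_le (le_trans (by linarith) g6.symm.le)
    · exact l7.trans_le (le_trans (by linarith) g7.symm.le)
    · exact l8.trans_le (le_trans (by linarith) g8.symm.le)
    · exact l9.trans_le (hbb.trans g9.symm.le)
    · exact l10.trans_le (le_trans w0.le g10.symm.le)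
  · have hs : ∑ j, (qN p a a' b b').hi j = 0 + a' + (p.e 2 + p.ew) + (p.e 3 + p.ew) +
        (p.e 4 + p.ew) + (p.e 5 + p.ew) + (p.e 6 + p.ew) + (p.e 7 + p.ew) + (p.e 8 + p.ew) +
        b' + p.ew := by
      rw [Fin.sum_univ_succ, Fin.sum_univ_succ, Fin.sum_univ_succ, Fin.sum_univ_succ,
        Fin.sum_univ_succ, Fin.sum_univ_succ, Fin.sum_univ_succ, Fin.sum_univ_succ,
        Fin.sum_univ_succ, Fin.sum_univ_succ, Fin.sum_univ_succ, Fin.sum_univ_zero]
      have t0 : (qN p a a' b b').hi 0 = 0 := g0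
      have t1 : (qN p a a' b b').hi (Fin.succ 0) = a' := g1
      have t2 : (qN p a a' b b').hi (Fin.succ (Fin.succ 0)) = p.e 2 + p.ew := g2
      have t3 : (qN p a a' b b').hi (Fin.succ (Fin.succ (Fin.succ 0))) = p.e 3 + p.ew := g3
      have t4 : (qN p a a' b b').hi (Fin.succ (Fin.succ (Fin.succ (Fin.succ 0)))) =
        p.e 4 + p.ew := g4
      have t5 : (qN p a a' b b').hi (Fin.succ (Fin.succ (Fin.succ (Fin.succ (Fin.succ 0))))) =
        p.e 5 + p.ew := g5
      have t6 : (qN p a a' b b').hi (Fin.succ (Fin.succ (Fin.succ (Fin.succ (Fin.succ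
        (Fin.succ 0)))))) = p.e 6 + p.ew := g6
      have t7 : (qN p a a' b b').hi (Fin.succ (Fin.succ (Fin.succ (Fin.succ (Fin.succ
        (Fin.succ (Fin.succ 0))))))) = p.e 7 + p.ew := g7
      have t8 : (qN p a a' b b').hi (Fin.succ (Fin.succ (Fin.succ (Fin.succ (Fin.succ
        (Fin.succ (Fin.succ (Fin.succ 0)))))))) = p.e 8 + p.ew := g8
      have t9 : (qN p a a' b b').hi (Fin.succ (Fin.succ (Fin.succ (Fin.succ (Fin.succ
        (Fin.succ (Fin.succ (Fin.succ (Fin.succ 0))))))))) = b' := g9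
      have t10 : (qN p a a' b b').hi (Fin.succ (Fin.succ (Fin.succ (Fin.succ (Fin.succ
        (Fin.succ (Fin.succ (Fin.succ (Fin.succ (Fin.succ 0)))))))))) = p.ew := g10
      rw [t0, t1, t2, t3, t4, t5, t6, t7, t8, t9, t10]
      ring
    rw [hs]
    linarith
  · intro j hj0 hj10
    rw [hε]
    fin_cases j
    · exact absurd rfl hj0
    · exact le_trans (by linarith) l1.symm.le
    · exact le_trans (by linarith) l2.symm.le
    · exact le_trans (by linarith) l3.symm.le
    · exact le_trans (by linarith) l4.symm.le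
    · exact le_trans (by linarith) l5.symm.le
    · exact le_trans (by linarith) l6.symm.le
    · exact le_trans (by linarith) l7.symm.le
    · exact le_trans (by linarith) l8.symm.le
    · exact le_trans (by linarith) l9.symm.le
    · exact absurd rfl hj10
  · intro j hj1 hj9
    rw [hε]
    have hwd : 50 * p.ew / 50 = p.ew := by ring
    rw [hwd]
    fin_cases j
    · show (qN p a a' b b').hi 0 ≤ (qN p a a' b b').lo 0 + p.ew
      rw [l0, g0]
      linarith
    · exact absurd rfl hj1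
    · show (qN p a a' b b').hi 2 ≤ (qN p a a' b b').lo 2 + p.ew
      rw [l2, g2]
    · show (qN p a a' b b').hi 3 ≤ (qN p a a' b b').lo 3 + p.ew
      rw [l3, g3]
    · show (qN p a a' b b').hi 4 ≤ (qN p a a' b b').lo 4 + p.ew
      rw [l4, g4]
    · show (qN p a a' b b').hi 5 ≤ (qN p a a' b b').lo 5 + p.ew
      rw [l5, g5]
    · show (qN p a a' b b').hi 6 ≤ (qN p a a' b b').lo 6 + p.ew
      rw [l6, g6]
    · show (qN p a a' b b').hi 7 ≤ (qN p a a' b b').lo 7 + p.ew
      rw [l7, g7]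
    · show (qN p a a' b b').hi 8 ≤ (qN p a a' b b').lo 8 + p.ew
      rw [l8, g8]
    · exact absurd rfl hj9
    · show (qN p a a' b b').hi 10 ≤ (qN p a a' b b').lo 10 + p.ew
      rw [l10, g10]
      linarith
  · intro o ho
    rw [hε, g2, g4, g6, g8]
    fin_cases o
    · exact absurd ho (by decide)
    · exact le_trans (by linarith) l1.symm.le
    · exact absurd ho (by decide)
    · exact le_trans (by linarith) l3.symm.le
    · exact absurd ho (by decide)
    · exact le_trans (by linarith) l5.symm.le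
    · exact absurd ho (by decide)
    · exact le_trans (by linarith) l7.symm.le
    · exact absurd ho (by decide)
    · exact le_trans (by linarith) l9.symm.le
    · exact absurd ho (by decide)
  · intro i o e hi ho he
    have hi' : (qN p a a' b b').lo i = p.ep := by
      rcases hi with rfl | rfl | rfl
      · exact l3.trans o3
      · exact l5.trans o5
      · exact l7.trans o7
    have ho' : (qN p a a' b b').hi o ≤ p.ep + 2 * p.ew := by
      fin_cases o
      · exact absurd ho (by decide)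
      · exact g1.le.trans ha'
      · exact absurd ho (by decide)
      · exact g3.le.trans (by linarith)
      · exact absurd ho (by decide)
      · exact g5.le.trans (by linarith)
      · exact absurd ho (by decide)
      · exact g7.le.trans (by linarith)
      · exact absurd ho (by decide)
      · exact g9.le.trans hb'
      · exact absurd ho (by decide)
    have he' : (qN p a a' b b').hi e ≤ p.em / 1000 + p.ew := by
      fin_cases e
      · exact g0.le.trans (by linarith)
      · exact absurd he (by decide)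
      · exact g2.le.trans (by linarith)
      · exact absurd he (by decide)
      · exact g4.le.trans (by linarith)
      · exact absurd he (by decide)
      · exact g6.le.trans (by linarith)
      · exact absurd he (by decide)
      · exact g8.le.trans (by linarith)
      · exact absurd he (by decide)
      · exact g10.le.trans (by linarith)
    rw [hε, hi']
    linarith
  · intro e he
    rw [hε, g8]
    rcases he with rfl | rfl | rfl
    · rw [l2]; linarith
    · rw [l4]; linarith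
    · rw [l6]; linarith

theorem qN_nar_pr {p : Prm 10} {τ : ℝ} (hp : p.Ok τ) (a b : ℝ) :
    (qN p a (a + p.ew) b (b + p.ew)).Nar := by
  have w0 := hp.ew0
  obtain ⟨l0, l1, l2, l3, l4, l5, l6, l7, l8, l9, l10⟩ := ma2_lo p a (a + p.ew) b (b + p.ew)
  obtain ⟨g0, g1, g2, g3, g4, g5, g6, g7, g8, g9, g10⟩ := ma2_hi p a (a + p.ew) b (b + p.ew)
  have hε : (qN p a (a + p.ew) b (b + p.ew)).ε = 50 * p.ew := rfl
  intro j
  rw [hε]
  have hwd : 50 * p.ew / 50 = p.ew := by ring
  rw [hwd]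
  fin_cases j
  · show (qN p a (a + p.ew) b (b + p.ew)).hi 0 ≤ (qN p a (a + p.ew) b (b + p.ew)).lo 0 + p.ew
    rw [l0, g0]
    linarith
  · show (qN p a (a + p.ew) b (b + p.ew)).hi 1 ≤ (qN p a (a + p.ew) b (b + p.ew)).lo 1 + p.ew
    rw [l1, g1]
  · show (qN p a (a + p.ew) b (b + p.ew)).hi 2 ≤ (qN p a (a + p.ew) b (b + p.ew)).lo 2 + p.ew
    rw [l2, g2]
  · show (qN p a (a + p.ew) b (b + p.ew)).hi 3 ≤ (qN p a (a + p.ew) b (b + p.ew)).lo 3 + p.ew
    rw [l3, g3]
  · show (qN p a (a + p.ew) b (b + p.ew)).hi 4 ≤ (qN p a (a + p.ew) b (b + p.ew)).lo 4 + p.ew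
    rw [l4, g4]
  · show (qN p a (a + p.ew) b (b + p.ew)).hi 5 ≤ (qN p a (a + p.ew) b (b + p.ew)).lo 5 + p.ew
    rw [l5, g5]
  · show (qN p a (a + p.ew) b (b + p.ew)).hi 6 ≤ (qN p a (a + p.ew) b (b + p.ew)).lo 6 + p.ew
    rw [l6, g6]
  · show (qN p a (a + p.ew) b (b + p.ew)).hi 7 ≤ (qN p a (a + p.ew) b (b + p.ew)).lo 7 + p.ew
    rw [l7, g7]
  · show (qN p a (a + p.ew) b (b + p.ew)).hi 8 ≤ (qN p a (a + p.ew) b (b + p.ew)).lo 8 + p.ew
    rw [l8, g8]
  · show (qN p a (a + p.ew) b (b + p.ew)).hi 9 ≤ (qN p a (a + p.ew) b (b + p.ew)).lo 9 + p.ew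
    rw [l9, g9]
  · show (qN p a (a + p.ew) b (b + p.ew)).hi 10 ≤ (qN p a (a + p.ew) b (b + p.ew)).lo 10 + p.ew
    rw [l10, g10]
    linarith

end Pool.Agent.AQ.PENM

namespace Pool.Agent.AQ.PENM

open Finset Pool.Agent.PENT Pool.Agent.AQ.NC

variable [Cst]

theorem qN_ok : type_of% @qN_ok_pr := @qN_ok_pr

theorem qN_nar : type_of% @qN_nar_pr := @qN_nar_pr

end Pool.Agent.AQ.PENM
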