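import Pool.Agent.Lib_helper18.AQ.M.Defs
import Pool.Agent.Lib_helper88.AQN.NA1
import Pool.Agent.Lib_helper18.AQ.K.DefsW

/-! Block `MB1` (PENK part 6), helper42. -/

set_option autoImplicit false

namespace Pool.Agent.AQ.PENM

open Finset Pool.Agent.PENT Pool.Agent.AQ.NC

variable [Cst]

theorem mem_FT_pr {p : Prm 10} (hc : 0 < p.c1) {C1 : ℝ} {X : ℕ} {s : (ℤ × ℤ × ℤ) × Vec 10} :
    s ∈ FT p C1 X ↔ TT p C1 X s := by
  unfold FT
  rw [Finset.mem_filter, Finset.mem_product, mem_GS hc]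
  constructor
  · rintro ⟨⟨h1, h2⟩, h3⟩
    exact ⟨h1, h2, h3⟩
  · rintro ⟨h1, h2, h3⟩
    exact ⟨⟨h1, h2⟩, h3⟩

theorem TT_gd_pr {p : Prm 10} {C1 : ℝ} {X : ℕ} {s : (ℤ × ℤ × ℤ) × Vec 10} (h : TT p C1 X s) :
    GD s.1 s.2 := by
  by_contra hG
  apply h.w
  unfold W
  rw [if_neg hG]

/-- the form -/
theorem TT_form_pr {p : Prm 10} {C1 : ℝ} {X : ℕ} {s : (ℤ × ℤ × ℤ) × Vec 10} (h : TT p C1 X s) :
    s.1.1 * s.1.2.2 - s.1.2.1 ^ 2 = D ∧
    ((X : ℝ) < (s.1.1 : ℝ) ∧ (s.1.1 : ℝ) ≤ C1 * X) ∧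
    (s.1.2.1 < 0 ∧ -(s.1.2.1 : ℝ) ≤ ρ₂ * (s.1.1 : ℝ)) ∧
    (a0 ∣ s.1.2.1 - b0 ∧ a0 ∣ s.1.2.2 ∧ IsCoprime s.1.1 (R : ℤ)) := by
  have hA := h.aw
  unfold AW at hA
  rw [Finset.mem_filter, Finset.mem_product, Finset.mem_product, Finset.mem_Ioc, Finset.mem_Icc,
    Finset.mem_Icc] at hA
  obtain ⟨⟨⟨a1, a2⟩, ⟨b1, b2⟩, ⟨c1, c2⟩⟩, hdet, hb, hb', k1, k2, k3⟩ := hA
  have ha1 : (X : ℝ) < (s.1.1 : ℝ) := by exact_mod_cast a1
  have ha2 : (s.1.1 : ℝ) ≤ C1 * X := le_trans (by exact_mod_cast a2) (Int.floor_le (C1 * (X : ℝ)))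
  exact ⟨hdet, ⟨ha1, ha2⟩, ⟨by omega, hb'⟩, k1, k2, k3⟩

theorem mb1_pos {p : Prm 10} {X : ℕ} {u : Vec 10} (h : GP p X u) (i : Fin 11) :
    0 ≤ (u i).1 ∧ 0 ≤ (u i).2 ∧ 1 ≤ nm (u i) := fn_coord h i

/-- the values of the bilinear form at two vertices -/
theorem TT_bf_pr {p : Prm 10} (hc : 0 < p.c1) {C1 : ℝ} {X : ℕ}
    (hX : 2 * |(D : ℝ)| < p.c1 ^ 2 * X) (hX1 : |(D : ℝ)| ≤ X)
    {s : (ℤ × ℤ × ℤ) × Vec 10} (h : TT p C1 X s) (i l : Fin 11) :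
    0 < bf s.1.1 s.1.2.1 s.1.2.2 (s.2 i) (s.2 l) ∧
    (bf s.1.1 s.1.2.1 s.1.2.2 (s.2 i) (s.2 l) : ℝ) ≤
      (C1 + 1) * X * ((nm (s.2 i) : ℝ) * (nm (s.2 l) : ℝ)) := by
  obtain ⟨v1, v2, v3⟩ := mb1_pos h.gp i
  obtain ⟨w1, w2, w3⟩ := mb1_pos h.gp l
  exact fn_bf hc hX hX1 h.aw v1 v2 w1 w2 v3 w3 (h.gp.cone i) (h.gp.cone l)

/-- the values of the form at the vertices -/
theorem TT_fv_pr {p : Prm 10} (hc : 0 < p.c1) {C1 : ℝ} {X : ℕ}
    (hX : 2 * |(D : ℝ)| < p.c1 ^ 2 * X) (hX1 : |(D : ℝ)| ≤ X)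
    {s : (ℤ × ℤ × ℤ) × Vec 10} (h : TT p C1 X s) (i : Fin 11) :
    p.c1 ^ 2 * X * (nm (s.2 i) : ℝ) ^ 2 ≤ 2 * (fv s.1 (s.2 i) : ℝ) ∧
      (fv s.1 (s.2 i) : ℝ) ≤ (C1 + 1) * X * (nm (s.2 i) : ℝ) ^ 2 := by
  have hbf : fv s.1 (s.2 i) = bf s.1.1 s.1.2.1 s.1.2.2 (s.2 i) (s.2 i) := by
    unfold fv qf bf
    ring
  constructor
  · obtain ⟨hd, ⟨ha, _⟩, ⟨_, hb⟩, _⟩ := TT_form_pr h
    obtain ⟨v1, v2, v3⟩ := mb1_pos h.gp i
    have hcv := h.gp.cone i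
    have V2 : (0 : ℝ) ≤ ((s.2 i).2 : ℝ) := by exact_mod_cast v2
    have hvR : (1 : ℝ) ≤ (nm (s.2 i) : ℝ) := by exact_mod_cast v3
    have hv2 : ((s.2 i).2 : ℝ) ≤ (nm (s.2 i) : ℝ) := by
      have : (s.2 i).2 ≤ nm (s.2 i) := by unfold nm; omega
      exact_mod_cast this
    have hdR : (s.1.1 : ℝ) * s.1.2.2 - (s.1.2.1 : ℝ) ^ 2 = D := by exact_mod_cast hd
    have hXpos : (0 : ℝ) < X := by
      have h1 : 0 ≤ |(D : ℝ)| := abs_nonneg _
      have h2 : 0 < p.c1 ^ 2 * (X : ℝ) := lt_of_le_of_lt (by positivity) hX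
      exact pos_of_mul_pos_right h2 (by positivity)
    have haR : (0 : ℝ) < (s.1.1 : ℝ) := hXpos.trans ha
    have ha1 : (1 : ℝ) ≤ (s.1.1 : ℝ) := by
      have : (0 : ℤ) < s.1.1 := by exact_mod_cast haR
      exact_mod_cast this
    set N : ℝ := (nm (s.2 i) : ℝ) with hN
    set a : ℝ := (s.1.1 : ℝ) with ha'
    set x : ℝ := ((s.2 i).1 : ℝ) with hx
    set y : ℝ := ((s.2 i).2 : ℝ) with hy
    set b : ℝ := (s.1.2.1 : ℝ) with hb'
    have hF : a * (fv s.1 (s.2 i) : ℝ) = (a * x + b * y) ^ 2 + D * y ^ 2 := by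
      unfold fv qf
      push_cast
      linear_combination (y ^ 2) * hdR
    have hL : a * (p.c1 * N) ≤ a * x + b * y := by
      have h1 : a * (p.c1 * N) ≤ a * (x - ρ₂ * y) := mul_le_mul_of_nonneg_left hcv haR.le
      have h2 : (0 : ℝ) ≤ (ρ₂ * a + b) * y := mul_nonneg (by linarith) V2
      nlinarith
    have hL0 : 0 ≤ a * (p.c1 * N) := by positivity
    have hsq : (a * (p.c1 * N)) ^ 2 ≤ (a * x + b * y) ^ 2 := pow_le_pow_left₀ hL0 hL 2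
    have hy2 : y ^ 2 ≤ N ^ 2 := pow_le_pow_left₀ V2 hv2 2
    have hDy : -(|(D : ℝ)| * N ^ 2) ≤ D * y ^ 2 := by
      have h1 : |(D : ℝ) * y ^ 2| ≤ |(D : ℝ)| * N ^ 2 := by
        rw [abs_mul, abs_of_nonneg (sq_nonneg y)]
        exact mul_le_mul_of_nonneg_left hy2 (abs_nonneg _)
      linarith [neg_abs_le ((D : ℝ) * y ^ 2)]
    -- `2 |D| ≤ c1² a`
    have h2D : 2 * |(D : ℝ)| ≤ p.c1 ^ 2 * a :=
      hX.le.trans (mul_le_mul_of_nonneg_left ha.le (by positivity))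
    have h3 : 2 * |(D : ℝ)| * N ^ 2 ≤ p.c1 ^ 2 * a ^ 2 * N ^ 2 := by
      apply mul_le_mul_of_nonneg_right _ (by positivity)
      have : p.c1 ^ 2 * a ≤ p.c1 ^ 2 * a ^ 2 :=
        mul_le_mul_of_nonneg_left (by nlinarith) (by positivity)
      linarith
    have h4 : a * (p.c1 ^ 2 * a * N ^ 2) ≤ a * (2 * (fv s.1 (s.2 i) : ℝ)) := by nlinarith
    have h5 := le_of_mul_le_mul_left h4 haR
    have h6 : p.c1 ^ 2 * (X : ℝ) * N ^ 2 ≤ p.c1 ^ 2 * a * N ^ 2 := by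
      apply mul_le_mul_of_nonneg_right _ (by positivity)
      exact mul_le_mul_of_nonneg_left ha.le (by positivity)
    linarith
  · rw [hbf, sq]
    exact (TT_bf_pr hc hX hX1 h i i).2

/-- the form does not vanish at a vertex -/
theorem TT_ne_pr {p : Prm 10} {C1 : ℝ} {X : ℕ} {s : (ℤ × ℤ × ℤ) × Vec 10} (h : TT p C1 X s)
    (i : Fin 11) : fv s.1 (s.2 i) ≠ 0 := by
  obtain ⟨hd, ⟨ha, _⟩, _⟩ := TT_form_pr h
  obtain ⟨v1, v2, v3⟩ := mb1_pos h.gp i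
  have ha0 : s.1.1 ≠ 0 := by
    intro h0
    rw [h0] at ha
    have : (0 : ℝ) ≤ X := Nat.cast_nonneg X
    simp only [Int.cast_zero] at ha
    linarith
  intro h0
  have hF : s.1.1 * fv s.1 (s.2 i) = (s.1.1 * (s.2 i).1 + s.1.2.1 * (s.2 i).2) ^ 2 +
      D * (s.2 i).2 ^ 2 := by
    unfold fv qf
    linear_combination ((s.2 i).2 ^ 2) * hd
  rw [h0, mul_zero] at hF
  by_cases hy : (s.2 i).2 = 0
  · rw [hy] at hF
    have h1 : s.1.1 * (s.2 i).1 = 0 := by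
      have : (s.1.1 * (s.2 i).1) ^ 2 = 0 := by linarith
      exact pow_eq_zero_iff (two_ne_zero) |>.1 this
    have h2 : (s.2 i).1 = 0 := (mul_eq_zero.1 h1).resolve_left ha0
    unfold nm at v3
    omega
  · have h1 : (s.2 i).2 ^ 2 ∣ (s.1.1 * (s.2 i).1 + s.1.2.1 * (s.2 i).2) ^ 2 :=
      ⟨-D, by linarith⟩
    rw [Int.pow_dvd_pow_iff two_ne_zero] at h1
    obtain ⟨t, ht⟩ := h1
    apply D_ns
    refine ⟨t, ?_⟩
    rw [ht] at hF
    have h2 : (s.2 i).2 ^ 2 * (-D) = (s.2 i).2 ^ 2 * (t * t) := by linarith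
    exact mul_left_cancel₀ (pow_ne_zero 2 hy) h2

theorem mb1_dl {p : Prm 10} {X : ℕ} {u : Vec 10} (h : GP p X u) (j i : Fin 11) :
    PENK.dl (rt j u) i = dt (u (i + j)) (u (i + j + 1)) := by
  unfold PENK.dl rt
  rw [add_right_comm i 1 j]

theorem dl_open_pr {p : Prm 10} {X : ℕ} {u : Vec 10} (h : GP p X u) (j i : Fin 11)
    (hi : i + j = 10) : PENK.dl (rt j u) i = -z.2 := by
  rw [mb1_dl h, hi]
  have e1 : (10 : Fin 11) = Fin.last 10 := rfl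
  have e2 : (10 : Fin 11) + 1 = 0 := rfl
  rw [e2, h.first, e1, h.last]
  unfold dt
  ring

theorem dn_rt_pr {p : Prm 10} {X : ℕ} {u : Vec 10} (h : GP p X u) (j i : Fin 11) :
    PENK.dn (mM j) (rt j u) i = if i + j = 10 then 1 else dE u ((i + j).val + 1) := by
  have hm : i = mM j ↔ i + j = 10 := by
    unfold mM
    constructor
    · rintro rfl
      exact sub_add_cancel _ _
    · intro h1
      exact eq_sub_of_add_eq h1
  unfold PENK.dn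
  by_cases hi : i + j = 10
  · rw [if_pos hi, if_pos (hm.2 hi)]
  · rw [if_neg hi, if_neg (fun h' => hi (hm.1 h')), mb1_dl h]
    generalize hs : i + j = t at hi ⊢
    have ht : t.val < 10 := by
      have h1 := t.isLt
      have h2 : t.val ≠ 10 := fun h3 => hi (Fin.ext h3)
      omega
    unfold dE
    rw [dif_pos ⟨by omega, by omega⟩]
    have e1 : (⟨t.val + 1 - 1, by omega⟩ : Fin 11) = t := by
      apply Fin.ext
      show t.val + 1 - 1 = t.val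
      omega
    have e2 : (⟨t.val + 1, by omega⟩ : Fin 11) = t + 1 := by
      apply Fin.ext
      show t.val + 1 = (t + 1).val
      rw [Fin.val_add_one_of_lt]
      exact ht
    rw [e1, e2]

theorem DD_rt_pr {p : Prm 10} {X : ℕ} {u : Vec 10} (h : GP p X u) (j : Fin 11) :
    PENK.DD (mM j) (rt j u) = Dall u := by
  unfold PENK.DD
  have e1 : ∏ i : Fin 11, PENK.dn (mM j) (rt j u) i =
      ∏ t : Fin 11, (if t = 10 then 1 else dE u (t.val + 1)) := by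
    refine Fintype.prod_equiv (Equiv.addRight j) _ _ ?_
    intro i
    rw [dn_rt_pr h]
    rfl
  rw [e1, Fin.prod_univ_castSucc]
  have e2 : (if (Fin.last 10) = (10 : Fin 11) then 1 else dE u ((Fin.last 10).val + 1)) = 1 :=
    if_pos rfl
  rw [e2, mul_one]
  have e3 : ∀ i : Fin 10, (if (i.castSucc : Fin 11) = 10 then 1 else
      dE u ((i.castSucc : Fin 11).val + 1)) = dE u (i.val + 1) := by
    intro i
    rw [if_neg]
    · rfl
    · intro h1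
      have h2 : i.val = 10 := congrArg Fin.val h1
      have h5 := i.isLt
      omega
  rw [Finset.prod_congr rfl (fun i _ => e3 i)]
  rw [Fin.prod_univ_eq_prod_range (fun i => dE u (i + 1)) 10]
  unfold Dall
  rw [Finset.range_eq_Ico, Finset.prod_Ico_add' (fun i => dE u i) 0 10 1]
  rfl

theorem bad_rt_pr {p : Prm 10} {X : ℕ} {u : Vec 10} (h : GP p X u) :
    PENK.bad (mM 10) (rt 10 u) = Dint u := by
  unfold PENK.bad Dint
  have hs : PENK.inr 11 = insert (0 : Fin 11) (univ.filter (fun i : Fin 11 => 2 ≤ i.val ∧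
      i.val ≤ 9)) := by
    unfold PENK.inr
    decide
  rw [hs, Finset.prod_insert (by decide)]
  have e0 : PENK.dn (mM 10) (rt 10 u) 0 = 1 := by
    rw [dn_rt_pr h, if_pos (by decide)]
  rw [e0, one_mul]
  have hd : ∀ i : Fin 11, (2 ≤ i.val ∧ i.val ≤ 9) → (i + 10 ≠ 10 ∧ (i + 10).val + 1 = i.val) := by
    decide
  refine Finset.prod_nbij (fun i => i.val) ?_ ?_ ?_ ?_
  · intro i hi
    exact Finset.mem_Icc.2 (Finset.mem_filter.1 hi).2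
  · intro a _ b _ hab
    exact Fin.ext hab
  · intro n hn
    rw [Finset.mem_coe, Finset.mem_Icc] at hn
    refine ⟨⟨n, by omega⟩, ?_, rfl⟩
    rw [Finset.mem_coe, Finset.mem_filter]
    exact ⟨Finset.mem_univ _, hn.1, hn.2⟩
  · intro i hi
    have h1 := hd i (Finset.mem_filter.1 hi).2
    rw [dn_rt_pr h, if_neg h1.1, h1.2]

end Pool.Agent.AQ.PENM

namespace Pool.Agent.AQ.PENM

open Finset Pool.Agent.PENT Pool.Agent.AQ.NC

variable [Cst]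

theorem mem_FT : type_of% @mem_FT_pr := @mem_FT_pr

theorem TT.gd : type_of% @TT_gd_pr := @TT_gd_pr

theorem TT.form : type_of% @TT_form_pr := @TT_form_pr

theorem TT.bfb : type_of% @TT_bf_pr := @TT_bf_pr

theorem TT.fvb : type_of% @TT_fv_pr := @TT_fv_pr

theorem TT.ne : type_of% @TT_ne_pr := @TT_ne_pr

theorem dn_rt : type_of% @dn_rt_pr := @dn_rt_pr

theorem dl_open : type_of% @dl_open_pr := @dl_open_pr

theorem DD_rt : type_of% @DD_rt_pr := @DD_rt_pr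

theorem bad_rt : type_of% @bad_rt_pr := @bad_rt_pr

end Pool.Agent.AQ.PENM
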