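import Pool.Agent.Lib_helper18.AQ.M.Defs
import Pool.Agent.Lib_helper18.AQ.MF.MB1

/-! PENK block MA4 (helper53), port to AQ by helper45 -/

set_option autoImplicit false

namespace Pool.Agent.AQ.PENM

open Finset Pool.Agent.PENT Pool.Agent.AQ.NC

variable [Cst]

theorem ma4_a : ∀ j : Fin 11, (-1 + j = 10 ↔ j = 0) ∧ (j ≠ 0 → (-1 + j).val = j.val - 1) := by
  decide

theorem ma4_b : ∀ j : Fin 10, (1 + j.castSucc = 10 ↔ j.val = 9) ∧
    (1 + j.castSucc).val = j.val + 1 := by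
  decide

theorem ma4_s0 (j : Fin 11) : (WM j).s0 =
    beV 10 j.val + if j = 0 then 0 else alE 10 (j.val - 1) := by
  show beV 10 (0 + j).val + (if -1 + j = 10 then 0 else alE 10 (-1 + j).val) = _
  rw [zero_add]
  by_cases h : j = 0
  · rw [if_pos h, if_pos ((ma4_a j).1.2 h)]
  · rw [if_neg h, if_neg (fun h' => h ((ma4_a j).1.1 h')), (ma4_a j).2 h]

theorem WM_wS_pr (j : Fin 10) :
    (WM j.castSucc).s0 = wS0 j.val ∧ (WM j.castSucc).s1 = wS1 j.val := by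
  constructor
  · rw [ma4_s0]
    unfold wS0
    have h : j.castSucc = 0 ↔ j.val = 0 := by
      rw [Fin.ext_iff]
      rfl
    by_cases h0 : j.val = 0
    · rw [if_pos h0, if_pos (h.2 h0)]
      rfl
    · rw [if_neg h0, if_neg (fun h' => h0 (h.1 h'))]
      rfl
  · show beV 10 (1 + j.castSucc).val + (if 1 + j.castSucc = 10 then 0
      else alE 10 (1 + j.castSucc).val) = _
    unfold wS1
    obtain ⟨h1, h2⟩ := ma4_b j
    rw [h2]
    by_cases h0 : j.val = 9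
    · rw [if_pos h0, if_pos (h1.2 h0)]
    · rw [if_neg h0, if_neg (fun h' => h0 (h1.1 h'))]

theorem ma4_ten : (WM 10).s0 = 1 ∧ (WM 10).s1 = 1 := by
  constructor
  · rw [ma4_s0, if_neg (by decide)]
    show beV 10 10 + alE 10 9 = 1
    unfold beV alE
    norm_num
  · show beV 10 0 + (if (0 : Fin 11) = 10 then 0 else alE 10 0) = 1
    rw [if_neg (by decide)]
    unfold beV alE
    norm_num

theorem ma4_num (j : ℕ) (hj : j < 10) : 0 < wS0 j ∧ 0 < wS1 j ∧ wS0 j + wS1 j = 1 := by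
  interval_cases j <;> (unfold wS0 wS1 beV alE; norm_num)

/-- BLOCK MA4: `s_0 + s_1 = 1` (`j ≠ 10`), `s_0 = s_1 = 1` (`j = 10`), and helper15's `nuN` -/
theorem WM_s_pr (j : Fin 11) : (0 < (WM j).s0 ∧ (WM j).s0 ≤ 1) ∧
    (0 < (WM j).s1 ∧ (WM j).s1 ≤ 1) ∧
    (j ≠ 10 → (WM j).s0 + (WM j).s1 = 1) ∧ (j = 10 → (WM j).s0 = 1 ∧ (WM j).s1 = 1) := by
  by_cases h : j = 10
  · subst h
    obtain ⟨h0, h1⟩ := ma4_ten
    rw [h0, h1]
    exact ⟨⟨one_pos, le_refl _⟩, ⟨one_pos, le_refl _⟩, fun h => absurd rfl h, fun _ => ⟨rfl, rfl⟩⟩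
  · have hj : j.val < 10 := by
      have h1 := j.isLt
      rcases Nat.lt_or_ge j.val 10 with h2 | h2
      · exact h2
      · exact absurd (Fin.ext (by omega : j.val = (10 : Fin 11).val)) h
    obtain ⟨i, rfl⟩ : ∃ i : Fin 10, j = i.castSucc := ⟨⟨j.val, hj⟩, rfl⟩
    obtain ⟨h0, h1⟩ := WM_wS_pr i
    obtain ⟨n0, n1, n2⟩ := ma4_num i.val i.isLt
    rw [h0, h1]
    exact ⟨⟨n0, by linarith⟩, ⟨n1, by linarith⟩, fun _ => n2, fun h' => absurd h' h⟩

theorem ma4_ws_pos {P Y s : ℝ} (hs : 0 < s) (l : ℕ) : 0 < ws P Y s l := by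
  unfold ws
  split_ifs
  · exact one_pos
  · exact one_pos
  · exact hs
  · exact one_pos

theorem ma4_cm_pos {g : ℕ → ℝ} (hg : ∀ l, 0 < g l) (m : ℕ) : 0 < cm g m := by
  unfold cm
  exact Finset.prod_pos (fun l _ => pow_pos (hg l) _)

theorem nuM_pos_pr (p : Prm 10) (X : ℕ) (j : Fin 11) (y : PENK.Bas) : 0 < nuM p X j y := by
  obtain ⟨⟨h0, _⟩, ⟨h1, _⟩, _⟩ := WM_s_pr j
  unfold nuM
  exact mul_pos (ma4_cm_pos (ma4_ws_pos h0) _) (ma4_cm_pos (ma4_ws_pos h1) _)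

theorem nuM_ten_pr (p : Prm 10) (X : ℕ) (y : PENK.Bas) : nuM p X 10 y = 1 := by
  obtain ⟨h0, h1⟩ := ma4_ten
  unfold nuM
  rw [h0, h1]
  have hw : ∀ l, ws (PP X) (p.Y X) 1 l = 1 := by
    intro l
    unfold ws
    split_ifs <;> rfl
  have hc : ∀ m, cm (ws (PP X) (p.Y X) 1) m = 1 := by
    intro m
    unfold cm
    apply Finset.prod_eq_one
    intro l _
    simp only [hw, one_pow]
  rw [hc, hc, one_mul]

/-- the weights of the base forms agree: `(Q(u_j)/|d|).natAbs = |Q(u_j)| / d_j`, `0 < d` -/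
theorem nuM_eq_pr {p : Prm 10} {X : ℕ} {q : ℤ × ℤ × ℤ} {u : Vec 10} (hG : GD q u) (j : Fin 10) :
    nuM p X j.castSucc (RB j.castSucc q u) = nuN p X q u j := by
  obtain ⟨h0, h1⟩ := WM_wS_pr j
  have hd : dE u (j.val + 1) = (dt (u j.castSucc) (u j.succ)).natAbs := by
    unfold dE
    rw [dif_pos ⟨by omega, by have := j.isLt; omega⟩]
    rfl
  have r0 : rt j.castSucc u 0 = u j.castSucc := by
    unfold rt
    rw [zero_add]
  have r1 : rt j.castSucc u 1 = u j.succ := by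
    unfold rt
    congr 1
    apply Fin.ext
    rw [(ma4_b j).2]
    rfl
  have hdl : PENK.dl (rt j.castSucc u) 0 = dt (u j.castSucc) (u j.succ) := by
    unfold PENK.dl
    rw [zero_add, r0, r1]
  obtain ⟨g0, g1⟩ := hG j
  have key : ∀ a : ℤ, ((dE u (j.val + 1) : ℕ) : ℤ) ∣ a →
      (a / |dt (u j.castSucc) (u j.succ)|).natAbs = a.natAbs / dE u (j.val + 1) := by
    intro a ha
    have h2 : |dt (u j.castSucc) (u j.succ)| = ((dE u (j.val + 1) : ℕ) : ℤ) := by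
      rw [hd, Int.natCast_natAbs]
    rw [h2, Int.natAbs_ediv_of_dvd ha, Int.natAbs_natCast]
  have hdv : dv j.castSucc u = |dt (u j.castSucc) (u j.succ)| := by
    unfold dv
    rw [if_neg, hdl]
    intro h
    have h' := congrArg Fin.val h
    have h'' := j.isLt
    have h3 : (j.castSucc).val = j.val := rfl
    have h4 : ((10 : Fin 11)).val = 10 := rfl
    omega
  unfold nuM nuN RB
  simp only
  rw [h0, h1, hdv, r0, r1, key _ g0, key _ g1]

end Pool.Agent.AQ.PENM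

namespace Pool.Agent.AQ.PENM

open Finset Pool.Agent.PENT Pool.Agent.AQ.NC

variable [Cst]

theorem WM_s : type_of% @WM_s_pr := @WM_s_pr

theorem WM_wS : type_of% @WM_wS_pr := @WM_wS_pr

theorem nuM_pos : type_of% @nuM_pos_pr := @nuM_pos_pr

theorem nuM_ten : type_of% @nuM_ten_pr := @nuM_ten_pr

theorem nuM_eq : type_of% @nuM_eq_pr := @nuM_eq_pr

end Pool.Agent.AQ.PENM
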