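import Pool.Agent.Lib_helper18.AQ.M.Defs
import Pool.Agent.Lib_helper18.AQ.K.DefsW
import Pool.Agent.Lib_helper18.AQ.MF.MA1
import Pool.Agent.Lib_helper18.AQ.MF.MB1

/-! Block MB2 (helper67; port of the block of helper33) -/

set_option autoImplicit false

namespace Pool.Agent.AQ.PENM

open Finset Pool.Agent.PENT Pool.Agent.AQ.NC

variable [Cst]

theorem mb2_neg (a b : ℤ × ℤ) : dt a b = -dt b a := by
  unfold dt
  ring

/-- coordinates -/
theorem mb2_coord {p : Prm 10} {X : ℕ} {u : Vec 10} (h : GP p X u) (a : Fin 11) :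
    0 ≤ (u a).1 ∧ 0 ≤ (u a).2 ∧ 1 ≤ nm (u a) := fn_coord h a

theorem mb2_last {p : Prm 10} {X : ℕ} {u : Vec 10} (h : GP p X u) : u 10 = z := h.last

theorem mb2_z1 : (1 : ℝ) ≤ (nm z : ℝ) := by exact_mod_cast ma1_z

theorem mb2_nr {p : Prm 10} {X : ℕ} {u : Vec 10} (h : GP p X u) (a : Fin 11) :
    (PENK.nr (u a) : ℝ) = (nm (u a) : ℝ) := by
  obtain ⟨h1, h2, -⟩ := mb2_coord h a
  have e : ((PENK.nr (u a) : ℕ) : ℤ) = nm (u a) := by
    unfold PENK.nr nm
    push_cast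
    rw [abs_of_nonneg h1, abs_of_nonneg h2]
  exact_mod_cast congrArg (Int.cast : ℤ → ℝ) e

theorem mb2_one {p : Prm 10} {X : ℕ} {u : Vec 10} (h : GP p X u) (a : Fin 11) :
    (1 : ℝ) ≤ (nm (u a) : ℝ) := by
  exact_mod_cast (mb2_coord h a).2.2

/-- the sign -/
theorem mb2_sg (a b : Fin 11) (hab : a < b) : ((sg a b : ℤ) : ℝ) = sgn a.val b.val ∧
    sg b a = -sg a b := by
  have h1 : a.val < b.val := Fin.lt_def.1 hab
  have h2 : ¬ b.val < a.val := by omega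
  by_cases h : ¬ Even a.val ∧ Even b.val
  · have k1 : sg a b = -1 := by
      unfold sg
      rw [if_pos h1, if_pos h]
    have k2 : sg b a = 1 := by
      unfold sg
      rw [if_neg h2, if_pos h]
    have k3 : sgn a.val b.val = -1 := by
      unfold sgn
      rw [if_pos h]
    rw [k1, k2, k3]
    norm_num
  · have k1 : sg a b = 1 := by
      unfold sg
      rw [if_pos h1, if_neg h]
    have k2 : sg b a = -1 := by
      unfold sg
      rw [if_neg h2, if_neg h]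
    have k3 : sgn a.val b.val = 1 := by
      unfold sgn
      rw [if_neg h]
    rw [k1, k2, k3]
    norm_num

theorem mb2_dt {p : Prm 10} (hc : 0 < p.c1) {X : ℕ} {u : Vec 10} (h : GP p X u) {a b : Fin 11}
    (hab : a < b) : p.c1 * ((nm (u a) : ℝ) * (nm (u b) : ℝ)) ≤ |(dt (u a) (u b) : ℝ)| ∧
      0 < sg a b * dt (u a) (u b) ∧ 0 < sg b a * dt (u b) (u a) := by
  have h1 := h.sep a b hab
  have h2 := fn_dt_pos hc h hab
  have h3 : sgn a.val b.val * (dt (u a) (u b) : ℝ) = |(dt (u a) (u b) : ℝ)| := by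
    unfold sgn at h2 ⊢
    split_ifs at h2 ⊢ with h
    · rw [abs_of_neg (by linarith)]; ring
    · rw [abs_of_pos (by linarith)]; ring
  obtain ⟨s1, s2⟩ := mb2_sg a b hab
  have h4 : 0 < sg a b * dt (u a) (u b) := by
    rw [← s1] at h2
    exact_mod_cast h2
  refine ⟨h3 ▸ h1, h4, ?_⟩
  rw [s2, mb2_neg (u b) (u a)]
  linarith

/-- the end determinants -/
theorem mb2_d1 (u : Vec 10) : (dE u 1 : ℝ) = |(dt (u 0) (u 1) : ℝ)| := by
  have e : dE u 1 = (dt (u 0) (u 1)).natAbs := by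
    unfold dE
    rw [dif_pos ⟨by norm_num, by norm_num⟩]
    rfl
  rw [e, Nat.cast_natAbs, Int.cast_abs]

theorem mb2_d10 (u : Vec 10) : (dE u 10 : ℝ) = |(dt (u 9) (u 10) : ℝ)| := by
  have e : dE u 10 = (dt (u 9) (u 10)).natAbs := by
    unfold dE
    rw [dif_pos ⟨by norm_num, by norm_num⟩]
    rfl
  rw [e, Nat.cast_natAbs, Int.cast_abs]

/-- `|det| ≤ nm * nm` for vectors with nonnegative coordinates -/
theorem mb2_dtle {a b : ℤ × ℤ} (a1 : 0 ≤ a.1) (a2 : 0 ≤ a.2) (b1 : 0 ≤ b.1) (b2 : 0 ≤ b.2) :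
    |(dt a b : ℝ)| ≤ (nm a : ℝ) * (nm b : ℝ) := by
  have h1 : |dt a b| ≤ nm a * nm b := by
    have e1 : 0 ≤ a.1 * b.2 := mul_nonneg a1 b2
    have e2 : 0 ≤ a.2 * b.1 := mul_nonneg a2 b1
    have e3 : a.1 * b.2 ≤ nm a * nm b := by
      apply mul_le_mul _ _ b2 _
      · unfold nm; omega
      · unfold nm; omega
      · unfold nm; omega
    have e4 : a.2 * b.1 ≤ nm a * nm b := by
      apply mul_le_mul _ _ b1 _
      · unfold nm; omega
      · unfold nm; omega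
      · unfold nm; omega
    have e5 : dt a b = a.1 * b.2 - a.2 * b.1 := by unfold dt; ring
    rw [e5, abs_le]
    constructor <;> linarith
  exact_mod_cast h1

/-- the odd vertices are large -/
theorem mb2_odd {p : Prm 10} {τ : ℝ} (hp : p.Ok τ) (hτ : τ ≤ 1 / 1000) {X : ℕ} (hX : 2 ≤ X)
    (hXz : (nm z : ℝ) ≤ (X : ℝ) ^ p.ew)
    {u : Vec 10} (h : GP p X u) (a : Fin 11) (ha : ¬ Even a.val) :
    (X : ℝ) ^ (p.em - p.ew) ≤ (nm (u a) : ℝ) := by
  obtain ⟨⟨e0, e1, e2, e3, -⟩, ⟨n1, n2⟩, -, -, n5, -⟩ := prm_nums hp hτ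
  have hX1 : (1 : ℝ) ≤ X := by
    have : 1 ≤ X := by omega
    exact_mod_cast this
  have a2 := a.isLt
  have hX0 : (0 : ℝ) < X := by linarith
  have hemw : (X : ℝ) ^ (p.em - p.ew) ≤ (X : ℝ) ^ p.em :=
    Real.rpow_le_rpow_of_exponent_le hX1 (by linarith)
  by_cases h1 : a = 1
  · obtain ⟨k1, k2, -⟩ := mb2_coord h 1
    have h2 := h.e1.lo
    rw [mb2_d1 u] at h2
    have h3 := mb2_dtle (a := u 0) (b := u 1) (by rw [h.first]; norm_num) (by rw [h.first]) k1 k2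
    have h4 : (nm (u 0) : ℝ) = 1 := by
      rw [h.first]
      unfold nm
      norm_num
    rw [h4, one_mul] at h3
    rw [h1]
    exact hemw.trans (h2.trans h3)
  by_cases h9 : a = 9
  · obtain ⟨k1, k2, -⟩ := mb2_coord h 9
    obtain ⟨l1, l2, -⟩ := mb2_coord h 10
    have h2 := h.e2.lo
    have h2' : (X : ℝ) ^ p.em ≤ (dE u 10 : ℝ) := h2
    rw [mb2_d10 u] at h2'
    have h3 := mb2_dtle k1 k2 l1 l2
    rw [mb2_last h] at h3 h2'
    rw [h9]
    have h5 : (0 : ℝ) < (X : ℝ) ^ p.ew := Real.rpow_pos_of_pos hX0 _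
    have h6 : (0 : ℝ) ≤ (nm (u 9) : ℝ) := by linarith [mb2_one h 9]
    rw [Real.rpow_sub hX0, div_le_iff₀ h5]
    exact (h2'.trans h3).trans (mul_le_mul_of_nonneg_left hXz h6)
  · have a1 : a.val ≠ 1 := fun e => h1 (Fin.ext e)
    have a9 : a.val ≠ 9 := fun e => h9 (Fin.ext e)
    have a0 : a.val % 2 = 1 := by
      rcases Nat.even_or_odd a.val with h2 | h2
      · exact absurd h2 ha
      · exact Nat.odd_iff.1 h2
    have h2 := h.low a (by omega) (by omega)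
    rw [n5 a (by omega) (by omega) ha] at h2
    exact (Real.rpow_le_rpow_of_exponent_le hX1 (by linarith)).trans h2

/-- the even inner vertices -/
theorem mb2_even {p : Prm 10} {τ : ℝ} (hp : p.Ok τ) (hτ : τ ≤ 1 / 1000) {X : ℕ} (hX : 2 ≤ X)
    {u : Vec 10} (h : GP p X u) (a : Fin 11) (ha : Even a.val) (h0 : a ≠ 0) (h1 : a ≠ 10) :
    (X : ℝ) ^ (200 * p.ew) ≤ (nm (u a) : ℝ) ∧
      (X : ℝ) ^ (200 * p.ew) * (nm (u a) : ℝ) ≤ (X : ℝ) ^ (p.em - p.ew) := by
  obtain ⟨⟨e0, e1, e2, e3, -⟩, ⟨n1, n2⟩, n3, n4, n5, -⟩ := prm_nums hp hτ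
  have hX1 : (1 : ℝ) ≤ X := by
    have : 1 ≤ X := by omega
    exact_mod_cast this
  have hX0 : (0 : ℝ) < X := by linarith
  have a2 := a.isLt
  have a0 : a.val ≠ 0 := fun e => h0 (Fin.ext e)
  have a1 : a.val ≠ 10 := fun e => h1 (Fin.ext e)
  have a3 : a.val % 2 = 0 := Nat.even_iff.1 ha
  obtain ⟨m1, m2⟩ := n3 a (by omega) (by omega)
  have m3 := n4 a (by omega) (by omega) ha
  constructor
  · refine (Real.rpow_le_rpow_of_exponent_le hX1 ?_).trans (h.low a (by omega) (by omega))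
    linarith
  · have h2 := h.upp a (by omega) (by omega)
    calc (X : ℝ) ^ (200 * p.ew) * (nm (u a) : ℝ) ≤
        (X : ℝ) ^ (200 * p.ew) * (X : ℝ) ^ (p.e a + p.ew) :=
          mul_le_mul_of_nonneg_left h2 (by positivity)
      _ = (X : ℝ) ^ (200 * p.ew + (p.e a + p.ew)) := (Real.rpow_add hX0 _ _).symm
      _ ≤ (X : ℝ) ^ (p.em - p.ew) := Real.rpow_le_rpow_of_exponent_le hX1 (by linarith)

/-- the inner vertices, lower bound -/
theorem mb2_low {p : Prm 10} {τ : ℝ} (hp : p.Ok τ) (hτ : τ ≤ 1 / 1000) {X : ℕ} (hX : 2 ≤ X)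
    (hXz : (nm z : ℝ) ≤ (X : ℝ) ^ p.ew)
    {u : Vec 10} (h : GP p X u) (a : Fin 11) (h0 : a ≠ 0) (h1 : a ≠ 10) :
    (X : ℝ) ^ (200 * p.ew) ≤ (nm (u a) : ℝ) := by
  by_cases ha : Even a.val
  · exact (mb2_even hp hτ hX h a ha h0 h1).1
  · obtain ⟨⟨e0, e1, e2, e3, -⟩, ⟨n1, n2⟩, n3, n4, n5, -⟩ := prm_nums hp hτ
    have hX1 : (1 : ℝ) ≤ X := by
      have : 1 ≤ X := by omega
      exact_mod_cast this
    refine le_trans ?_ (mb2_odd hp hτ hX hXz h a ha)
    refine Real.rpow_le_rpow_of_exponent_le hX1 ?_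
    obtain ⟨m1, m2⟩ := n3 2 (by decide) (by decide)
    have m3 := n4 2 (by decide) (by decide) (by decide)
    linarith

/-- adjacent inner vertices -/
theorem mb2_adj {p : Prm 10} {τ : ℝ} (hp : p.Ok τ) (hτ : τ ≤ 1 / 1000) {X : ℕ} (hX : 2 ≤ X)
    (hXz : (nm z : ℝ) ≤ (X : ℝ) ^ p.ew)
    {u : Vec 10} (h : GP p X u) (a b : Fin 11) (hab : b = a + 1) (h0 : a ≠ 0) (h1 : a ≠ 10)
    (h2 : b ≠ 0) (h3 : b ≠ 10) :
    (X : ℝ) ^ (200 * p.ew) * (nm (u a) : ℝ) ≤ (nm (u b) : ℝ) ∨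
      (X : ℝ) ^ (200 * p.ew) * (nm (u b) : ℝ) ≤ (nm (u a) : ℝ) := by
  have key : (Even a.val ∧ ¬ Even b.val) ∨ (Even b.val ∧ ¬ Even a.val) := by
    subst hab
    revert h0 h1 h2 h3
    clear h
    revert a
    decide
  rcases key with ⟨k1, k2⟩ | ⟨k1, k2⟩
  · left
    exact (mb2_even hp hτ hX h a k1 h0 h1).2.trans (mb2_odd hp hτ hX hXz h b k2)
  · right
    exact (mb2_even hp hτ hX h b k1 h2 h3).2.trans (mb2_odd hp hτ hX hXz h a k2)

/-- upper bound -/
theorem mb2_upp {p : Prm 10} {τ : ℝ} (hp : p.Ok τ) (hτ : τ ≤ 1 / 1000) {X : ℕ} (hX : 2 ≤ X)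
    (hX2 : 1 / p.c1 ≤ (X : ℝ) ^ p.ep) (hXz : (nm z : ℝ) ≤ (X : ℝ) ^ p.ew) {u : Vec 10} (h : GP p X u) (a : Fin 11) :
    (nm (u a) : ℝ) ≤ (X : ℝ) ^ (2 * p.ep) := by
  obtain ⟨⟨e0, e1, e2, e3, e4, e5, e6⟩, ⟨n1, n2⟩, n3, n4, n5, -⟩ := prm_nums hp hτ
  have hX1 : (1 : ℝ) ≤ X := by
    have : 1 ≤ X := by omega
    exact_mod_cast this
  have hX0 : (0 : ℝ) < X := by linarith
  have a2 := a.isLt
  have big : ∀ t : ℝ, 0 ≤ t → p.c1 * t ≤ (X : ℝ) ^ p.ep → t ≤ (X : ℝ) ^ (2 * p.ep) := by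
    intro t ht0 ht
    have e : (X : ℝ) ^ (2 * p.ep) = (X : ℝ) ^ p.ep * (X : ℝ) ^ p.ep := by
      rw [← Real.rpow_add hX0]
      congr 1
      ring
    rw [e]
    calc t = 1 / p.c1 * (p.c1 * t) := by field_simp
      _ ≤ (X : ℝ) ^ p.ep * (X : ℝ) ^ p.ep :=
        mul_le_mul hX2 ht (mul_nonneg e5.le ht0) (by positivity)
  have one : (1 : ℝ) ≤ (X : ℝ) ^ (2 * p.ep) := Real.one_le_rpow hX1 (by linarith)
  have nm0 : (nm (u 0) : ℝ) = 1 := by
    rw [h.first]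
    unfold nm
    norm_num
  have hz1 := mb2_z1
  have nm10 : (nm (u 10) : ℝ) = (nm z : ℝ) := by
    rw [mb2_last h]
  by_cases h0 : a = 0
  · rw [h0, nm0]
    exact one
  by_cases h10 : a = 10
  · rw [h10, nm10]
    refine hXz.trans (Real.rpow_le_rpow_of_exponent_le hX1 ?_)
    obtain ⟨m1, m2⟩ := n3 2 (by decide) (by decide)
    linarith
  by_cases h1 : a = 1
  · rw [h1]
    refine big _ (by linarith [mb2_one h 1]) ?_
    have k1 := (mb2_dt e5 h (a := 0) (b := 1) (by decide)).1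
    rw [nm0, one_mul, ← mb2_d1 u] at k1
    exact k1.trans h.e1.hi
  by_cases h9 : a = 9
  · rw [h9]
    refine big _ (by linarith [mb2_one h 9]) ?_
    have k1 := (mb2_dt e5 h (a := 9) (b := 10) (by decide)).1
    rw [nm10, ← mb2_d10 u] at k1
    have k2 : p.c1 * (nm (u 9) : ℝ) ≤ p.c1 * ((nm (u 9) : ℝ) * (nm z : ℝ)) := by
      apply mul_le_mul_of_nonneg_left _ e5.le
      have := mb2_one h 9
      nlinarith
    exact (k2.trans k1).trans h.e2.hi
  · have a0 : a.val ≠ 0 := fun e => h0 (Fin.ext e)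
    have a1 : a.val ≠ 1 := fun e => h1 (Fin.ext e)
    have a9 : a.val ≠ 9 := fun e => h9 (Fin.ext e)
    have a10 : a.val ≠ 10 := fun e => h10 (Fin.ext e)
    refine (h.upp a (by omega) (by omega)).trans (Real.rpow_le_rpow_of_exponent_le hX1 ?_)
    obtain ⟨m1, m2⟩ := n3 a (by omega) (by omega)
    linarith

theorem mb2_fx' : ∀ i j : Fin 11, i ≠ 10 - j → i ≠ 10 - j + 1 → i + j ≠ 0 ∧ i + j ≠ 10 := by
  decide

theorem mb2_inner {j i : Fin 11} (h : @PENK.fx (fd j) (mM j) i = none) :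
    i + j ≠ 0 ∧ i + j ≠ 10 := by
  obtain ⟨h1, h2⟩ := (@PENK.fx_none_iff (fd j) (mM j) i).1 h
  exact mb2_fx' i j h1 h2

/-- `PP X` tends to infinity -/
theorem mb2_PP : ∀ N : ℕ, ∃ X₀ : ℕ, ∀ X ≥ X₀, (N : ℝ) ≤ PP X := by
  intro N
  have t1 : Filter.Tendsto (fun X : ℕ => PP X) Filter.atTop Filter.atTop := by
    unfold PP
    refine Real.tendsto_exp_atTop.comp ?_
    refine (tendsto_rpow_atTop (by norm_num : (0 : ℝ) < 1 / 100)).comp ?_
    exact Real.tendsto_log_atTop.comp tendsto_natCast_atTop_atTop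
  obtain ⟨X1, hX1⟩ := Filter.eventually_atTop.1 (t1.eventually_ge_atTop (N : ℝ))
  exact ⟨X1, fun X hX => hX1 X hX⟩

theorem mb2_zero (j : Fin 11) : 10 - j + 1 + j = 0 := by
  revert j
  decide

theorem mb2_12 (j : Fin 11) : (2 : Fin 11) + j = 1 + j + 1 := by
  revert j
  decide

theorem mb2_01 (j : Fin 11) : (0 : Fin 11) + j = -1 + j + 1 := by
  revert j
  decide

theorem isPath_of_pr {p : Prm 10} {τ δ C1 : ℝ} (hp : p.Ok τ) (hτ : τ ≤ 1 / 1000) :
    ∃ X₀ : ℕ, 2 ≤ X₀ ∧ ∀ X ≥ X₀, ∀ (j : Fin 11) (u : Vec 10), GP p X u →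
      IsPathJ j (qM p δ C1 j) (50 * p.ew) X ⌊PP X⌋₊ (rt j u) ∧ One4J j (rt j u) := by
  obtain ⟨⟨e0, e1, e2, e3, e4, e5, e6⟩, -, -, -, -, -⟩ := prm_nums hp hτ
  have t1 : ∀ᶠ X : ℕ in Filter.atTop, 1 / p.c1 ≤ (X : ℝ) ^ p.ep :=
    ((tendsto_rpow_atTop e3).comp tendsto_natCast_atTop_atTop).eventually_ge_atTop _
  have t2 : ∀ᶠ X : ℕ in Filter.atTop, (nm z : ℝ) ≤ (X : ℝ) ^ p.ew :=
    ((tendsto_rpow_atTop e0).comp tendsto_natCast_atTop_atTop).eventually_ge_atTop _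
  obtain ⟨X1, hX1⟩ := Filter.eventually_atTop.1 t1
  obtain ⟨X2, hX2'⟩ := Filter.eventually_atTop.1 t2
  obtain ⟨X3, hX3'⟩ := mb2_PP NZ
  refine ⟨max (max 2 X1) (max X2 X3), (le_max_left _ _).trans (le_max_left _ _), fun X hX j u h => ?_⟩
  simp only [ge_iff_le, max_le_iff] at hX
  obtain ⟨⟨hX2, hXb⟩, hXc, hXd⟩ := hX
  have hX3 := hX1 X hXb
  have hXz := hX2' X hXc
  have hXP := hX3' X hXd
  have hNP : NZ ≤ ⌊PP X⌋₊ := Nat.le_floor hXP
  have hc := e5
  have k4 : (4 * (50 * p.ew)) = 200 * p.ew := by ring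
  have nr1 : ∀ i : Fin 11, (PENK.nr (rt j u i) : ℝ) = (nm (u (i + j)) : ℝ) := fun i =>
    mb2_nr h (i + j)
  have shift : ∀ i l : Fin 11, i ≠ l → i + j ≠ l + j := fun i l hil he => hil (add_right_cancel he)
  -- the signs
  have sgp : ∀ i l : Fin 11, i ≠ l →
      0 < sg (i + j) (l + j) * dt (rt j u i) (rt j u l) := by
    intro i l hil
    rcases lt_or_gt_of_ne (shift i l hil) with hlt | hlt
    · exact (mb2_dt hc h hlt).2.1
    · exact (mb2_dt hc h hlt).2.2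
  have dp : ∀ i : Fin 11, i + j ≠ 10 → 1 ≤ (i + j).val + 1 ∧ (i + j).val + 1 ≤ 10 := by
    intro i hi
    have h1 := (i + j).isLt
    have h2 : (i + j).val ≠ 10 := fun e => hi (Fin.ext e)
    omega
  have hm10 : mM j + j = 10 := by
    unfold mM
    exact sub_add_cancel _ _
  have hm0 : mM j + 1 + j = 0 := mb2_zero j
  letI : PENK.FD := fd j
  have poly : PENK.IsPoly (mM j) (qM p δ C1 j) X ⌊PP X⌋₊ (rt j u) := by
    refine ⟨?_, ?_, sgp, ?_, ?_, ?_, ?_, ?_, hNP⟩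
    · intro i
      rw [nr1]
      show (X : ℝ) ^ (0 : ℝ) ≤ _
      rw [Real.rpow_zero]
      exact mb2_one h _
    · intro i
      rw [nr1]
      show _ ≤ (X : ℝ) ^ (0 + 100 * p.ep / 50)
      have e : (0 : ℝ) + 100 * p.ep / 50 = 2 * p.ep := by ring
      rw [e]
      exact mb2_upp hp hτ hX2 hX3 hXz h _
    · intro i
      rw [dn_rt h j i]
      by_cases hi : i + j = 10
      · rw [if_pos hi]
        exact squarefree_one
      · rw [if_neg hi]
        exact (h.dp _ (dp i hi).1 (dp i hi).2).1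
    · intro i q hq hqd
      rw [dn_rt h j i] at hqd
      by_cases hi : i + j = 10
      · rw [if_pos hi] at hqd
        exact absurd (Nat.dvd_one.1 hqd) hq.one_lt.ne'
      · rw [if_neg hi] at hqd
        have h1 := ((h.dp _ (dp i hi).1 (dp i hi).2).2 q hq hqd).2
        exact (Nat.floor_lt' hq.ne_zero).mpr h1
    · intro i l hil
      rw [dn_rt h j i, dn_rt h j l]
      by_cases hi : i + j = 10
      · rw [if_pos hi]
        exact Nat.coprime_one_left _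
      · by_cases hl : l + j = 10
        · rw [if_pos hl]
          exact Nat.coprime_one_right _
        · rw [if_neg hi, if_neg hl]
          have hne : (i + j).val ≠ (l + j).val := fun e => shift i l hil (Fin.ext e)
          rcases lt_or_gt_of_ne hne with hlt | hlt
          · exact h.cop _ _ (dp i hi).1 (by omega) (dp l hl).2
          · exact (h.cop _ _ (dp l hl).1 (by omega) (dp i hi).2).symm
    · intro i l h1 h2
      rw [dn_rt h j i]
      by_cases hi : i + j = 10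
      · rw [if_pos hi]
        exact Nat.coprime_one_left _
      · rw [if_neg hi]
        have hlt : (i + j).val < 10 := by
          have := (dp i hi).2
          omega
        have c1 : (⟨(i + j).val, hlt⟩ : Fin 10).castSucc = i + j := Fin.ext rfl
        have c2 : (⟨(i + j).val, hlt⟩ : Fin 10).succ = i + j + 1 := by
          apply Fin.ext
          show (i + j).val + 1 = (i + j + 1).val
          rw [Fin.val_add]
          show _ = ((i + j).val + 1) % 11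
          omega
        have k := h.nice ⟨(i + j).val, hlt⟩ (l + j) (by
          rw [c1]
          exact shift l i h1) (by
          rw [c2]
          have e : i + j + 1 = (i + 1) + j := by
            rw [add_assoc, add_comm j 1, ← add_assoc]
          rw [e]
          exact shift l (i + 1) h2)
        rw [c1] at k
        exact k
    · intro q hq hqn hqd
      rw [dl_open h j (mM j) hm10] at hqd
      exact NZ_z hqn ((dvd_neg).1 hqd)
  refine ⟨⟨poly, ?_, ?_, ?_, ?_, ?_⟩, ?_⟩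
  · intro i l hil
    rw [nr1, nr1]
    show p.c1 * (nm (u (i + j)) : ℝ) * (nm (u (l + j)) : ℝ) ≤ |(dt (u (i + j)) (u (l + j)) : ℝ)|
    rcases lt_or_gt_of_ne (shift i l hil) with hlt | hlt
    · have k := (mb2_dt hc h hlt).1
      linarith
    · have k := (mb2_dt hc h hlt).1
      rw [mb2_neg (u (i + j)) (u (l + j))]
      push_cast
      rw [abs_neg]
      linarith
  · intro i c hic
    rcases PENK.fx_cases (mM j) i with ⟨h1, -⟩ | ⟨h1, h2⟩ | ⟨h1, h2⟩
    · rw [hic] at h1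
      simp at h1
    · rw [hic] at h1
      rw [Option.some.inj h1, h2]
      show u (mM j + j) = z
      rw [hm10]
      exact h.last
    · rw [hic] at h1
      rw [Option.some.inj h1, h2]
      show u (mM j + 1 + j) = (1, 0)
      rw [hm0]
      exact h.first
  · intro i hi
    rw [nr1, k4]
    obtain ⟨i1, i2⟩ := mb2_inner hi
    exact mb2_low hp hτ hX2 hXz h _ i1 i2
  · intro i1 i2
    rw [nr1, nr1, k4]
    obtain ⟨a1, a2⟩ := mb2_inner i1
    obtain ⟨b1, b2⟩ := mb2_inner i2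
    exact mb2_adj hp hτ hX2 hXz h _ _ (mb2_12 j) a1 a2 b1 b2
  · intro i1 i2
    rw [nr1, nr1, k4]
    obtain ⟨a1, a2⟩ := mb2_inner i1
    obtain ⟨b1, b2⟩ := mb2_inner i2
    exact mb2_adj hp hτ hX2 hXz h _ _ (mb2_01 j) a1 a2 b1 b2
  · intro q hq hqd
    rw [DD_rt h j] at hqd
    unfold Dall at hqd
    obtain ⟨i, hi, hj⟩ := (hq.prime.dvd_finsetProd_iff _).mp hqd
    rw [Finset.mem_Icc] at hi
    obtain ⟨s1, s2⟩ := (h.dp i hi.1 hi.2).2 q hq hj
    have s3 : NZ < q := by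
      have : (NZ : ℝ) < (q : ℝ) := lt_of_le_of_lt hXP s2
      exact_mod_cast this
    exact (Sp_iff j hq s3).2 s1

end Pool.Agent.AQ.PENM

namespace Pool.Agent.AQ.PENM

open Finset Pool.Agent.PENT Pool.Agent.AQ.NC

variable [Cst]

theorem isPath_of : type_of% @isPath_of_pr := @isPath_of_pr

end Pool.Agent.AQ.PENM
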