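import Pool.Agent.Lib_helper18.AQ.M.Defs
import Pool.Agent.Lib_helper18.AQ.MF.MA1
import Pool.Agent.Lib_helper18.AQ.MF.MB1

/-! Block MB3 (helper37; port of helper72's block): helper96's `IsPt` in natural indices -/

set_option autoImplicit false

namespace Pool.Agent.AQ.PENM

open Finset Pool.Agent.PENT Pool.Agent.AQ.NC

variable [Cst]

theorem mb3_rt0 (u : Vec 10) (i : Fin 11) : rt 0 u i = u i := by
  unfold rt
  rw [add_zero]

theorem mb3_nr_nm {a : ℤ × ℤ} (h1 : 0 ≤ a.1) (h2 : 0 ≤ a.2) :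
    ((Pool.Agent.PENK.nr a : ℕ) : ℝ) = (nm a : ℝ) := by
  have h : ((Pool.Agent.PENK.nr a : ℕ) : ℤ) = nm a := by
    unfold Pool.Agent.PENK.nr nm
    rw [Nat.cast_add, Int.natCast_natAbs, Int.natCast_natAbs, abs_of_nonneg h1, abs_of_nonneg h2]
  have h' : (((Pool.Agent.PENK.nr a : ℕ) : ℤ) : ℝ) = (nm a : ℝ) :=
    congrArg (fun z : ℤ => (z : ℝ)) h
  rwa [Int.cast_natCast] at h'

theorem mb3_last {p : Prm 10} {X : ℕ} {u : Vec 10} (h : GP p X u) : u (10 : Fin 11) = z := h.last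

theorem mb3_nr {p : Prm 10} {X : ℕ} {u : Vec 10} (h : GP p X u) (j : Fin 11) :
    ((Pool.Agent.PENK.nr (u j) : ℕ) : ℝ) = (nm (u j) : ℝ) :=
  mb3_nr_nm (fn_coord h j).1 (fn_coord h j).2.1

theorem mb3_nm1 {p : Prm 10} {X : ℕ} {u : Vec 10} (h : GP p X u) (j : Fin 11) :
    (1 : ℝ) ≤ (nm (u j) : ℝ) := by
  exact_mod_cast (fn_coord h j).2.2

theorem mb3_dn (u : Vec 10) (j : Fin 11) :
    PNV.dn (rt 0 u) j = if j = 10 then 1 else dE u (j.val + 1) := by
  unfold PNV.dn PNV.dl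
  split_ifs with c
  · rfl
  · have hj : j.val ≠ 10 := fun e => c (Fin.ext e)
    have hlt := j.isLt
    rw [mb3_rt0, mb3_rt0]
    unfold dE
    rw [dif_pos ⟨by omega, by omega⟩]
    have e1 : (⟨j.val + 1 - 1, by omega⟩ : Fin 11) = j := by
      apply Fin.ext
      show j.val + 1 - 1 = j.val
      omega
    have e2 : (⟨j.val + 1, by omega⟩ : Fin 11) = j + 1 := by
      apply Fin.ext
      show j.val + 1 = (j + 1).val
      rw [Fin.val_add_one_of_lt]
      exact show j.val < 10 by omega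
    rw [e1, e2]

theorem mb3_dt_anti (v w : ℤ × ℤ) : dt v w = - dt w v := by
  unfold dt
  ring

theorem mb3_nmz : (1 : ℝ) ≤ (nm z : ℝ) := by
  exact_mod_cast ma1_z

theorem mb3_sg {p : Prm 10} {X : ℕ} {u : Vec 10} (hc : 0 < p.c1) (h : GP p X u) (i j : Fin 11)
    (hij : i ≠ j) : 0 < sg i j * dt (u i) (u j) := by
  rcases lt_or_gt_of_ne hij with hl | hl
  · have h1 := fn_dt_pos hc h (i := i) (j := j) hl
    have hl' : i.val < j.val := hl
    unfold sgn at h1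
    unfold sg
    rw [if_pos hl']
    split_ifs at h1 ⊢ with c
    · have h2 : (0 : ℝ) < ((-1 * dt (u i) (u j) : ℤ) : ℝ) := by
        push_cast
        exact h1
      exact_mod_cast h2
    · have h2 : (0 : ℝ) < ((1 * dt (u i) (u j) : ℤ) : ℝ) := by
        push_cast
        exact h1
      exact_mod_cast h2
  · have h1 := fn_dt_pos hc h (i := j) (j := i) hl
    have hl' : ¬ i.val < j.val := by
      have : j.val < i.val := hl
      omega
    unfold sgn at h1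
    unfold sg
    rw [if_neg hl', mb3_dt_anti (u i) (u j)]
    split_ifs at h1 ⊢ with c
    · have h2 : (0 : ℝ) < ((1 * -dt (u j) (u i) : ℤ) : ℝ) := by
        push_cast
        linarith
      exact_mod_cast h2
    · have h2 : (0 : ℝ) < ((-1 * -dt (u j) (u i) : ℤ) : ℝ) := by
        push_cast
        linarith
      exact_mod_cast h2

theorem mb3_sgn_abs (i j : ℕ) (t : ℝ) : sgn i j * t ≤ |t| := by
  unfold sgn
  split_ifs
  · have := neg_abs_le t
    linarith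
  · have := le_abs_self t
    linarith

theorem mb3_sep {p : Prm 10} {X : ℕ} {u : Vec 10} (h : GP p X u) (i j : Fin 11)
    (hij : i ≠ j) : p.c1 * ((nm (u i) : ℝ) * (nm (u j) : ℝ)) ≤ |(dt (u i) (u j) : ℝ)| := by
  rcases lt_or_gt_of_ne hij with hl | hl
  · exact (h.sep i j hl).trans (mb3_sgn_abs _ _ _)
  · have h1 := (h.sep j i hl).trans (mb3_sgn_abs _ _ _)
    rw [mb3_dt_anti (u i) (u j)]
    push_cast
    rw [abs_neg]
    calc p.c1 * ((nm (u i) : ℝ) * (nm (u j) : ℝ)) =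
        p.c1 * ((nm (u j) : ℝ) * (nm (u i) : ℝ)) := by ring
      _ ≤ _ := h1

theorem mb3_main {p : Prm 10} {X : ℕ} {u : Vec 10} (hc : 0 < p.c1) (hc1 : p.c1 ≤ 1)
    (h : GP p X u) (hz : (nm z : ℝ) ≤ (X : ℝ) ^ p.ew) (hPz : (z.2 : ℝ) ≤ PP X)
    {a a' b b' : ℝ} (h1 : (X : ℝ) ^ a ≤ (nm (u 1) : ℝ)) (h1' : (nm (u 1) : ℝ) ≤ (X : ℝ) ^ a')
    (h9 : (X : ℝ) ^ b ≤ (nm (u 9) : ℝ)) (h9' : (nm (u 9) : ℝ) ≤ (X : ℝ) ^ b') :
    PNV.IsPt (qN p a a' b b') X (rt 0 u) := by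
  have hz1 := mb3_nmz
  have hz0 : (0 : ℝ) < (nm z : ℝ) := by linarith
  have hcz : p.c1 / (nm z : ℝ) ≤ p.c1 := div_le_self hc.le hz1
  refine ⟨?_, ?_, ?_, ?_, ?_, ?_, ?_, ?_, ?_, ?_, ?_, ?_, ?_⟩
  · rw [mb3_rt0]
    exact h.first
  · rw [mb3_rt0]
    exact mb3_last h
  · rw [mb3_rt0, h.first]
    rfl
  · rw [mb3_rt0, mb3_last h]
    exact Int.isCoprime_iff_gcd_eq_one.1 z_cop
  · intro j
    rw [mb3_rt0, mb3_nr h j]
    show (X : ℝ) ^ (if j = 0 ∨ j = 10 then (0 : ℝ) else if j = 1 then a else if j = 9 then b else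
      p.e j) ≤ _
    split_ifs with c1 c2 c3
    · rw [Real.rpow_zero]
      exact mb3_nm1 h j
    · rw [c2]
      exact h1
    · rw [c3]
      exact h9
    · have hj0 : j.val ≠ 0 := fun e => c1 (Or.inl (Fin.ext e))
      have hj10 : j.val ≠ 10 := fun e => c1 (Or.inr (Fin.ext e))
      have hj1 : j.val ≠ 1 := fun e => c2 (Fin.ext e)
      have hj9 : j.val ≠ 9 := fun e => c3 (Fin.ext e)
      have hlt := j.isLt
      exact h.low j (by omega) (by omega)
  · intro j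
    rw [mb3_rt0, mb3_nr h j]
    show _ ≤ (X : ℝ) ^ (if j = 0 then (0 : ℝ) else if j = 10 then p.ew else
      if j = 1 then a' else if j = 9 then b' else p.e j + p.ew)
    split_ifs with c0 c1 c2 c3
    · rw [Real.rpow_zero, c0, h.first]
      norm_num [nm]
    · rw [c1, mb3_last h]
      exact hz
    · rw [c2]
      exact h1'
    · rw [c3]
      exact h9'
    · have hj0 : j.val ≠ 0 := fun e => c0 (Fin.ext e)
      have hj10 : j.val ≠ 10 := fun e => c1 (Fin.ext e)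
      have hj1 : j.val ≠ 1 := fun e => c2 (Fin.ext e)
      have hj9 : j.val ≠ 9 := fun e => c3 (Fin.ext e)
      have hlt := j.isLt
      exact h.upp j (by omega) (by omega)
  · intro i j hij
    rw [mb3_rt0, mb3_rt0]
    exact mb3_sg hc h i j hij
  · intro i j hij
    rw [mb3_rt0, mb3_rt0, mb3_nr h i, mb3_nr h j]
    show p.c1 / (nm z : ℝ) * (nm (u i) : ℝ) * (nm (u j) : ℝ) ≤ |(dt (u i) (u j) : ℝ)|
    refine le_trans ?_ (mb3_sep h i j hij)
    rw [mul_assoc]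
    apply mul_le_mul_of_nonneg_right hcz
    have a1 := mb3_nm1 h i
    have a2 := mb3_nm1 h j
    positivity
  · intro j
    rw [mb3_dn]
    split_ifs with c
    · exact squarefree_one
    · have hj : j.val ≠ 10 := fun e => c (Fin.ext e)
      have hlt := j.isLt
      exact (h.dp (j.val + 1) (by omega) (by omega)).1
  · intro i j hij
    rw [mb3_dn, mb3_dn]
    split_ifs with c d d
    · exact Nat.coprime_one_left 1
    · exact Nat.coprime_one_left _
    · exact Nat.coprime_one_right _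
    · have hi : i.val ≠ 10 := fun e => c (Fin.ext e)
      have hj : j.val ≠ 10 := fun e => d (Fin.ext e)
      have hlt := j.isLt
      have hlt' := i.isLt
      have hne : i.val ≠ j.val := fun e => hij (Fin.ext e)
      rcases lt_or_gt_of_ne hne with hl | hl
      · exact h.cop (i.val + 1) (j.val + 1) (by omega) (by omega) (by omega)
      · exact (h.cop (j.val + 1) (i.val + 1) (by omega) (by omega) (by omega)).symm
  · intro j k hk hk'
    rw [mb3_dn, mb3_rt0, mb3_rt0]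
    split_ifs with c
    · exact Nat.coprime_one_left _
    · have hj : j.val ≠ 10 := fun e => c (Fin.ext e)
      have hlt := j.isLt
      have hj' : j.val < 10 := by omega
      have e1 : (⟨j.val, hj'⟩ : Fin 10).castSucc = j := Fin.ext rfl
      have e2 : (⟨j.val, hj'⟩ : Fin 10).succ = j + 1 := by
        apply Fin.ext
        rw [Fin.val_succ, Fin.val_add_one_of_lt]
        show j.val < 10
        exact hj'
      have h3 := h.nice ⟨j.val, hj'⟩ k (by rw [e1]; exact hk) (by rw [e2]; exact hk')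
      rw [e1] at h3
      exact h3
  · intro j
    rw [mb3_dn, mb3_rt0, mb3_rt0]
    split_ifs with c
    · exact Nat.coprime_one_left _
    · have hj : j.val ≠ 10 := fun e => c (Fin.ext e)
      have hlt := j.isLt
      have hdp := h.dp (j.val + 1) (by omega) (by omega)
      have hdt : dt (u 0) (u 10) = z.2 := by
        rw [h.first, mb3_last h]
        unfold dt
        ring
      rw [hdt]
      rw [Nat.coprime_iff_gcd_eq_one]
      by_contra hcon
      obtain ⟨q, hq, hqd⟩ := Nat.exists_prime_and_dvd hcon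
      have g1 := hqd.trans (Nat.gcd_dvd_left _ _)
      have g2 := hqd.trans (Nat.gcd_dvd_right _ _)
      have g3 := (hdp.2 q hq g1).2
      have hzpos := z_two
      have g4 : q ≤ z.2.natAbs := Nat.le_of_dvd (Int.natAbs_pos.2 hzpos.ne') g2
      have g5 : ((z.2.natAbs : ℕ) : ℝ) = (z.2 : ℝ) := by
        rw [Nat.cast_natAbs, abs_of_pos hzpos]
      have g6 : (q : ℝ) ≤ ((z.2.natAbs : ℕ) : ℝ) := by exact_mod_cast g4
      rw [g5] at g6
      linarith
  · rw [mb3_rt0, mb3_rt0, mb3_nr h, mb3_nr h, mb3_last h, h.first]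
    show p.c1 / (nm z : ℝ) * (nm z : ℝ) * (nm (1, 0) : ℝ) ≤ 1
    rw [div_mul_cancel₀ _ hz0.ne']
    norm_num [nm]
    exact hc1

/-- the size of `u_1` and `u_9` -/
theorem mb3_ends {p : Prm 10} {X : ℕ} {u : Vec 10} (hX : (0 : ℝ) < X) (hc : 0 < p.c1)
    (h : GP p X u) (hw : 1 / p.c1 ≤ (X : ℝ) ^ p.ew) (hz : (nm z : ℝ) ≤ (X : ℝ) ^ p.ew) :
    ((X : ℝ) ^ (p.em - p.ew) ≤ (nm (u 1) : ℝ) ∧ (nm (u 1) : ℝ) ≤ (X : ℝ) ^ (p.ep + p.ew)) ∧
    ((X : ℝ) ^ (p.em - p.ew) ≤ (nm (u 9) : ℝ) ∧ (nm (u 9) : ℝ) ≤ (X : ℝ) ^ (p.ep + p.ew)) := by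
  have hz1 := mb3_nmz
  have hw0 : (0 : ℝ) < (X : ℝ) ^ p.ew := Real.rpow_pos_of_pos hX _
  have key : ∀ (d : ℕ) (n m : ℝ), EF p X d → 1 ≤ n → 1 ≤ m → m ≤ (nm z : ℝ) →
      (d : ℝ) ≤ n * m → p.c1 * (n * m) ≤ d →
      (X : ℝ) ^ (p.em - p.ew) ≤ n ∧ n ≤ (X : ℝ) ^ (p.ep + p.ew) := by
    intro d n m hd hn hm hmz h1 h2
    constructor
    · rw [Real.rpow_sub hX, div_le_iff₀ hw0]
      refine hd.lo.trans (h1.trans ?_)
      exact mul_le_mul_of_nonneg_left (hmz.trans hz) (by linarith)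
    · rw [Real.rpow_add hX]
      have h3 : n * 1 ≤ n * m := mul_le_mul_of_nonneg_left hm (by linarith)
      have h4 : n ≤ d * (1 / p.c1) := by
        rw [mul_one_div, le_div_iff₀ hc]
        nlinarith
      have h5 : (0 : ℝ) < (X : ℝ) ^ p.ep := Real.rpow_pos_of_pos hX _
      calc n ≤ d * (1 / p.c1) := h4
        _ ≤ (X : ℝ) ^ p.ep * (1 / p.c1) :=
          mul_le_mul_of_nonneg_right hd.hi (by positivity)
        _ ≤ _ := mul_le_mul_of_nonneg_left hw h5.le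
  have hdtle : ∀ v w : ℤ × ℤ, 0 ≤ v.1 → 0 ≤ v.2 → 0 ≤ w.1 → 0 ≤ w.2 →
      (((dt v w).natAbs : ℕ) : ℝ) ≤ (nm v : ℝ) * (nm w : ℝ) := by
    intro v w a1 a2 a3 a4
    have h1 : ((dt v w).natAbs : ℤ) ≤ nm v * nm w := by
      rw [Int.natCast_natAbs, abs_le]
      unfold dt nm
      constructor
      · nlinarith [mul_nonneg a1 a3, mul_nonneg a1 a4, mul_nonneg a2 a3, mul_nonneg a2 a4]
      · nlinarith [mul_nonneg a1 a3, mul_nonneg a1 a4, mul_nonneg a2 a3, mul_nonneg a2 a4]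
    have h2 : (((dt v w).natAbs : ℤ) : ℝ) ≤ ((nm v * nm w : ℤ) : ℝ) := by exact_mod_cast h1
    rw [Int.cast_natCast, Int.cast_mul] at h2
    exact h2
  have habs : ∀ v w : ℤ × ℤ, (((dt v w).natAbs : ℕ) : ℝ) = |(dt v w : ℝ)| := by
    intro v w
    rw [Nat.cast_natAbs, Int.cast_abs]
  constructor
  · have e2 : dE u 1 = (dt (u 0) (u 1)).natAbs := by
      unfold dE
      rw [dif_pos (by norm_num)]
      rfl
    have h0 := fn_coord h 0
    have h1 := fn_coord h 1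
    have hnm0 : (nm (u 0) : ℝ) = 1 := by
      rw [h.first]
      norm_num [nm]
    refine key (dE u 1) (nm (u 1) : ℝ) 1 h.e1 (mb3_nm1 h 1) le_rfl hz1 ?_ ?_
    · rw [e2]
      have := hdtle (u 0) (u 1) h0.1 h0.2.1 h1.1 h1.2.1
      rw [hnm0] at this
      linarith
    · rw [e2, habs]
      have := mb3_sep h 0 1 (by decide)
      rw [hnm0] at this
      linarith
  · have e2 : dE u 10 = (dt (u 9) (u 10)).natAbs := by
      unfold dE
      rw [dif_pos (by norm_num)]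
      rfl
    have h0 := fn_coord h 9
    have h1 := fn_coord h 10
    have hl : u 10 = z := mb3_last h
    refine key (dE u 10) (nm (u 9) : ℝ) (nm z : ℝ) h.e2 (mb3_nm1 h 9) hz1 le_rfl ?_ ?_
    · rw [e2, ← hl]
      exact hdtle (u 9) (u 10) h0.1 h0.2.1 h1.1 h1.2.1
    · rw [e2, habs, ← hl]
      exact mb3_sep h 9 10 (by decide)

theorem mb3_PP (N : ℝ) : ∃ X₀ : ℕ, ∀ X ≥ X₀, N ≤ PP X := by
  have h1 : Filter.Tendsto (fun X : ℕ => PP X) Filter.atTop Filter.atTop := by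
    unfold PP
    exact Real.tendsto_exp_atTop.comp ((tendsto_rpow_atTop (by norm_num)).comp
      (Real.tendsto_log_atTop.comp tendsto_natCast_atTop_atTop))
  obtain ⟨X₀, h⟩ := Filter.eventually_atTop.1 (Filter.tendsto_atTop.1 h1 N)
  exact ⟨X₀, fun X hX => h X hX⟩

/-- BLOCK MB3 (uses MA1, MB1): helper96's `IsPt` in natural indices (`rt 0 u = u`) -/
theorem isPt_of_pr {p : Prm 10} {τ : ℝ} (hp : p.Ok τ) (hτ : τ ≤ 1 / 1000) : ∃ X₀ : ℕ, 2 ≤ X₀ ∧
    ∀ X ≥ X₀, ∀ u : Vec 10, GP p X u →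
      PNV.IsPt (qN p (p.em - p.ew) (p.ep + p.ew) (p.em - p.ew) (p.ep + p.ew)) X (rt 0 u) ∧
      ∀ a b : ℝ, (X : ℝ) ^ a ≤ (nm (u 1) : ℝ) → (nm (u 1) : ℝ) ≤ (X : ℝ) ^ (a + p.ew) →
        (X : ℝ) ^ b ≤ (nm (u 9) : ℝ) → (nm (u 9) : ℝ) ≤ (X : ℝ) ^ (b + p.ew) →
        PNV.IsPt (qN p a (a + p.ew) b (b + p.ew)) X (rt 0 u) := by
  have hc : 0 < p.c1 := hp.c10
  have hc1 : p.c1 ≤ 1 := hp.c11.trans (by linarith)
  have hw : 0 < p.ew := hp.ew0
  obtain ⟨N, hN⟩ : ∃ N : ℕ, ∀ X ≥ N, max (1 / p.c1) (nm z : ℝ) ≤ (X : ℝ) ^ p.ew := by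
    have h1 := (tendsto_rpow_atTop hw).comp tendsto_natCast_atTop_atTop
    have h2 := (Filter.tendsto_atTop.1 h1) (max (1 / p.c1) (nm z : ℝ))
    obtain ⟨N, hN⟩ := Filter.eventually_atTop.1 h2
    exact ⟨N, fun X hX => hN X hX⟩
  obtain ⟨N', hN'⟩ := mb3_PP (z.2 : ℝ)
  refine ⟨max (max N N') 2, le_max_right _ _, fun X hX u h => ?_⟩
  have hXN : N ≤ X := le_trans (le_trans (le_max_left _ _) (le_max_left _ _)) hX
  have hXN' : N' ≤ X := le_trans (le_trans (le_max_right _ _) (le_max_left _ _)) hX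
  have hX2 : 2 ≤ X := le_trans (le_max_right _ _) hX
  have hx : (0 : ℝ) < X := by
    have : 0 < X := by omega
    exact_mod_cast this
  have hwX := hN X hXN
  have hw1 := (le_max_left _ _).trans hwX
  have hw2 := (le_max_right _ _).trans hwX
  have hP := hN' X hXN'
  obtain ⟨⟨g1, g2⟩, g3, g4⟩ := mb3_ends hx hc h hw1 hw2
  exact ⟨mb3_main hc hc1 h hw2 hP g1 g2 g3 g4,
    fun a b k1 k2 k3 k4 => mb3_main hc hc1 h hw2 hP k1 k2 k3 k4⟩

theorem rot_rt_pr (j : Fin 11) (u : Vec 10) : PNI.rot j (rt 0 u) = rt j u := by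
  funext i
  unfold PNI.rot rt
  rw [add_zero]

end Pool.Agent.AQ.PENM

namespace Pool.Agent.AQ.PENM

open Finset Pool.Agent.PENT Pool.Agent.AQ.NC

variable [Cst]

theorem isPt_of : type_of% @isPt_of_pr := @isPt_of_pr

theorem rot_rt : type_of% @rot_rt_pr := @rot_rt_pr

end Pool.Agent.AQ.PENM
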