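import Pool.Agent.Lib_helper18.AQ.M.Defs
import Pool.Agent.Lib_helper18.AQ.MF.MB1

/-! PENM (MP_892e4c_nt), block MB4 (helper37, port of helper31's block) -/

set_option autoImplicit false

namespace Pool.Agent.AQ.PENM

open Finset Pool.Agent.PENT Pool.Agent.AQ.NC

variable [Cst]

theorem mb4_disc {p : Prm 10} {C1 : ℝ} {X : ℕ} {s : (ℤ × ℤ × ℤ) × Vec 10} (h : TT p C1 X s) :
    s.1.1 * s.1.2.2 - s.1.2.1 ^ 2 = D := by
  have h1 := h.aw
  unfold AW at h1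
  exact (mem_filter.1 h1).2.1

theorem mb4_gd {p : Prm 10} {C1 : ℝ} {X : ℕ} {s : (ℤ × ℤ × ℤ) × Vec 10} (h : TT p C1 X s) :
    GD s.1 s.2 := by
  by_contra hn
  apply h.w
  unfold W
  rw [if_neg hn]

theorem mb4_dE (u : Vec 10) (i : Fin 10) :
    dE u (i.val + 1) = (dt (u i.castSucc) (u i.succ)).natAbs := by
  unfold dE
  rw [dif_pos ⟨by omega, by omega⟩]
  rfl

theorem mb4_one {p : Prm 10} {X : ℕ} {u : Vec 10} (h : GP p X u) (i : Fin 10) :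
    dt (u i.castSucc) (u i.succ) ≠ 0 := by
  have h1 := (h.dp (i.val + 1) (by omega) (by omega)).1
  intro h0
  rw [mb4_dE, h0] at h1
  exact not_squarefree_zero h1

theorem mb4_cases (j : Fin 11) : j = 10 ∨ ∃ i : Fin 10, j = i.castSucc := by
  rcases lt_or_ge j.val 10 with h | h
  · exact Or.inr ⟨⟨j.val, h⟩, rfl⟩
  · left
    apply Fin.ext
    have := j.isLt
    show j.val = 10
    omega

theorem mb4_r0 (i : Fin 10) (u : Vec 10) : rt i.castSucc u 0 = u i.castSucc := by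
  unfold rt
  rw [zero_add]

theorem mb4_r1 (i : Fin 10) (u : Vec 10) : rt i.castSucc u 1 = u i.succ := by
  unfold rt
  exact congrArg u ((add_comm (1 : Fin 11) i.castSucc).trans Fin.coeSucc_eq_succ)

theorem mb4_t0 {p : Prm 10} {X : ℕ} {u : Vec 10} (h : GP p X u) : rt 10 u 0 = z := by
  unfold rt
  rw [zero_add]
  exact h.last

theorem mb4_t1 {p : Prm 10} {X : ℕ} {u : Vec 10} (h : GP p X u) : rt 10 u 1 = (1, 0) := by
  unfold rt
  have : (1 + 10 : Fin 11) = 0 := by decide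
  rw [this]
  exact h.first

theorem mb4_dl (u : PENK.PolyK 11) : PENK.dl u 0 = dt (u 0) (u 1) := by
  unfold PENK.dl
  rw [zero_add]

theorem mb4_dt10 {p : Prm 10} {X : ℕ} {u : Vec 10} (h : GP p X u) :
    dt (rt 10 u 0) (rt 10 u 1) = -z.2 := by
  rw [mb4_t0 h, mb4_t1 h]
  unfold dt
  ring

theorem mb4_ne {p : Prm 10} {X : ℕ} {u : Vec 10} (h : GP p X u) (j : Fin 11) :
    dt (rt j u 0) (rt j u 1) ≠ 0 := by
  rcases mb4_cases j with hj | ⟨i, hi⟩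
  · subst hj
    rw [mb4_dt10 h]
    have := z_two
    omega
  · subst hi
    rw [mb4_r0, mb4_r1]
    exact mb4_one h i

theorem mb4_cs (i : Fin 10) : ¬ (i.castSucc : Fin 11) = 10 := by
  intro h
  have h1 : i.val = 10 := congrArg Fin.val h
  have h2 := i.isLt
  omega

theorem mb4_dv (i : Fin 10) (u : Vec 10) : dv i.castSucc u = |dt (u i.castSucc) (u i.succ)| := by
  unfold dv
  rw [if_neg (mb4_cs i), mb4_dl, mb4_r0, mb4_r1]

theorem mb4_dvd {p : Prm 10} {C1 : ℝ} {X : ℕ} (i : Fin 10) {s : (ℤ × ℤ × ℤ) × Vec 10}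
    (h : TT p C1 X s) :
    dt (s.2 i.castSucc) (s.2 i.succ) ∣ fv s.1 (s.2 i.castSucc) ∧
      dt (s.2 i.castSucc) (s.2 i.succ) ∣ fv s.1 (s.2 i.succ) := by
  have h1 := mb4_gd h i
  rw [mb4_dE] at h1
  exact ⟨Int.natAbs_dvd.1 h1.1, Int.natAbs_dvd.1 h1.2⟩

theorem mb4_dvb {p : Prm 10} {C1 : ℝ} {X : ℕ} (i : Fin 10) {s : (ℤ × ℤ × ℤ) × Vec 10}
    (h : TT p C1 X s) :
    dt (s.2 i.castSucc) (s.2 i.succ) ∣
      bf s.1.1 s.1.2.1 s.1.2.2 (s.2 i.castSucc) (s.2 i.succ) := by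
  obtain ⟨h1, h2⟩ := mb4_dvd i h
  obtain ⟨n, hn⟩ := edge_exists (mb4_disc h) h1 h2
  exact ⟨n, by rw [hn]; ring⟩

/-- BLOCK MB4 (uses MB1): the base forms (exact quotients: `edge_exists` of `AQ/Base`; `j = 10`: no quotient). -/
theorem RB_mul_pr {p : Prm 10} {C1 : ℝ} {X : ℕ} (j : Fin 11) {s : (ℤ × ℤ × ℤ) × Vec 10}
    (h : TT p C1 X s) :
    0 < dv j s.2 ∧
    (RB j s.1 s.2).1 * dv j s.2 = fv s.1 (rt j s.2 0) ∧
    (RB j s.1 s.2).2.1 * dv j s.2 = bf s.1.1 s.1.2.1 s.1.2.2 (rt j s.2 0) (rt j s.2 1) ∧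
    (RB j s.1 s.2).2.2 * dv j s.2 = fv s.1 (rt j s.2 1) := by
  rcases mb4_cases j with hj | ⟨i, hi⟩
  · subst hj
    have e : dv 10 s.2 = 1 := if_pos rfl
    unfold RB
    simp only [e, Int.ediv_one, mul_one]
    exact ⟨one_pos, trivial, trivial, trivial⟩
  · subst hi
    unfold RB
    rw [mb4_dv, mb4_r0, mb4_r1]
    exact ⟨abs_pos.2 (mb4_one h.gp i),
      Int.ediv_mul_cancel ((abs_dvd _ _).2 (mb4_dvd i h).1),
      Int.ediv_mul_cancel ((abs_dvd _ _).2 (mb4_dvb i h)),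
      Int.ediv_mul_cancel ((abs_dvd _ _).2 (mb4_dvd i h).2)⟩

/-- `ec * dv` is the square of the determinant of the frame -/
theorem mb4_ec {p : Prm 10} {X : ℕ} (j : Fin 11) {u : Vec 10} (h : GP p X u) :
    ec j u * dv j u = dt (rt j u 0) (rt j u 1) * dt (rt j u 0) (rt j u 1) := by
  rcases mb4_cases j with hj | ⟨i, hi⟩
  · subst hj
    have e : dv 10 u = 1 := if_pos rfl
    have e' : ec 10 u = z.2 ^ 2 := if_pos rfl
    rw [e, e', mb4_dt10 h]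
    ring
  · subst hi
    unfold ec dv
    rw [if_neg (mb4_cs i), if_neg (mb4_cs i), abs_mul_abs_self, mb4_dl]

theorem mb4_DJ {p : Prm 10} {X : ℕ} (j : Fin 11) {u : Vec 10} (h : GP p X u) :
    DJ j * (dv j u * dv j u) = D * dt (rt j u 0) (rt j u 1) ^ 2 := by
  rcases mb4_cases j with hj | ⟨i, hi⟩
  · subst hj
    have e : dv 10 u = 1 := if_pos rfl
    have e' : DJ 10 = D * z.2 ^ 2 := if_pos rfl
    rw [e, e', mb4_dt10 h]
    ring
  · subst hi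
    unfold DJ dv
    rw [if_neg (mb4_cs i), if_neg (mb4_cs i), abs_mul_abs_self, mb4_dl]
    ring

theorem RB_cv_pr {p : Prm 10} {C1 : ℝ} {X : ℕ} (j : Fin 11) {s : (ℤ × ℤ × ℤ) × Vec 10}
    (h : TT p C1 X s) (k : Fin 11) :
    PENK.Rf (RB j s.1 s.2) (PENK.cv (rt j s.2) k) = ec j s.2 * fv s.1 (rt j s.2 k) := by
  obtain ⟨hD, e1, e3, e2⟩ := RB_mul_pr j h
  have e4 := mb4_ec j h.gp
  generalize dv j s.2 = E at *
  generalize RB j s.1 s.2 = Q at *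
  apply mul_left_cancel₀ hD.ne'
  have key : fv s.1 (rt j s.2 0) * dt (rt j s.2 k) (rt j s.2 1) ^ 2 +
      2 * bf s.1.1 s.1.2.1 s.1.2.2 (rt j s.2 0) (rt j s.2 1) * dt (rt j s.2 k) (rt j s.2 1) *
        dt (rt j s.2 0) (rt j s.2 k) +
      fv s.1 (rt j s.2 1) * dt (rt j s.2 0) (rt j s.2 k) ^ 2 =
      dt (rt j s.2 0) (rt j s.2 1) * dt (rt j s.2 0) (rt j s.2 1) * fv s.1 (rt j s.2 k) := by
    unfold fv qf bf dt
    ring
  rw [← mul_assoc, mul_comm E (ec j s.2), e4, ← key]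
  unfold PENK.Rf PENK.cv qf
  simp only
  linear_combination dt (rt j s.2 k) (rt j s.2 1) ^ 2 * e1 +
    dt (rt j s.2 0) (rt j s.2 k) ^ 2 * e2 +
    2 * dt (rt j s.2 k) (rt j s.2 1) * dt (rt j s.2 0) (rt j s.2 k) * e3

/-- the determinant of the base -/
theorem RB_disc_pr {p : Prm 10} {C1 : ℝ} {X : ℕ} (j : Fin 11) {s : (ℤ × ℤ × ℤ) × Vec 10}
    (h : TT p C1 X s) :
    (RB j s.1 s.2).1 * (RB j s.1 s.2).2.2 - (RB j s.1 s.2).2.1 ^ 2 = DJ j := by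
  obtain ⟨hD, e1, e3, e2⟩ := RB_mul_pr j h
  have e4 := mb4_DJ j h.gp
  have e5 := qf_mul_qf (mb4_disc h) (rt j s.2 0) (rt j s.2 1)
  have e6 : fv s.1 (rt j s.2 0) * fv s.1 (rt j s.2 1) =
      bf s.1.1 s.1.2.1 s.1.2.2 (rt j s.2 0) (rt j s.2 1) ^ 2 +
        D * dt (rt j s.2 0) (rt j s.2 1) ^ 2 := e5
  rw [← e1, ← e2, ← e3, ← e4] at e6
  have hE : dv j s.2 * dv j s.2 ≠ 0 := mul_ne_zero hD.ne' hD.ne'
  apply mul_right_cancel₀ hE
  linear_combination e6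

theorem RB_inj_pr {p : Prm 10} {C1 : ℝ} {X : ℕ} (j : Fin 11) {s s' : (ℤ × ℤ × ℤ) × Vec 10}
    (h : TT p C1 X s) (h' : TT p C1 X s') (hR : bT j s' = bT j s)
    (hu : rt j s'.2 = rt j s.2) : s' = s := by
  have eu : s'.2 = s.2 := by
    funext i
    have := congrFun hu (i - j)
    unfold rt at this
    rwa [sub_add_cancel] at this
  obtain ⟨hD, eg, en, eg'⟩ := RB_mul_pr j h
  obtain ⟨hD', fg, fn, fg'⟩ := RB_mul_pr j h'
  have hR' : RB j s'.1 s'.2 = RB j s.1 s.2 := hR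
  rw [hR', eu] at fg fg' fn
  rw [eg] at fg
  rw [eg'] at fg'
  rw [en] at fn
  have hne : dt (rt j s.2 0) (rt j s.2 1) ≠ 0 := mb4_ne h.gp j
  have hne2 := pow_ne_zero 2 hne
  generalize rt j s.2 0 = u at *
  generalize rt j s.2 1 = v at *
  unfold fv qf at fg fg'
  unfold bf at fn
  have ea : s'.1.1 = s.1.1 := by
    apply mul_left_cancel₀ hne2
    unfold dt
    linear_combination (-v.2 ^ 2) * fg + 2 * v.2 * u.2 * fn - u.2 ^ 2 * fg'
  have ec : s'.1.2.2 = s.1.2.2 := by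
    apply mul_left_cancel₀ hne2
    unfold dt
    linear_combination (-v.1 ^ 2) * fg + 2 * v.1 * u.1 * fn - u.1 ^ 2 * fg'
  have eb : s'.1.2.1 = s.1.2.1 := by
    apply mul_left_cancel₀ hne2
    unfold dt
    linear_combination (v.1 * v.2) * fg - (v.1 * u.2 + v.2 * u.1) * fn + (u.1 * u.2) * fg'
  exact Prod.ext (Prod.ext ea (Prod.ext eb ec)) eu

theorem mb4_ten {p : Prm 10} {C1 : ℝ} {X : ℕ} {s : (ℤ × ℤ × ℤ) × Vec 10} (h : TT p C1 X s) :
    bT 10 s = (s.1.1 * z.1 ^ 2 + 2 * s.1.2.1 * z.1 * z.2 + s.1.2.2 * z.2 ^ 2,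
      s.1.1 * z.1 + s.1.2.1 * z.2, s.1.1) := by
  have e : dv 10 s.2 = 1 := if_pos rfl
  unfold bT RB
  rw [e, mb4_t0 h.gp, mb4_t1 h.gp]
  simp only [Int.ediv_one]
  unfold fv qf bf
  simp

/-- `j = 10`: the base determines the form, and conversely -/
theorem RB_ten_pr {p : Prm 10} {C1 : ℝ} {X : ℕ} {s s' : (ℤ × ℤ × ℤ) × Vec 10} (h : TT p C1 X s)
    (h' : TT p C1 X s') : bT 10 s' = bT 10 s ↔ s'.1 = s.1 := by
  rw [mb4_ten h, mb4_ten h']
  constructor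
  · intro hE
    rw [Prod.mk.injEq, Prod.mk.injEq] at hE
    obtain ⟨e1, e2, e3⟩ := hE
    have hz : z.2 ≠ 0 := z_two.ne'
    have eb : s'.1.2.1 = s.1.2.1 := by
      apply mul_right_cancel₀ hz
      rw [e3] at e2
      linear_combination e2
    have ec : s'.1.2.2 = s.1.2.2 := by
      apply mul_right_cancel₀ (pow_ne_zero 2 hz)
      rw [e3, eb] at e1
      linear_combination e1
    exact Prod.ext e3 (Prod.ext eb ec)
  · intro hE
    rw [hE]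

theorem RB_nj_pr {p : Prm 10} {C1 : ℝ} {X : ℕ} (j : Fin 10) {s : (ℤ × ℤ × ℤ) × Vec 10}
    (h : TT p C1 X s) : (bT j.castSucc s).2.1.natAbs = nj s.1 s.2 j := by
  unfold bT RB nj
  simp only
  rw [mb4_dv, mb4_r0, mb4_r1]
  rcases abs_choice (dt (s.2 j.castSucc) (s.2 j.succ)) with h1 | h1 <;> rw [h1]
  rw [Int.ediv_neg, Int.natAbs_neg]

end Pool.Agent.AQ.PENM

namespace Pool.Agent.AQ.PENM

open Finset Pool.Agent.PENT Pool.Agent.AQ.NC

variable [Cst]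

theorem RB_mul : type_of% @RB_mul_pr := @RB_mul_pr

theorem RB_cv : type_of% @RB_cv_pr := @RB_cv_pr

theorem RB_disc : type_of% @RB_disc_pr := @RB_disc_pr

theorem RB_inj : type_of% @RB_inj_pr := @RB_inj_pr

theorem RB_ten : type_of% @RB_ten_pr := @RB_ten_pr

theorem RB_nj : type_of% @RB_nj_pr := @RB_nj_pr

end Pool.Agent.AQ.PENM
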