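import Pool.Agent.Lib_helper18.AQ.M.Defs
import Pool.Agent.Lib_helper18.AQ.MF.MA1
import Pool.Agent.Lib_helper18.AQ.MF.MB1
import Pool.Agent.Lib_helper18.AQ.MF.MB4

/-! Block `MB5` (AQK), helper84. -/

set_option autoImplicit false

namespace Pool.Agent.AQ.PENM

open Finset Pool.Agent.PENT Pool.Agent.AQ.NC

variable [Cst]

theorem mb5_nr {p : Prm 10} {X : ℕ} {u : Vec 10} (h : GP p X u) (i : Fin 11) :
    ((PENK.nr (u i) : ℕ) : ℤ) = nm (u i) := by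
  obtain ⟨h1, h2, _⟩ := fn_coord h i
  unfold PENK.nr nm
  omega

theorem mb5_dt (a b : ℤ × ℤ) : dt a b = - dt b a := by
  unfold dt
  ring

/-- separation in both orders -/
theorem mb5_sep {p : Prm 10} {X : ℕ} {u : Vec 10} (h : GP p X u) {i l : Fin 11} (hil : i ≠ l) :
    p.c1 * ((nm (u i) : ℝ) * (nm (u l) : ℝ)) ≤ ((|dt (u i) (u l)| : ℤ) : ℝ) := by
  have key : ∀ a b : Fin 11, a < b →
      p.c1 * ((nm (u a) : ℝ) * (nm (u b) : ℝ)) ≤ ((|dt (u a) (u b)| : ℤ) : ℝ) := by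
    intro a b hab
    refine (h.sep a b hab).trans ?_
    rw [Int.cast_abs]
    unfold sgn
    split_ifs
    · rw [neg_one_mul]
      exact neg_le_abs _
    · rw [one_mul]
      exact le_abs_self _
  rcases lt_or_gt_of_ne hil with h1 | h1
  · exact key i l h1
  · have h2 := key l i h1
    rw [mb5_dt (u i) (u l), abs_neg, mul_comm ((nm (u i) : ℝ)) (nm (u l) : ℝ)]
    exact h2

theorem mb5_dup {p : Prm 10} {X : ℕ} {u : Vec 10} (h : GP p X u) (i l : Fin 11) :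
    |dt (u i) (u l)| ≤ nm (u i) * nm (u l) := by
  obtain ⟨h1, h2, _⟩ := fn_coord h i
  obtain ⟨h3, h4, _⟩ := fn_coord h l
  unfold dt nm
  rw [abs_le]
  constructor <;>
    nlinarith [mul_nonneg h1 h3, mul_nonneg h1 h4, mul_nonneg h2 h3, mul_nonneg h2 h4]

/-- the edges divide the values of the form -/
theorem mb5_dvd {p : Prm 10} {C1 : ℝ} {X : ℕ} (j : Fin 11) {s : (ℤ × ℤ × ℤ) × Vec 10}
    (h : TT p C1 X s) (i : Fin 11) :
    ((PENK.dn (mM j) (rt j s.2) i : ℕ) : ℤ) ∣ fv s.1 (rt j s.2 i) ∧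
      ((PENK.dn (mM j) (rt j s.2) i : ℕ) : ℤ) ∣ fv s.1 (rt j s.2 (i + 1)) := by
  rw [dn_rt h.gp j i]
  by_cases hi : i + j = 10
  · rw [if_pos hi]
    exact ⟨one_dvd _, one_dvd _⟩
  · rw [if_neg hi]
    have hlt : (i + j).val < 10 := by
      have h1 := (i + j).isLt
      have h2 : (i + j).val ≠ 10 := fun e => hi (Fin.ext e)
      omega
    have hg := h.gd ⟨(i + j).val, hlt⟩
    have e1 : (⟨(i + j).val, hlt⟩ : Fin 10).castSucc = i + j := Fin.ext rfl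
    have e2 : (⟨(i + j).val, hlt⟩ : Fin 10).succ = i + 1 + j := by
      have e3 : i + 1 + j = (i + j) + 1 := add_right_comm i 1 j
      rw [e3]
      apply Fin.ext
      rw [Fin.val_succ, Fin.val_add_one_of_lt]
      exact Fin.lt_def.2 (by simpa using hlt)
    rw [e1, e2] at hg
    exact hg

/-- different edges are coprime -/
theorem mb5_cop {p : Prm 10} {X : ℕ} {u : Vec 10} (h : GP p X u) (j : Fin 11) {i l : Fin 11}
    (hil : i ≠ l) : Nat.Coprime (PENK.dn (mM j) (rt j u) i) (PENK.dn (mM j) (rt j u) l) := by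
  rw [dn_rt h j i, dn_rt h j l]
  split_ifs with h1 h2 h2
  · exact Nat.coprime_one_left _
  · exact Nat.coprime_one_left _
  · exact Nat.coprime_one_right _
  · have g1 : (i + j).val ≤ 9 := by
      have h3 := (i + j).isLt
      have h4 : (i + j).val ≠ 10 := fun e => h1 (Fin.ext e)
      omega
    have g2 : (l + j).val ≤ 9 := by
      have h3 := (l + j).isLt
      have h4 : (l + j).val ≠ 10 := fun e => h2 (Fin.ext e)
      omega
    have g3 : (i + j).val ≠ (l + j).val := by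
      intro e
      exact hil (add_right_cancel (Fin.ext e))
    rcases lt_or_gt_of_ne g3 with g | g
    · exact h.cop _ _ (by omega) (by omega) (by omega)
    · exact (h.cop _ _ (by omega) (by omega) (by omega)).symm

theorem mb5_mM {j : Fin 11} (hj : j ≠ 10) : (0 : Fin 11) ≠ mM j := by
  revert hj
  unfold mM
  revert j
  decide

/-- the divisor is the edge `0` -/
theorem mb5_dv {p : Prm 10} {X : ℕ} {u : Vec 10} (h : GP p X u) (j : Fin 11) :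
    dv j u = ((PENK.dn (mM j) (rt j u) 0 : ℕ) : ℤ) := by
  unfold dv
  by_cases hj : j = 10
  · rw [if_pos hj, dn_rt h j 0, if_pos (by rw [zero_add]; exact hj)]
    rfl
  · rw [if_neg hj, PENK.dn_ne _ (mb5_mM hj), Int.natCast_natAbs]

theorem mb5_icop {p : Prm 10} {X : ℕ} {u : Vec 10} (h : GP p X u) (j : Fin 11) {i : Fin 11}
    (hi : i ≠ 0) : IsCoprime ((PENK.dn (mM j) (rt j u) i : ℕ) : ℤ) (dv j u) := by
  rw [mb5_dv h j]
  exact Nat.isCoprime_iff_coprime.2 (mb5_cop h j hi)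

/-- `dv` divides `ec` -/
theorem mb5_ec {p : Prm 10} {X : ℕ} {u : Vec 10} (h : GP p X u) (j : Fin 11) :
    ((PENK.dn (mM j) (rt j u) 0 : ℕ) : ℤ) ∣ ec j u := by
  rw [← mb5_dv h j]
  unfold dv ec
  split_ifs
  · exact one_dvd _
  · exact dvd_rfl

/-- the size of `dv` -/
theorem mb5_dvs {p : Prm 10} (hc1 : p.c1 ≤ 1) {X : ℕ} {u : Vec 10}
    (h : GP p X u) (j : Fin 11) :
    p.c1 * ((nm (rt j u 0) : ℝ) * (nm (rt j u 1) : ℝ)) ≤ (nm z : ℝ) * ((dv j u : ℤ) : ℝ) ∧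
      ((dv j u : ℤ) : ℝ) ≤ (nm (rt j u 0) : ℝ) * (nm (rt j u 1) : ℝ) := by
  have hz : (1 : ℝ) ≤ (nm z : ℝ) := by exact_mod_cast ma1_z
  unfold dv
  by_cases hj : j = 10
  · rw [if_pos hj]
    subst hj
    have e1 : rt 10 u 0 = z := h.last
    have e2 : rt 10 u 1 = (1, 0) := h.first
    rw [e1, e2]
    have e3 : nm ((1, 0) : ℤ × ℤ) = 1 := rfl
    rw [e3]
    push_cast
    constructor
    · nlinarith
    · linarith
  · rw [if_neg hj]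
    have hne : (0 : Fin 11) + j ≠ 1 + j := by
      intro e
      exact absurd (add_right_cancel e) (by decide)
    have h1 := mb5_sep h hne
    have h2 : ((|dt (u (0 + j)) (u (1 + j))| : ℤ) : ℝ) ≤
        (nm (u (0 + j)) : ℝ) * (nm (u (1 + j)) : ℝ) := by
      exact_mod_cast mb5_dup h (0 + j) (1 + j)
    have ed : PENK.dl (rt j u) 0 = dt (u (0 + j)) (u (1 + j)) := rfl
    rw [ed]
    refine ⟨h1.trans ?_, h2⟩
    have h3 : (0 : ℝ) ≤ ((|dt (u (0 + j)) (u (1 + j))| : ℤ) : ℝ) := by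
      exact_mod_cast abs_nonneg _
    exact le_mul_of_one_le_left h3 hz

/-- BLOCK MB5 (uses MA1, MB1, MB4): the base is good, with the sizes (`TT.fvb`, `TT.bfb` of MB1).
`d_(-1) ∣ R.1`: `d_(j-1), d_j ∣ Q(u_j)` coprime (the open edge has `dn = 1`); `0 < R.2.1`. -/
theorem over_of_pr {p : Prm 10} {τ δ C1 : ℝ} (hp : p.Ok τ) (hτ : τ ≤ 1 / 1000) (hC1 : 1 ≤ C1) :
    ∃ X₀ : ℕ, 1 ≤ X₀ ∧ ∀ X ≥ X₀, ∀ (j : Fin 11) (s : (ℤ × ℤ × ℤ) × Vec 10), TT p C1 X s →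
    OverJ j (qM p δ C1 j) X (bT j s) (rt j s.2) ∧ 0 < (bT j s).2.1 := by
  have hc := hp.c10
  have hc1 : p.c1 ≤ 1 / 1000 := hp.c11.trans hτ
  refine ⟨⌈2 * |(D : ℝ)| / p.c1 ^ 2⌉₊ + ⌈|(D : ℝ)|⌉₊ + 1, by omega, ?_⟩
  intro X hX j s h
  have hXr : ((⌈2 * |(D : ℝ)| / p.c1 ^ 2⌉₊ + ⌈|(D : ℝ)|⌉₊ + 1 : ℕ) : ℝ) ≤ (X : ℝ) := by
    exact_mod_cast hX
  push_cast at hXr
  have t0 := Nat.le_ceil (2 * |(D : ℝ)| / p.c1 ^ 2)
  have t1 := Nat.le_ceil (|(D : ℝ)|)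
  have t2 : (0 : ℝ) ≤ (⌈|(D : ℝ)|⌉₊ : ℝ) := Nat.cast_nonneg _
  have t3 : (0 : ℝ) ≤ (⌈2 * |(D : ℝ)| / p.c1 ^ 2⌉₊ : ℝ) := Nat.cast_nonneg _
  have hX1 : |(D : ℝ)| ≤ X := by linarith
  have hXp : (0 : ℝ) < X := by linarith
  have hcc : 0 < p.c1 ^ 2 := by positivity
  have hX2 : 2 * |(D : ℝ)| < p.c1 ^ 2 * X := by
    have t4 : 2 * |(D : ℝ)| / p.c1 ^ 2 < X := by linarith
    have t5 := (div_lt_iff₀ hcc).1 t4
    linarith
  obtain ⟨hD, eg, en, eg'⟩ := RB_mul j h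
  have hz : (1 : ℝ) ≤ (nm z : ℝ) := by exact_mod_cast ma1_z
  obtain ⟨rdl, rdu⟩ := mb5_dvs (by linarith) h.gp j
  obtain ⟨fl, fu⟩ := h.fvb hc hX2 hX1 (0 + j)
  obtain ⟨bp, bu⟩ := h.bfb hc hX2 hX1 (0 + j) (1 + j)
  have er0 : rt j s.2 0 = s.2 (0 + j) := rfl
  have er1 : rt j s.2 1 = s.2 (1 + j) := rfl
  rw [← er0] at fl fu bp bu
  rw [← er1] at bp bu
  have p0 : (1 : ℝ) ≤ (nm (rt j s.2 0) : ℝ) := by
    have := (fn_coord h.gp (0 + j)).2.2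
    rw [← er0] at this
    exact_mod_cast this
  have p1 : (1 : ℝ) ≤ (nm (rt j s.2 1) : ℝ) := by
    have := (fn_coord h.gp (1 + j)).2.2
    rw [← er1] at this
    exact_mod_cast this
  have hN0 : ((PENK.nr (rt j s.2 0) : ℕ) : ℝ) = (nm (rt j s.2 0) : ℝ) := by
    exact_mod_cast mb5_nr h.gp (0 + j)
  have hN1 : ((PENK.nr (rt j s.2 1) : ℕ) : ℝ) = (nm (rt j s.2 1) : ℝ) := by
    exact_mod_cast mb5_nr h.gp (1 + j)
  have hDr : (0 : ℝ) < ((dv j s.2 : ℤ) : ℝ) := by exact_mod_cast hD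
  have rg : ((RB j s.1 s.2).1 : ℝ) * ((dv j s.2 : ℤ) : ℝ) = (fv s.1 (rt j s.2 0) : ℝ) := by
    exact_mod_cast eg
  have rn : ((RB j s.1 s.2).2.1 : ℝ) * ((dv j s.2 : ℤ) : ℝ) =
      (bf s.1.1 s.1.2.1 s.1.2.2 (rt j s.2 0) (rt j s.2 1) : ℝ) := by exact_mod_cast en
  set N0 : ℝ := (nm (rt j s.2 0) : ℝ) with hN0d
  set N1 : ℝ := (nm (rt j s.2 1) : ℝ) with hN1d
  set dd : ℝ := ((dv j s.2 : ℤ) : ℝ) with hdd
  set Z : ℝ := (nm z : ℝ) with hZ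
  have q0 : 0 < N0 := by linarith
  have q1 : 0 < N1 := by linarith
  have hfpos : (0 : ℝ) < (fv s.1 (rt j s.2 0) : ℝ) := by
    have t : 0 < p.c1 ^ 2 * (X : ℝ) * N0 ^ 2 := by positivity
    linarith
  have rgp : (0 : ℝ) < ((RB j s.1 s.2).1 : ℝ) := by
    rw [← rg] at hfpos
    exact (mul_pos_iff_of_pos_right hDr).1 hfpos
  have hgpos : 0 < (RB j s.1 s.2).1 := by exact_mod_cast rgp
  have hnpos : 0 < (RB j s.1 s.2).2.1 := by
    rw [← en] at bp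
    exact (mul_pos_iff_of_pos_right hD).1 bp
  have hCd : (qM p δ C1 j).C4 = 1000 * C1 ^ 4 * Z / p.c1 ^ 2 := rfl
  have hC4 : 1 ≤ C1 ^ 4 := one_le_pow₀ hC1
  have hC14 : C1 ≤ C1 ^ 4 := by
    calc C1 = C1 ^ 1 := (pow_one _).symm
      _ ≤ C1 ^ 4 := pow_le_pow_right₀ hC1 (by norm_num)
  have hCZ : C1 ^ 4 ≤ C1 ^ 4 * Z := le_mul_of_one_le_right (by linarith) hz
  -- the constant
  have k1 : 2 / p.c1 ^ 2 ≤ 1000 * C1 ^ 4 * Z / p.c1 ^ 2 :=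
    div_le_div_of_nonneg_right (by linarith) hcc.le
  have k2 : (C1 + 1) * Z / p.c1 ≤ 1000 * C1 ^ 4 * Z / p.c1 ^ 2 := by
    rw [div_le_div_iff₀ hc hcc]
    have a1 : (C1 + 1) * Z ≤ 1000 * C1 ^ 4 * Z := by
      apply mul_le_mul_of_nonneg_right _ (by linarith)
      linarith
    have a2 : p.c1 ^ 2 ≤ p.c1 := by nlinarith
    calc (C1 + 1) * Z * p.c1 ^ 2 ≤ 1000 * C1 ^ 4 * Z * p.c1 ^ 2 :=
          mul_le_mul_of_nonneg_right a1 hcc.le
      _ ≤ 1000 * C1 ^ 4 * Z * p.c1 := mul_le_mul_of_nonneg_left a2 (by positivity)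
  let _ : PENK.FD := fd j
  refine ⟨⟨?_, hgpos, ?_, ?_, ?_, ?_, ?_, ?_, ?_⟩, hnpos⟩
  · -- disc
    exact RB_disc j h
  · -- dm
    have h1 := (mb5_dvd j h (-1)).2
    have e1 : (-1 : Fin 11) + 1 = 0 := by decide
    rw [e1, ← eg] at h1
    exact (mb5_icop h.gp j (by decide : (-1 : Fin 11) ≠ 0)).dvd_of_dvd_mul_right h1
  · -- d1
    have h1 := (mb5_dvd j h 1).1
    rw [← eg'] at h1
    exact (mb5_icop h.gp j (by decide : (1 : Fin 11) ≠ 0)).dvd_of_dvd_mul_right h1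
  · -- d0
    have e1 : bT j s = RB j s.1 s.2 := rfl
    rw [e1, RB_cv j h 2]
    exact Dvd.dvd.mul_right (mb5_ec h.gp j) _
  · -- dj
    intro i _ _
    have e1 : bT j s = RB j s.1 s.2 := rfl
    rw [e1, RB_cv j h i]
    exact Dvd.dvd.mul_left (mb5_dvd j h i).1 _
  · -- g1
    rw [hCd, hN0, hN1]
    change (X : ℝ) * N0 ≤ 1000 * C1 ^ 4 * Z / p.c1 ^ 2 * ((RB j s.1 s.2).1 : ℝ) * N1
    have a1 : p.c1 ^ 2 * X * N0 ^ 2 ≤ 2 * (((RB j s.1 s.2).1 : ℝ) * (N0 * N1)) := by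
      calc p.c1 ^ 2 * X * N0 ^ 2 ≤ 2 * (fv s.1 (rt j s.2 0) : ℝ) := fl
        _ = 2 * (((RB j s.1 s.2).1 : ℝ) * dd) := by rw [rg]
        _ ≤ _ := by
          apply mul_le_mul_of_nonneg_left _ (by norm_num)
          exact mul_le_mul_of_nonneg_left rdu rgp.le
    have a2 : p.c1 ^ 2 * X * N0 ≤ 2 * (((RB j s.1 s.2).1 : ℝ) * N1) := by
      refine le_of_mul_le_mul_right ?_ q0
      calc p.c1 ^ 2 * X * N0 * N0 = p.c1 ^ 2 * X * N0 ^ 2 := by ring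
        _ ≤ _ := a1
        _ = _ := by ring
    have a3 : 0 < ((RB j s.1 s.2).1 : ℝ) * N1 := mul_pos rgp q1
    calc (X : ℝ) * N0 ≤ 2 / p.c1 ^ 2 * (((RB j s.1 s.2).1 : ℝ) * N1) := by
          rw [div_mul_eq_mul_div, le_div_iff₀ hcc]
          linarith
      _ ≤ (1000 * C1 ^ 4 * Z / p.c1 ^ 2) * (((RB j s.1 s.2).1 : ℝ) * N1) :=
          mul_le_mul_of_nonneg_right k1 a3.le
      _ = _ := by ring
  · -- g2
    rw [hCd, hN0, hN1]
    change ((RB j s.1 s.2).1 : ℝ) * N1 ≤ 1000 * C1 ^ 4 * Z / p.c1 ^ 2 * X * N0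
    have a1 : p.c1 * (N0 * N1) * ((RB j s.1 s.2).1 : ℝ) ≤ Z * ((C1 + 1) * X * N0 ^ 2) := by
      calc _ ≤ Z * dd * ((RB j s.1 s.2).1 : ℝ) := mul_le_mul_of_nonneg_right rdl rgp.le
        _ = Z * (fv s.1 (rt j s.2 0) : ℝ) := by rw [← rg]; ring
        _ ≤ _ := mul_le_mul_of_nonneg_left fu (by linarith)
    have a2 : p.c1 * (((RB j s.1 s.2).1 : ℝ) * N1) ≤ Z * ((C1 + 1) * X * N0) := by
      refine le_of_mul_le_mul_right ?_ q0
      calc _ = p.c1 * (N0 * N1) * ((RB j s.1 s.2).1 : ℝ) := by ring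
        _ ≤ _ := a1
        _ = _ := by ring
    have a3 : ((RB j s.1 s.2).1 : ℝ) * N1 ≤ (C1 + 1) * Z / p.c1 * (X * N0) := by
      rw [div_mul_eq_mul_div, le_div_iff₀ hc]
      linarith
    refine a3.trans ?_
    calc (C1 + 1) * Z / p.c1 * (X * N0) ≤ 1000 * C1 ^ 4 * Z / p.c1 ^ 2 * (X * N0) :=
          mul_le_mul_of_nonneg_right k2 (by positivity)
      _ = _ := by ring
  · -- n1
    rw [hCd]
    change |((RB j s.1 s.2).2.1 : ℝ)| ≤ 1000 * C1 ^ 4 * Z / p.c1 ^ 2 * X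
    have hnr : (0 : ℝ) < ((RB j s.1 s.2).2.1 : ℝ) := by exact_mod_cast hnpos
    rw [abs_of_pos hnr]
    have hM : 0 < N0 * N1 := mul_pos q0 q1
    have a1 : (p.c1 * ((RB j s.1 s.2).2.1 : ℝ)) * (N0 * N1) ≤ (Z * ((C1 + 1) * X)) * (N0 * N1) := by
      calc _ = p.c1 * (N0 * N1) * ((RB j s.1 s.2).2.1 : ℝ) := by ring
        _ ≤ Z * dd * ((RB j s.1 s.2).2.1 : ℝ) := mul_le_mul_of_nonneg_right rdl hnr.le
        _ = Z * (bf s.1.1 s.1.2.1 s.1.2.2 (rt j s.2 0) (rt j s.2 1) : ℝ) := by rw [← rn]; ring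
        _ ≤ Z * ((C1 + 1) * X * (N0 * N1)) := mul_le_mul_of_nonneg_left bu (by linarith)
        _ = _ := by ring
    have a2 : p.c1 * ((RB j s.1 s.2).2.1 : ℝ) ≤ Z * ((C1 + 1) * X) := le_of_mul_le_mul_right a1 hM
    have a3 : ((RB j s.1 s.2).2.1 : ℝ) ≤ (C1 + 1) * Z / p.c1 * X := by
      rw [div_mul_eq_mul_div, le_div_iff₀ hc]
      linarith
    refine a3.trans ?_
    exact mul_le_mul_of_nonneg_right k2 hXp.le

end Pool.Agent.AQ.PENM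

namespace Pool.Agent.AQ.PENM

open Finset Pool.Agent.PENT Pool.Agent.AQ.NC

variable [Cst]

theorem over_of : type_of% @over_of_pr := @over_of_pr

end Pool.Agent.AQ.PENM
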