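import Pool.Agent.Lib_helper18.AQ.M.Defs
import Pool.Agent.Lib_helper97.PENT.T4L
import Pool.Agent.Lib_helper18.AQ.MF.MA1
import Pool.Agent.Lib_helper18.AQ.MF.MA4
import Pool.Agent.Lib_helper18.AQ.MF.MB1
import Pool.Agent.Lib_helper18.AQ.MF.MB4
import Pool.Agent.Lib_helper18.AQ.MF.MB5

/-! Block MC2 (project AQK; helper54, port of helper8's block MC2 of PENM, itself a port of helper53's T4L) -/

set_option autoImplicit false

namespace Pool.Agent.AQ.PENM

open Finset Pool.Agent.PENT Pool.Agent.AQ.NC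

variable [Cst]

theorem mc2_cm_nn {g : ℕ → ℝ} (hg : ∀ l, 0 ≤ g l) (m : ℕ) : 0 ≤ cm g m := by
  rw [t4_cm_eq]
  exact Finset.prod_nonneg fun l _ => pow_nonneg (hg l) _

/-- the convolution bound for nonnegative weights -/
theorem mc2_conv {a b : ℕ → ℝ} (ha : ∀ l, 0 ≤ a l) (hb : ∀ l, 0 ≤ b l) (N : ℕ) (hN : N ≠ 0) :
    ∑ g ∈ N.divisors, cm a g * cm b (N / g) ≤ cm (fun l => a l + b l) N := by
  induction N using Nat.strong_induction_on with
  | _ N ih =>
    rcases Nat.eq_or_lt_of_le (Nat.one_le_iff_ne_zero.2 hN) with h1 | h1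
    · rw [← h1]
      simp [t4_cm_one]
    · set l := N.minFac with hl
      have hlp : l.Prime := Nat.minFac_prime h1.ne'
      obtain ⟨M, hM⟩ := N.minFac_dvd
      rw [← hl] at hM
      have hM0 : M ≠ 0 := by rintro rfl; rw [mul_zero] at hM; exact hN hM
      have hl0 : l ≠ 0 := hlp.ne_zero
      have hlt : M < N := by
        rw [hM]
        have := hlp.two_le
        have := Nat.pos_of_ne_zero hM0
        nlinarith
      have hI := ih M hlt hM0
      have hsub : N.divisors ⊆ M.divisors ∪ M.divisors.image (l * ·) := by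
        intro g hg
        rw [Nat.mem_divisors] at hg
        rw [Finset.mem_union, Finset.mem_image]
        by_cases hd : g ∣ M
        · left; exact Nat.mem_divisors.2 ⟨hd, hM0⟩
        · right
          have hlg : l ∣ g := by
            by_contra hcon
            have hc : Nat.Coprime g l := ((Nat.Prime.coprime_iff_not_dvd hlp).2 hcon).symm
            exact hd (hc.dvd_of_dvd_mul_left (hM ▸ hg.1))
          obtain ⟨g', rfl⟩ := hlg
          refine ⟨g', Nat.mem_divisors.2 ⟨?_, hM0⟩, rfl⟩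
          exact Nat.dvd_of_mul_dvd_mul_left (Nat.pos_of_ne_zero hl0) (hM ▸ hg.1)
      have hnn : ∀ g, 0 ≤ cm a g * cm b (N / g) := fun g =>
        mul_nonneg (mc2_cm_nn ha g) (mc2_cm_nn hb _)
      have e1 : ∑ g ∈ M.divisors, cm a g * cm b (N / g) =
          b l * ∑ g ∈ M.divisors, cm a g * cm b (M / g) := by
        rw [Finset.mul_sum]
        refine Finset.sum_congr rfl fun g hg => ?_
        have hgd := Nat.dvd_of_mem_divisors hg
        have hg0 : M / g ≠ 0 := by
          have := Nat.div_pos (Nat.le_of_dvd (Nat.pos_of_ne_zero hM0) hgd)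
            (Nat.pos_of_mem_divisors hg)
          omega
        rw [hM, Nat.mul_div_assoc _ hgd, t4_cm_mul b hl0 hg0, t4_cm_prime b hlp]
        ring
      have e2 : ∑ g ∈ M.divisors.image (l * ·), cm a g * cm b (N / g) =
          a l * ∑ g ∈ M.divisors, cm a g * cm b (M / g) := by
        rw [Finset.sum_image (by
          intro x _ y _ hxy
          exact Nat.eq_of_mul_eq_mul_left (Nat.pos_of_ne_zero hl0) hxy), Finset.mul_sum]
        refine Finset.sum_congr rfl fun g hg => ?_
        have hg0 : g ≠ 0 := (Nat.pos_of_mem_divisors hg).ne'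
        rw [hM, Nat.mul_div_mul_left _ _ (Nat.pos_of_ne_zero hl0), t4_cm_mul a hl0 hg0,
          t4_cm_prime a hlp]
        ring
      calc ∑ g ∈ N.divisors, cm a g * cm b (N / g)
          ≤ ∑ g ∈ M.divisors ∪ M.divisors.image (l * ·), cm a g * cm b (N / g) :=
            Finset.sum_le_sum_of_subset_of_nonneg hsub fun g _ _ => hnn g
        _ ≤ ∑ g ∈ M.divisors, cm a g * cm b (N / g) +
            ∑ g ∈ M.divisors.image (l * ·), cm a g * cm b (N / g) := by
            rw [← Finset.sum_union_inter]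
            have : 0 ≤ ∑ g ∈ M.divisors ∩ M.divisors.image (l * ·), cm a g * cm b (N / g) :=
              Finset.sum_nonneg fun g _ => hnn g
            linarith
        _ = (a l + b l) * ∑ g ∈ M.divisors, cm a g * cm b (M / g) := by rw [e1, e2]; ring
        _ ≤ (a l + b l) * cm (fun l => a l + b l) M :=
            mul_le_mul_of_nonneg_left hI (add_nonneg (ha l) (hb l))
        _ = cm (fun l => a l + b l) N := by
            rw [hM, t4_cm_mul _ hl0 hM0, t4_cm_prime _ hlp]

/-- an odd vertex: its value has no prime factor `l ≤ P`, `l ∤ R` -/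
theorem mc2_odd {p : Prm 10} {C1 : ℝ} {X : ℕ} {s : (ℤ × ℤ × ℤ) × Vec 10} (h : TT p C1 X s)
    (i : Fin 11) (hi : ¬ Even i.val) (hv : fv s.1 (s.2 i) ≠ 0) {l : ℕ} (hl : l.Prime)
    (h2 : ¬ l ∣ R) (hP : (l : ℝ) ≤ PP X) : ¬ l ∣ (fv s.1 (s.2 i)).natAbs := by
  intro hd
  have hgd : GD s.1 s.2 := h.gd
  have hi1 : 1 ≤ i.val := by
    rcases Nat.eq_zero_or_pos i.val with h0 | h0
    · exact absurd (by rw [h0]; exact Even.zero) hi
    · exact h0
  have hi9 : i.val ≤ 9 := by
    have := i.isLt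
    rcases Nat.lt_or_ge i.val 10 with h0 | h0
    · omega
    · have : i.val = 10 := by omega
      exact absurd (by rw [this]; decide) hi
  have hD1 : dE s.2 i.val ∣ (fv s.1 (s.2 i)).natAbs := by
    have := (hgd ⟨i.val - 1, by omega⟩).2
    have e1 : (⟨i.val - 1, by omega⟩ : Fin 10).val + 1 = i.val := by
      show i.val - 1 + 1 = i.val
      omega
    have e2 : (⟨i.val - 1, by omega⟩ : Fin 10).succ = i := by
      apply Fin.ext
      show i.val - 1 + 1 = i.val
      omega
    rw [e1, e2] at this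
    exact Int.natCast_dvd.1 this
  have hD2 : dE s.2 (i.val + 1) ∣ (fv s.1 (s.2 i)).natAbs := by
    have := (hgd ⟨i.val, by omega⟩).1
    have e2 : (⟨i.val, by omega⟩ : Fin 10).castSucc = i := by
      apply Fin.ext
      rfl
    rw [e2] at this
    exact Int.natCast_dvd.1 this
  have hcop := h.gp.cop i.val (i.val + 1) hi1 (Nat.lt_succ_self _) (by omega)
  have hDD : dE s.2 i.val * dE s.2 (i.val + 1) ∣ (fv s.1 (s.2 i)).natAbs :=
    hcop.mul_dvd_of_dvd_of_dvd hD1 hD2
  have hdp : ∀ e, 1 ≤ e → e ≤ 10 → ¬ l ∣ dE s.2 e := by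
    intro e h1 h3 hle
    have := ((h.gp.dp e h1 h3).2 l hl hle).2
    linarith
  have hl3 : l ∣ yv s.1 s.2 i := by
    unfold yv
    obtain ⟨t, ht⟩ := hDD
    have hpos : 0 < dE s.2 i.val * dE s.2 (i.val + 1) := by
      rcases Nat.eq_zero_or_pos (dE s.2 i.val * dE s.2 (i.val + 1)) with h0 | h0
      · rw [h0, zero_mul] at ht
        exact absurd (Int.natAbs_eq_zero.1 ht) hv
      · exact h0
    rw [ht, Nat.mul_div_cancel_left _ hpos]
    rw [ht] at hd
    rcases (Nat.Prime.dvd_mul hl).1 hd with h4 | h4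
    · rcases (Nat.Prime.dvd_mul hl).1 h4 with h5 | h5
      · exact absurd h5 (hdp _ hi1 (by omega))
      · exact absurd h5 (hdp _ (by omega) (by omega))
    · exact h4
  have hy0 : yv s.1 s.2 i ≠ 0 := by
    intro h0
    unfold yv at h0
    obtain ⟨t, ht⟩ := hDD
    have hpos : 0 < dE s.2 i.val * dE s.2 (i.val + 1) := by
      rcases Nat.eq_zero_or_pos (dE s.2 i.val * dE s.2 (i.val + 1)) with h0 | h0
      · rw [h0, zero_mul] at ht
        exact absurd (Int.natAbs_eq_zero.1 ht) hv
      · exact h0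
    rw [ht, Nat.mul_div_cancel_left _ hpos] at h0
    rw [h0, mul_zero] at ht
    exact hv (Int.natAbs_eq_zero.1 ht)
  apply h.w
  unfold W
  rw [if_pos hgd]
  have hyw : yw p X s.1 s.2 = 0 := by
    unfold yw
    apply Finset.prod_eq_zero (mem_univ i)
    rw [t4_cm_eq]
    apply Finset.prod_eq_zero (Nat.mem_primeFactors.2 ⟨hl, hl3, hy0⟩)
    have e : wyV 10 (PP X) (p.Y X) i.val l = 0 := by
      unfold wyV boV
      rw [if_neg h2, if_pos hP, if_neg hi]
    rw [e]
    exact zero_pow (hl.factorization_pos_of_dvd hy0 hl3).ne'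
  rw [hyw, mul_zero]

/-- an even vertex: its value is prime to `R` -/
theorem mc2_even {p : Prm 10} {C1 : ℝ} {X : ℕ} {s : (ℤ × ℤ × ℤ) × Vec 10} (h : TT p C1 X s)
    (i : Fin 11) (hi : Even i.val) {l : ℕ} (hl : l.Prime) (h2 : l ∣ R) :
    ¬ l ∣ (fv s.1 (s.2 i)).natAbs := by
  intro hd
  obtain ⟨-, -, -, k1, k2, k3⟩ := TT.form h
  have hlp : Prime (l : ℤ) := Nat.prime_iff_prime_int.1 hl
  have hlR : (l : ℤ) ∣ (R : ℤ) := Int.natCast_dvd_natCast.2 h2
  have hl0 : (l : ℤ) ∣ a0 := hlR.trans R_dvd_a0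
  have hb : (l : ℤ) ∣ s.1.2.1 := by
    have e1 : (l : ℤ) ∣ s.1.2.1 - b0 := hl0.trans k1
    have e2 : (l : ℤ) ∣ b0 := hlR.trans R_dvd_b0
    have e3 := dvd_add e1 e2
    rwa [sub_add_cancel] at e3
  have hc : (l : ℤ) ∣ s.1.2.2 := hl0.trans k2
  have hf : (l : ℤ) ∣ fv s.1 (s.2 i) := Int.natCast_dvd.2 hd
  have hau : (l : ℤ) ∣ s.1.1 * (s.2 i).1 ^ 2 := by
    have e : s.1.1 * (s.2 i).1 ^ 2 = fv s.1 (s.2 i) -
        (s.1.2.1 * (2 * (s.2 i).1 * (s.2 i).2) + s.1.2.2 * (s.2 i).2 ^ 2) := by
      unfold fv qf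
      ring
    rw [e]
    exact dvd_sub hf (dvd_add (hb.mul_right _) (hc.mul_right _))
  rcases hlp.dvd_or_dvd hau with h3 | h3
  · exact hlp.not_isUnit (k3.isUnit_of_dvd' h3 hlR)
  · exact hlp.not_isUnit ((h.gp.even i hi).isUnit_of_dvd' (hlp.dvd_of_dvd_pow h3) hlR)

theorem mc2_ws_pos {P Y s : ℝ} (hs : 0 < s) (l : ℕ) : 0 < ws P Y s l := by
  unfold ws
  split_ifs
  · exact one_pos
  · exact one_pos
  · exact hs
  · exact one_pos

theorem mc2_N_ne (n : ℕ) : ((n : ℤ) ^ 2 + D).natAbs ≠ 0 := by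
  intro h
  have h1 := Int.natAbs_eq_zero.1 h
  exact D_ns ⟨n, by linarith⟩

/-- BLOCK MC2 (uses MA4, MB1, MB4, MB5): the weights of the base forms over one `n`. A base is `(g, n, g')`,
`g g' = n² + D`, `0 < g, g', n` (MB5), `n ≤ C X`. One of the vertices `j, j+1` is even, one odd. EVEN: its value is
prime to `R` (`(u.1, R) = 1`, `(a, R) = 1`, `R ∣ b`, `R ∣ c`: so `Q(u) ≡ a u.1²`; `GP.even`, `TT.form`). ODD: `W ≠ 0` and
`boV = 0` give: its value has no prime factor `l ≤ P`, `l ∤ R`. So at `l ∣ R` one possibility (all of `l` in the odd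
one), at `l ≤ P`, `l ∤ R` one (all in the even one), weight `1`; `P < l ≤ Y`: `∑_{a+b=v} s_0^a s_1^b ≤ 1`;
`l > Y`: `v + 1 ≤ 2^v`, the sum of these `v` is at most `3/ta`. -/
theorem nu_sum_pr {p : Prm 10} {τ C1 : ℝ} (hp : p.Ok τ) (hτ : τ ≤ 1 / 1000) (hC1 : 1 ≤ C1) :
    ∃ C : ℝ, ∃ X₀ : ℕ, ∀ X ≥ X₀, ∀ j : Fin 11, j ≠ 10 → ∀ n : ℕ,
      ∑ y ∈ ((FT p C1 X).image (bT j)).filter (fun y => y.2.1.natAbs = n), nuM p X j y ≤ C := by
  have hc := hp.c10
  obtain ⟨⟨-, -, hta, -, -, -, -⟩, -⟩ := prm_nums hp hτ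
  obtain ⟨X₁, hX₁, hover⟩ := over_of (δ := 1) hp hτ hC1
  set C4 : ℝ := 1000 * C1 ^ 4 * (nm z : ℝ) / p.c1 ^ 2 with hC4
  set B : ℝ := C4 ^ 2 + |(D : ℝ)| with hB
  have hB0 : 0 ≤ B := by positivity
  refine ⟨(2:ℝ) ^ (3 / p.ta), X₁ + ⌈B⌉₊ + 2, fun X hX j hj n => ?_⟩
  have hXX₁ : X₁ ≤ X := by omega
  have hXR : B + 2 ≤ (X:ℝ) := by
    have h1 := Nat.le_ceil B
    have h2 : ((⌈B⌉₊ + 2 : ℕ) : ℝ) ≤ X := by exact_mod_cast (by omega : ⌈B⌉₊ + 2 ≤ X)
    push_cast at h2
    linarith
  have hX2 : (2:ℝ) ≤ X := by linarith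
  have hlogX : 0 < Real.log X := Real.log_pos (by linarith)
  have hj9 : j.val ≤ 9 := by
    have := j.isLt
    rcases Nat.lt_or_ge j.val 10 with h0 | h0
    · omega
    · exact absurd (Fin.ext (by show j.val = 10; omega)) hj
  obtain ⟨hs0, hs1, hss, -⟩ := WM_s j
  have hss := hss hj
  set S := ((FT p C1 X).image (bT j)).filter (fun y => y.2.1.natAbs = n) with hS
  rcases S.eq_empty_or_nonempty with he | ⟨y₀, hy₀⟩
  · rw [he, Finset.sum_empty]
    positivity
  · have hmem : ∀ y ∈ S, (0 < y.1 ∧ y.2.1 = n ∧ y.1 * y.2.2 = (n : ℤ) ^ 2 + D) ∧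
        (n:ℝ) ≤ C4 * X ∧
        (¬ Even j.val → ∀ l : ℕ, l.Prime → ¬ l ∣ R → (l : ℝ) ≤ PP X → ¬ l ∣ y.1.natAbs) ∧
        (Even j.val → ∀ l : ℕ, l.Prime → ¬ l ∣ R → (l : ℝ) ≤ PP X → ¬ l ∣ y.2.2.natAbs) ∧
        (Even j.val → ∀ l : ℕ, l.Prime → l ∣ R → ¬ l ∣ y.1.natAbs) ∧
        (¬ Even j.val → ∀ l : ℕ, l.Prime → l ∣ R → ¬ l ∣ y.2.2.natAbs) := by
      intro y hy
      rw [hS, Finset.mem_filter, Finset.mem_image] at hy
      obtain ⟨⟨s, hs, rfl⟩, hn⟩ := hy
      have hTT := (mem_FT hc).1 hs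
      obtain ⟨hov, hpos⟩ := hover X hXX₁ j s hTT
      have hdisc := RB_disc j hTT
      have hDJ : DJ j = D := if_neg hj
      rw [hDJ] at hdisc
      change (bT j s).1 * (bT j s).2.2 - (bT j s).2.1 ^ 2 = D at hdisc
      have hg : 0 < (bT j s).1 := by
        letI := fd j
        exact hov.pos
      have hn' : (bT j s).2.1 = (n : ℤ) := by
        rw [← hn]
        exact (Int.natAbs_of_nonneg hpos.le).symm
      obtain ⟨m1, m2, m3, m4⟩ := RB_mul j hTT
      have r0 : rt j s.2 0 = s.2 j := by unfold rt; rw [zero_add]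
      have r1 : rt j s.2 1 = s.2 (1 + j) := rfl
      have hval : (1 + j : Fin 11).val = j.val + 1 := by
        rw [Fin.val_add]
        show (1 + j.val) % 11 = j.val + 1
        omega
      have g0 : (fv s.1 (s.2 j)).natAbs = (bT j s).1.natAbs * (dv j s.2).natAbs := by
        rw [← r0, ← m2, Int.natAbs_mul]
        rfl
      have g1 : (fv s.1 (s.2 (1 + j))).natAbs = (bT j s).2.2.natAbs * (dv j s.2).natAbs := by
        rw [← r1, ← m4, Int.natAbs_mul]
        rfl
      refine ⟨⟨hg, hn', ?_⟩, ?_, ?_, ?_, ?_, ?_⟩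
      · rw [hn'] at hdisc
        linarith
      · have h1 : |((bT j s).2.1 : ℝ)| ≤ (qM p 1 C1 j).C4 * X := by
          letI := fd j
          exact hov.n1
        have h2 : ((bT j s).2.1 : ℝ) = (n : ℝ) := by rw [hn']; exact Int.cast_natCast n
        rw [h2] at h1
        have h3 : (qM p 1 C1 j).C4 = C4 := rfl
        rw [h3] at h1
        exact (le_abs_self _).trans h1
      · intro hev l hl h2 hP hd
        refine mc2_odd hTT j hev (hTT.ne j) hl h2 hP ?_
        rw [g0]
        exact hd.mul_right _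
      · intro hev l hl h2 hP hd
        refine mc2_odd hTT (1 + j) (by rw [hval]; exact Nat.not_even_iff_odd.2 hev.add_one)
          (hTT.ne _) hl h2 hP ?_
        rw [g1]
        exact hd.mul_right _
      · intro hev l hl h2 hd
        refine mc2_even hTT j hev hl h2 ?_
        rw [g0]
        exact hd.mul_right _
      · intro hev l hl h2 hd
        refine mc2_even hTT (1 + j) (by
          rw [hval]; exact (Nat.not_even_iff_odd.1 hev).add_one) hl h2 ?_
        rw [g1]
        exact hd.mul_right _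
    have hnX := (hmem y₀ hy₀).2.1
    set N := ((n : ℤ) ^ 2 + D).natAbs with hN
    have hN0 : N ≠ 0 := mc2_N_ne n
    have hNX : (N:ℝ) ≤ (X:ℝ) ^ 3 := by
      have e0 : (N : ℝ) = |(n : ℝ) ^ 2 + (D : ℝ)| := by
        rw [hN, Nat.cast_natAbs]
        push_cast
        rfl
      have h0 : (N : ℝ) ≤ (n:ℝ) ^ 2 + |(D : ℝ)| := by
        rw [e0]
        refine (abs_add_le _ _).trans ?_
        rw [abs_of_nonneg (sq_nonneg (n : ℝ))]
      have h1 : (n:ℝ) ^ 2 ≤ (C4 * X) ^ 2 := pow_le_pow_left₀ (Nat.cast_nonneg n) hnX 2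
      have h2 : (C4 * (X:ℝ)) ^ 2 = C4 ^ 2 * (X:ℝ) ^ 2 := by
        rw [mul_pow]
      have h3 : B * (X:ℝ) ^ 2 ≤ (X:ℝ) ^ 3 := by
        calc B * (X:ℝ) ^ 2 ≤ X * (X:ℝ) ^ 2 := by gcongr; linarith
          _ = (X:ℝ) ^ 3 := by ring
      have h4 : (1:ℝ) ≤ (X:ℝ) ^ 2 := one_le_pow₀ (by linarith)
      have h5 : |(D : ℝ)| ≤ |(D : ℝ)| * (X:ℝ) ^ 2 := by
        nlinarith [abs_nonneg (D : ℝ)]
      have h6 : B * (X:ℝ) ^ 2 = C4 ^ 2 * (X:ℝ) ^ 2 + |(D : ℝ)| * (X:ℝ) ^ 2 := by
        rw [hB]; ring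
      linarith
    set s0 := (WM j).s0 with hs0d
    set s1 := (WM j).s1 with hs1d
    set a : ℕ → ℝ := fun l => if (¬ Even j.val ∧ ¬ l ∣ R ∧ (l : ℝ) ≤ PP X) ∨ (Even j.val ∧ l ∣ R)
      then 0 else ws (PP X) (p.Y X) s0 l with ha
    set b : ℕ → ℝ := fun l => if (Even j.val ∧ ¬ l ∣ R ∧ (l : ℝ) ≤ PP X) ∨ (¬ Even j.val ∧ l ∣ R)
      then 0 else ws (PP X) (p.Y X) s1 l with hb
    have hann : ∀ l, 0 ≤ a l := by
      intro l
      simp only [ha]
      split_ifs
      · exact le_rfl
      · exact (mc2_ws_pos hs0.1 l).le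
    have hbnn : ∀ l, 0 ≤ b l := by
      intro l
      simp only [hb]
      split_ifs
      · exact le_rfl
      · exact (mc2_ws_pos hs1.1 l).le
    -- to divisors
    have hsum : ∑ y ∈ S, nuM p X j y ≤ ∑ g ∈ N.divisors, cm a g * cm b (N / g) := by
      have hNy : ∀ y ∈ S, y.1.natAbs * y.2.2.natAbs = N := by
        intro y hy
        rw [← Int.natAbs_mul, (hmem y hy).1.2.2]
      have hinj : Set.InjOn (fun y : ℤ × ℤ × ℤ => y.1.natAbs) S := by
        intro y hy y' hy' hyy
        obtain ⟨⟨a1, a3, a4⟩, -⟩ := hmem y hy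
        obtain ⟨⟨b1, b3, b4⟩, -⟩ := hmem y' hy'
        have hyy : y.1.natAbs = y'.1.natAbs := hyy
        have hy1 : y.1 = y'.1 := by
          rw [← Int.natAbs_of_nonneg a1.le, ← Int.natAbs_of_nonneg b1.le, hyy]
        have h5 : y.2.2 = y'.2.2 := by
          rw [← hy1] at b4
          exact mul_left_cancel₀ a1.ne' (a4.trans b4.symm)
        exact Prod.ext hy1 (Prod.ext (a3.trans b3.symm) h5)
      have e1 : ∑ y ∈ S, nuM p X j y =
          ∑ g ∈ S.image (fun y => y.1.natAbs), cm a g * cm b (N / g) := by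
        rw [Finset.sum_image hinj]
        refine Finset.sum_congr rfl fun y hy => ?_
        obtain ⟨⟨a1, a3, a4⟩, -, c1, c2, c3, c4⟩ := hmem y hy
        have hy1 : 0 < y.1.natAbs := Int.natAbs_pos.2 a1.ne'
        have e2 : N / y.1.natAbs = y.2.2.natAbs := by
          rw [← hNy y hy, Nat.mul_div_cancel_left _ hy1]
        rw [e2]
        unfold nuM
        congr 1
        · rw [t4_cm_eq, t4_cm_eq]
          refine Finset.prod_congr rfl fun l hl => ?_
          have hl' := Nat.mem_primeFactors.1 hl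
          have : a l = ws (PP X) (p.Y X) s0 l := by
            simp only [ha]
            rw [if_neg]
            rintro (⟨h3, h4, h5⟩ | ⟨h3, h4⟩)
            · exact c1 h3 l hl'.1 h4 h5 hl'.2.1
            · exact c3 h3 l hl'.1 h4 hl'.2.1
          rw [this]
        · rw [t4_cm_eq, t4_cm_eq]
          refine Finset.prod_congr rfl fun l hl => ?_
          have hl' := Nat.mem_primeFactors.1 hl
          have : b l = ws (PP X) (p.Y X) s1 l := by
            simp only [hb]
            rw [if_neg]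
            rintro (⟨h3, h4, h5⟩ | ⟨h3, h4⟩)
            · exact c2 h3 l hl'.1 h4 h5 hl'.2.1
            · exact c4 h3 l hl'.1 h4 hl'.2.1
          rw [this]
      rw [e1]
      refine Finset.sum_le_sum_of_subset_of_nonneg ?_ fun g _ _ =>
        mul_nonneg (mc2_cm_nn hann _) (mc2_cm_nn hbnn _)
      intro g hg
      obtain ⟨y, hy, rfl⟩ := Finset.mem_image.1 hg
      exact Nat.mem_divisors.2 ⟨⟨y.2.2.natAbs, (hNy y hy).symm⟩, hN0⟩
    refine hsum.trans ((mc2_conv hann hbnn N hN0).trans ?_)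
    set c : ℝ := Real.log 2 / (p.ta * Real.log X) with hcd
    have hlog2 : 0 < Real.log 2 := Real.log_pos (by norm_num)
    have hc0 : 0 < c := by positivity
    have hle : cm (fun l => a l + b l) N ≤ cm (fun l => (l:ℝ) ^ c) N := by
      refine t4_cm_le (fun l => add_nonneg (hann l) (hbnn l)) N ?_
      intro l hl
      have hl1 : (1:ℝ) ≤ (l:ℝ) := by exact_mod_cast hl.one_lt.le
      have hlc : (1:ℝ) ≤ (l:ℝ) ^ c := Real.one_le_rpow hl1 hc0.le
      by_cases h2 : l ∣ R
      · have e0 : ∀ s : ℝ, ws (PP X) (p.Y X) s l = 1 := by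
          intro s
          unfold ws
          rw [if_pos h2]
        by_cases hev : Even j.val
        · have e1 : a l = 0 := by
            simp only [ha]
            rw [if_pos (Or.inr ⟨hev, h2⟩)]
          have e2 : b l = 1 := by
            simp only [hb]
            rw [if_neg, e0]
            rintro (⟨-, h4, -⟩ | ⟨h4, -⟩)
            · exact h4 h2
            · exact h4 hev
          show a l + b l ≤ _
          rw [e1, e2]
          linarith
        · have e1 : a l = 1 := by
            simp only [ha]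
            rw [if_neg, e0]
            rintro (⟨-, h4, -⟩ | ⟨h4, -⟩)
            · exact h4 h2
            · exact hev h4
          have e2 : b l = 0 := by
            simp only [hb]
            rw [if_pos (Or.inr ⟨hev, h2⟩)]
          show a l + b l ≤ _
          rw [e1, e2]
          linarith
      · by_cases hP : (l : ℝ) ≤ PP X
        · have e0 : ∀ s : ℝ, ws (PP X) (p.Y X) s l = 1 := by
            intro s
            unfold ws
            rw [if_neg h2, if_pos hP]
          by_cases hev : Even j.val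
          · have e1 : a l = 1 := by
              simp only [ha]
              rw [if_neg, e0]
              rintro (⟨h4, -⟩ | ⟨-, h4⟩)
              · exact h4 hev
              · exact h2 h4
            have e2 : b l = 0 := by
              simp only [hb]
              rw [if_pos (Or.inl ⟨hev, h2, hP⟩)]
            show a l + b l ≤ _
            rw [e1, e2]
            linarith
          · have e1 : a l = 0 := by
              simp only [ha]
              rw [if_pos (Or.inl ⟨hev, h2, hP⟩)]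
            have e2 : b l = 1 := by
              simp only [hb]
              rw [if_neg, e0]
              rintro (⟨h4, -⟩ | ⟨-, h4⟩)
              · exact hev h4
              · exact h2 h4
            show a l + b l ≤ _
            rw [e1, e2]
            linarith
        · have e1 : a l = ws (PP X) (p.Y X) s0 l := by
            simp only [ha]
            rw [if_neg]
            rintro (⟨-, -, h4⟩ | ⟨-, h4⟩)
            · exact hP h4
            · exact h2 h4
          have e2 : b l = ws (PP X) (p.Y X) s1 l := by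
            simp only [hb]
            rw [if_neg]
            rintro (⟨-, -, h4⟩ | ⟨-, h4⟩)
            · exact hP h4
            · exact h2 h4
          show a l + b l ≤ _
          rw [e1, e2]
          unfold ws
          rw [if_neg h2, if_neg hP, if_neg h2, if_neg hP]
          by_cases hY : (l:ℝ) ≤ p.Y X
          · rw [if_pos hY, if_pos hY]
            linarith
          · rw [if_neg hY, if_neg hY]
            push Not at hY
            have e1 : (p.Y X) ^ c = 2 := by
              rw [Prm.Y, ← Real.rpow_mul (by linarith), hcd]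
              have e2 : p.ta * (Real.log 2 / (p.ta * Real.log X)) =
                  Real.log 2 / Real.log X := by
                field_simp
              rw [e2, Real.rpow_def_of_pos (by linarith), mul_div_cancel₀ _ hlogX.ne',
                Real.exp_log (by norm_num)]
            have e3 : (p.Y X) ^ c ≤ (l:ℝ) ^ c :=
              Real.rpow_le_rpow (Real.rpow_nonneg (by linarith) _) hY.le hc0.le
            linarith
    refine hle.trans ?_
    rw [t4_cm_rpow c hN0]
    calc (N:ℝ) ^ c ≤ ((X:ℝ) ^ 3) ^ c := Real.rpow_le_rpow (Nat.cast_nonneg N) hNX hc0.le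
      _ = (2:ℝ) ^ (3 / p.ta) := by
        rw [← Real.rpow_natCast, ← Real.rpow_mul (by linarith), Real.rpow_def_of_pos (by linarith),
          Real.rpow_def_of_pos (by norm_num), hcd]
        congr 1
        push_cast
        field_simp

end Pool.Agent.AQ.PENM

namespace Pool.Agent.AQ.PENM

open Finset Pool.Agent.PENT Pool.Agent.AQ.NC

variable [Cst]

theorem nu_sum : type_of% @nu_sum_pr := @nu_sum_pr

end Pool.Agent.AQ.PENM
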