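import Pool.Agent.Lib_helper18.AQ.M.Defs
import Pool.Agent.Lib_helper18.AQ.K.DefsW
import Pool.Agent.Lib_helper18.AQ.MF.MA1
import Pool.Agent.Lib_helper18.AQ.MF.MA4
import Pool.Agent.Lib_helper18.AQ.MF.MB1
import Pool.Agent.Lib_helper18.AQ.MF.MB4

/-! Block `MC1` (AQK), helper44. Port of helper83's block `MC1` (PENK, part 6; helper42's `PL4`). -/

set_option autoImplicit false

namespace Pool.Agent.AQ.PENM

open Finset Pool.Agent.PENT Pool.Agent.AQ.NC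

variable [Cst]

/-! ### elementary facts -/

theorem mc1_cm (g : ℕ → ℝ) {m N : ℕ} (hm : m ≠ 0) (hN : m ≤ N) :
    cm g m = ∏ l ∈ (Ioc 0 N).filter Nat.Prime, g l ^ (m.factorization l) := by
  unfold cm
  refine Finsupp.prod_of_support_subset _ ?_ _ (fun l _ => pow_zero _)
  intro l hl
  rw [Nat.support_factorization, Nat.mem_primeFactors] at hl
  rw [Finset.mem_filter, Finset.mem_Ioc]
  exact ⟨⟨hl.1.pos, (Nat.le_of_dvd (Nat.pos_of_ne_zero hm) hl.2.1).trans hN⟩, hl.1⟩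

theorem mc1_cm_one (g : ℕ → ℝ) : cm g 1 = 1 := by
  unfold cm
  simp

theorem mc1_ivr (f : Fin 11 → ℝ) : ∏ i, f i = f 0 * f 1 * ∏ k ∈ PENK.ivr 11, f k := by
  have h : PENK.ivr 11 = (univ.erase (0 : Fin 11)).erase 1 := by decide
  rw [h, ← Finset.mul_prod_erase univ f (mem_univ 0), mul_assoc,
    Finset.mul_prod_erase (univ.erase (0 : Fin 11)) f (by decide)]

theorem mc1_inr (f : Fin 11 → ℝ) : ∏ i, f i = f 1 * f (-1) * ∏ k ∈ PENK.inr 11, f k := by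
  have h : PENK.inr 11 = (univ.erase (1 : Fin 11)).erase (-1) := by decide
  rw [h, ← Finset.mul_prod_erase univ f (mem_univ 1), mul_assoc,
    Finset.mul_prod_erase (univ.erase (1 : Fin 11)) f (by decide)]

/-! ### the rotated indices -/

/-- the numbers `y_i` in rotated indices -/
def mc1_y (j : Fin 11) (s : (ℤ × ℤ × ℤ) × Vec 10) (i : Fin 11) : ℕ := yv s.1 s.2 (i + j)

theorem mc1_dE_zero (u : Vec 10) : dE u 0 = 1 := by
  unfold dE
  rw [dif_neg (by omega)]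

theorem mc1_dE_last (u : Vec 10) : dE u 11 = 1 := by
  unfold dE
  rw [dif_neg (by omega)]

theorem mc1_dn {p : Prm 10} {X : ℕ} {u : Vec 10} (h : GP p X u) (j i : Fin 11) :
    PENK.dn (mM j) (rt j u) i = dE u ((i + j).val + 1) := by
  rw [dn_rt h j i]
  split_ifs with hi
  · rw [hi]
    exact (mc1_dE_last u).symm
  · rfl

theorem mc1_pred (m : Fin 11) (hm : m ≠ 0) : (m - 1).val + 1 = m.val := by
  revert m; decide

theorem mc1_dn' {p : Prm 10} {X : ℕ} {u : Vec 10} (h : GP p X u) (j i : Fin 11) :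
    PENK.dn (mM j) (rt j u) (i - 1) = dE u (i + j).val := by
  rw [mc1_dn h j (i - 1)]
  have e : i - 1 + j = i + j - 1 := by abel
  rw [e]
  by_cases h0 : i + j = 0
  · rw [h0]
    have e1 : ((0 : Fin 11) - 1).val + 1 = 11 := by decide
    rw [e1, mc1_dE_last]
    exact (mc1_dE_zero u).symm
  · rw [mc1_pred _ h0]

theorem mc1_dvd {q : ℤ × ℤ × ℤ} {u : Vec 10} (hg : GD q u) (m : Fin 11) :
    dE u m.val ∣ (fv q (u m)).natAbs ∧ dE u (m.val + 1) ∣ (fv q (u m)).natAbs := by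
  constructor
  · by_cases h0 : m.val = 0
    · rw [h0, mc1_dE_zero]
      exact one_dvd _
    · have h1 := (hg ⟨m.val - 1, by omega⟩).2
      have e1 : (⟨m.val - 1, by omega⟩ : Fin 10).succ = m := by
        apply Fin.ext
        simp only [Fin.val_succ]
        omega
      have e2 : (⟨m.val - 1, by omega⟩ : Fin 10).val + 1 = m.val := by
        show m.val - 1 + 1 = m.val
        omega
      rw [e1, e2] at h1
      exact Int.natCast_dvd.1 h1
  · by_cases h0 : m.val = 10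
    · rw [h0, mc1_dE_last]
      exact one_dvd _
    · have h1 := (hg ⟨m.val, by omega⟩).1
      have e1 : (⟨m.val, by omega⟩ : Fin 10).castSucc = m := rfl
      rw [e1] at h1
      exact Int.natCast_dvd.1 h1

theorem mc1_cop {p : Prm 10} {X : ℕ} {u : Vec 10} (h : GP p X u) (m : Fin 11) :
    Nat.Coprime (dE u m.val) (dE u (m.val + 1)) := by
  by_cases h0 : m.val = 0
  · rw [h0, mc1_dE_zero]
    exact Nat.coprime_one_left _
  · by_cases h1 : m.val = 10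
    · rw [h1, mc1_dE_last]
      exact Nat.coprime_one_right _
    · exact h.cop m.val (m.val + 1) (by omega) (by omega) (by omega)

theorem mc1_fv {p : Prm 10} {C1 : ℝ} {X : ℕ} (j : Fin 11) {s : (ℤ × ℤ × ℤ) × Vec 10}
    (h : TT p C1 X s) (i : Fin 11) : (fv s.1 (rt j s.2 i)).natAbs =
      mc1_y j s i * (PENK.dn (mM j) (rt j s.2) (i - 1) * PENK.dn (mM j) (rt j s.2) i) := by
  rw [mc1_dn h.gp j i, mc1_dn' h.gp j i]
  have h1 := mc1_dvd h.gd (i + j)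
  have h2 := (mc1_cop h.gp (i + j)).mul_dvd_of_dvd_of_dvd h1.1 h1.2
  unfold mc1_y yv rt
  exact (Nat.div_mul_cancel h2).symm

theorem mc1_fvne {p : Prm 10} {C1 : ℝ} {X : ℕ} (j : Fin 11)
    {s : (ℤ × ℤ × ℤ) × Vec 10} (h : TT p C1 X s) (i : Fin 11) : fv s.1 (rt j s.2 i) ≠ 0 :=
  h.ne (i + j)

theorem mc1_yne {p : Prm 10} {C1 : ℝ} {X : ℕ} (j : Fin 11)
    {s : (ℤ × ℤ × ℤ) × Vec 10} (h : TT p C1 X s) (i : Fin 11) : mc1_y j s i ≠ 0 := by
  intro h0
  have h1 := mc1_fv j h i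
  rw [h0, zero_mul] at h1
  exact mc1_fvne j h i (Int.natAbs_eq_zero.1 h1)

/-- `d_i` is `1` or admissible -/
theorem mc1_DP {p : Prm 10} {X : ℕ} {u : Vec 10} (h : GP p X u) (j i : Fin 11) :
    DP (PP X) (PENK.dn (mM j) (rt j u) i) := by
  rw [mc1_dn h j i]
  by_cases h0 : (i + j).val = 10
  · rw [h0, mc1_dE_last]
    refine ⟨squarefree_one, ?_⟩
    intro l hl hl1
    exact absurd (Nat.dvd_one.1 hl1) hl.one_lt.ne'
  · exact h.dp _ (by omega) (by omega)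

theorem mc1_dne {p : Prm 10} {X : ℕ} {u : Vec 10} (h : GP p X u) (j i : Fin 11) :
    PENK.dn (mM j) (rt j u) i ≠ 0 := (mc1_DP h j i).1.ne_zero

theorem mc1_j (j : Fin 11) (hj : ¬ j = 10) : (0 : Fin 11) ≠ 10 - j := by
  revert j
  decide

theorem mc1_dv {p : Prm 10} {X : ℕ} {u : Vec 10} (h : GP p X u) (j : Fin 11) :
    (dv j u).natAbs = PENK.dn (mM j) (rt j u) 0 := by
  unfold dv
  by_cases hj : j = 10
  · have h1 : (0 : Fin 11) + j = 10 := by rw [hj, zero_add]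
    rw [if_pos hj, dn_rt h j 0, if_pos h1]
    rfl
  · have h0 : (0 : Fin 11) ≠ mM j := mc1_j j hj
    rw [if_neg hj, PENK.dn_ne _ h0, Int.natAbs_abs]

theorem mc1_g {p : Prm 10} {C1 : ℝ} {X : ℕ} (j : Fin 11) {s : (ℤ × ℤ × ℤ) × Vec 10}
    (h : TT p C1 X s) : (bT j s).1.natAbs = mc1_y j s 0 * PENK.dn (mM j) (rt j s.2) (-1) := by
  have h1 := mc1_fv j h 0
  have h2 := (RB_mul j h).2.1
  have h3 : (0 - 1 : Fin 11) = -1 := by decide
  rw [h3] at h1
  have h4 := congrArg Int.natAbs h2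
  rw [Int.natAbs_mul, mc1_dv h.gp j, h1, ← mul_assoc] at h4
  exact Nat.eq_of_mul_eq_mul_right (Nat.pos_of_ne_zero (mc1_dne h.gp j 0)) h4

theorem mc1_g' {p : Prm 10} {C1 : ℝ} {X : ℕ} (j : Fin 11) {s : (ℤ × ℤ × ℤ) × Vec 10}
    (h : TT p C1 X s) : (bT j s).2.2.natAbs = mc1_y j s 1 * PENK.dn (mM j) (rt j s.2) 1 := by
  have h1 := mc1_fv j h 1
  have h2 := (RB_mul j h).2.2.2
  have h3 : (1 - 1 : Fin 11) = 0 := by decide
  rw [h3] at h1
  have h4 := congrArg Int.natAbs h2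
  rw [Int.natAbs_mul, mc1_dv h.gp j, h1, mul_comm (PENK.dn (mM j) (rt j s.2) 0) (PENK.dn (mM j) (rt j s.2) 1), ← mul_assoc] at h4
  exact Nat.eq_of_mul_eq_mul_right (Nat.pos_of_ne_zero (mc1_dne h.gp j 0)) h4

/-! ### the local inequalities -/

theorem mc1_pow_ind (l : ℕ) (x : ℤ) (t t' : ℝ) (n : ℕ) (h0 : 0 ≤ t) (h1 : t ≤ 1) (h2 : t ≤ t')
    (hn : (l : ℤ) ∣ x → n ≠ 0) : t ^ n ≤ PENK.ind l x t' := by
  unfold PENK.ind
  split_ifs with h
  · exact (pow_le_of_le_one h0 h1 (hn h)).trans h2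
  · exact pow_le_one₀ h0 h1

theorem mc1_pow_ite (P : Prop) [Decidable P] (t : ℝ) (n : ℕ) (h0 : 0 ≤ t) (h1 : t ≤ 1)
    (hn : P → n ≠ 0) : t ^ n ≤ if P then t else 1 := by
  split_ifs with h
  · exact pow_le_of_le_one h0 h1 (hn h)
  · exact pow_le_one₀ h0 h1

theorem mc1_prod01 (f : Fin 11 → ℝ) (s : Finset (Fin 11)) (h : ∀ i, 0 ≤ f i ∧ f i ≤ 1) :
    0 ≤ ∏ i ∈ s, f i ∧ ∏ i ∈ s, f i ≤ 1 :=
  ⟨Finset.prod_nonneg fun i _ => (h i).1,
    Finset.prod_le_one (fun i _ => (h i).1) fun i _ => (h i).2⟩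

theorem mc1_A (b : Fin 11 → ℝ) (s0 s1 : ℝ) (h0 : 0 < s0) (h1 : 0 < s1) (H H' : Fin 11 → ℕ)
    (e0 : H' 0 = H 0) (e1 : H' 1 = H 1) :
    (∏ i, b i ^ H i) * (∏ i, b i ^ H' i) / (s0 ^ H 0 * s1 ^ H 1) =
      (b 0 ^ 2 / s0) ^ H 0 * (b 1 ^ 2 / s1) ^ H 1 *
        ((∏ k ∈ PENK.ivr 11, b k ^ H k) * ∏ k ∈ PENK.ivr 11, b k ^ H' k) := by
  rw [mc1_ivr (fun i => b i ^ H i), mc1_ivr (fun i => b i ^ H' i)]
  simp only [e0, e1]
  rw [div_pow, div_pow, ← pow_mul, ← pow_mul, div_eq_iff (by positivity)]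
  field_simp
  ring

/-- the special edges -/
theorem mc1_sp (a b s : ℝ) (a0 : 0 ≤ a) (b0 : 0 ≤ b) (s0 : 0 < s) (hb : b ^ 2 ≤ s)
    (D D' H H' e : ℕ) (h1 : D ≤ 1) (h1' : D' ≤ 1) (h2 : H + D = e) (h2' : H' + D' = e) :
    (a ^ D * b ^ H) * (a ^ D' * b ^ H') / s ^ e ≤
      if D ≠ 0 ∧ D' ≠ 0 then a ^ 2 / s else if D ≠ 0 ∨ D' ≠ 0 then a * b / s else 1 := by
  have hr0 : 0 ≤ b ^ 2 / s := by positivity
  have hr1 : b ^ 2 / s ≤ 1 := (div_le_one s0).2 hb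
  have hr : ∀ m : ℕ, (b ^ 2 / s) ^ m ≤ 1 := fun m => pow_le_one₀ hr0 hr1
  have hsn : ∀ m : ℕ, s ^ m ≠ 0 := fun m => (pow_pos s0 m).ne'
  have hs : s ≠ 0 := s0.ne'
  rcases Nat.le_one_iff_eq_zero_or_eq_one.1 h1 with rfl | rfl <;>
    rcases Nat.le_one_iff_eq_zero_or_eq_one.1 h1' with rfl | rfl
  · have e1 : H = e := by omega
    have e2 : H' = e := by omega
    rw [if_neg (by omega), if_neg (by omega), e1, e2]
    have : (a ^ 0 * b ^ e) * (a ^ 0 * b ^ e) / s ^ e = (b ^ 2 / s) ^ e := by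
      rw [div_pow, ← pow_mul, pow_zero, one_mul, ← pow_add, two_mul]
    rw [this]
    exact hr e
  · have e1 : H = H' + 1 := by omega
    have e2 : e = H' + 1 := by omega
    rw [if_neg (by omega), if_pos (by omega), e1, e2]
    have : (a ^ 0 * b ^ (H' + 1)) * (a ^ 1 * b ^ H') / s ^ (H' + 1) =
        (a * b / s) * (b ^ 2 / s) ^ H' := by
      rw [div_pow, ← pow_mul]
      field_simp
      ring
    rw [this]
    exact mul_le_of_le_one_right (by positivity) (hr H')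
  · have e1 : H' = H + 1 := by omega
    have e2 : e = H + 1 := by omega
    rw [if_neg (by omega), if_pos (by omega), e1, e2]
    have : (a ^ 1 * b ^ H) * (a ^ 0 * b ^ (H + 1)) / s ^ (H + 1) =
        (a * b / s) * (b ^ 2 / s) ^ H := by
      rw [div_pow, ← pow_mul]
      field_simp
      ring
    rw [this]
    exact mul_le_of_le_one_right (by positivity) (hr H)
  · have e1 : H' = H := by omega
    have e2 : e = H + 1 := by omega
    rw [if_pos (by omega), e1, e2]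
    have : (a ^ 1 * b ^ H) * (a ^ 1 * b ^ H) / s ^ (H + 1) =
        (a ^ 2 / s) * (b ^ 2 / s) ^ H := by
      rw [div_pow, ← pow_mul]
      field_simp
      ring
    rw [this]
    exact mul_le_of_le_one_right (by positivity) (hr H)

theorem mc1_sp' (a b s : ℝ) (a0 : 0 ≤ a) (b0 : 0 ≤ b) (s0 : 0 < s) (hb : b ^ 2 ≤ s)
    (D D' H H' e : ℕ) (h1 : D ≤ 1) (h1' : D' ≤ 1) (h2 : H + D = e) (h2' : H' + D' = e)
    (P P' : Prop) [Decidable P] [Decidable P'] (hP : P ↔ D ≠ 0) (hP' : P' ↔ D' ≠ 0) :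
    (a ^ D * b ^ H) * (a ^ D' * b ^ H') / s ^ e ≤
      if P ∧ P' then a ^ 2 / s else if P ∨ P' then a * b / s else 1 := by
  have h := mc1_sp a b s a0 b0 s0 hb D D' H H' e h1 h1' h2 h2'
  have e1 : (P ∧ P') ↔ (D ≠ 0 ∧ D' ≠ 0) := and_congr hP hP'
  have e2 : (P ∨ P') ↔ (D ≠ 0 ∨ D' ≠ 0) := or_congr hP hP'
  by_cases c1 : P ∧ P'
  · rw [if_pos (e1.1 c1)] at h
    rw [if_pos c1]
    exact h
  · rw [if_neg (fun x => c1 (e1.2 x))] at h
    rw [if_neg c1]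
    by_cases c2 : P ∨ P'
    · rw [if_pos (e2.1 c2)] at h
      rw [if_pos c2]
      exact h
    · rw [if_neg (fun x => c2 (e2.2 x))] at h
      rw [if_neg c2]
      exact h

theorem mc1_B (a b : Fin 11 → ℝ) (s0 s1 : ℝ) (h0 : 0 < s0) (h1 : 0 < s1)
    (D D' H H' : Fin 11 → ℕ) (e0 e1 : ℕ) :
    ((∏ i, a i ^ D i) * ∏ i, b i ^ H i) * ((∏ i, a i ^ D' i) * ∏ i, b i ^ H' i) /
        (s0 ^ e0 * s1 ^ e1) =
      ((∏ i ∈ PENK.inr 11, a i ^ D i) * (∏ i ∈ PENK.inr 11, a i ^ D' i) *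
        ((a 1 ^ D 1 * b 1 ^ H 1) * (a 1 ^ D' 1 * b 1 ^ H' 1) / s1 ^ e1 *
          ((a (-1) ^ D (-1) * b 0 ^ H 0) * (a (-1) ^ D' (-1) * b 0 ^ H' 0) / s0 ^ e0))) *
        ((∏ k ∈ PENK.ivr 11, b k ^ H k) * ∏ k ∈ PENK.ivr 11, b k ^ H' k) := by
  rw [mc1_ivr (fun i => b i ^ H i), mc1_ivr (fun i => b i ^ H' i),
    mc1_inr (fun i => a i ^ D i), mc1_inr (fun i => a i ^ D' i)]
  have key : ∀ (A1 Am AI B0 B1 BI C1 Cm CI E0 E1 EI S0 S1 : ℝ), S0 ≠ 0 → S1 ≠ 0 →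
      ((A1 * Am * AI) * (B0 * B1 * BI)) * ((C1 * Cm * CI) * (E0 * E1 * EI)) / (S0 * S1) =
      (AI * CI * ((A1 * B1) * (C1 * E1) / S1 * ((Am * B0) * (Cm * E0) / S0))) * (BI * EI) := by
    intro A1 Am AI B0 B1 BI C1 Cm CI E0 E1 EI S0 S1 _ _
    simp only [div_eq_mul_inv, mul_inv]
    ring
  exact key _ _ _ _ _ _ _ _ _ _ _ _ _ _ (pow_pos h0 e0).ne' (pow_pos h1 e1).ne'

theorem mc1_fne {m l : ℕ} (hl : l.Prime) (hm : m ≠ 0) (h : l ∣ m) : m.factorization l ≠ 0 :=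
  (hl.factorization_pos_of_dvd hm h).ne'

theorem mc1_fz {m l : ℕ} (h : m.factorization l ≠ 0) : l ∣ m := by
  by_contra h1
  exact h (Nat.factorization_eq_zero_of_not_dvd h1)

/-- the exponents -/
theorem mc1_exp {p : Prm 10} {C1 : ℝ} {X : ℕ} (j : Fin 11)
    {s : (ℤ × ℤ × ℤ) × Vec 10} (h : TT p C1 X s) (l : ℕ) :
    ((bT j s).1.natAbs).factorization l = (mc1_y j s 0).factorization l +
        (PENK.dn (mM j) (rt j s.2) (-1)).factorization l ∧
      ((bT j s).2.2.natAbs).factorization l = (mc1_y j s 1).factorization l +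
        (PENK.dn (mM j) (rt j s.2) 1).factorization l := by
  refine ⟨?_, ?_⟩
  · rw [mc1_g j h, Nat.factorization_mul (mc1_yne j h 0) (mc1_dne h.gp j (-1)),
      Finsupp.add_apply]
  · rw [mc1_g' j h, Nat.factorization_mul (mc1_yne j h 1) (mc1_dne h.gp j 1),
      Finsupp.add_apply]

theorem mc1_gne {p : Prm 10} {C1 : ℝ} {X : ℕ} (j : Fin 11)
    {s : (ℤ × ℤ × ℤ) × Vec 10} (h : TT p C1 X s) :
    (bT j s).1.natAbs ≠ 0 ∧ (bT j s).2.2.natAbs ≠ 0 := by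
  rw [mc1_g j h, mc1_g' j h]
  exact ⟨Nat.mul_ne_zero (mc1_yne j h 0) (mc1_dne h.gp j (-1)),
    Nat.mul_ne_zero (mc1_yne j h 1) (mc1_dne h.gp j 1)⟩

/-- an inner form divisible by `l` -/
theorem mc1_inner {p : Prm 10} {C1 : ℝ} {X : ℕ} (j : Fin 11)
    {s : (ℤ × ℤ × ℤ) × Vec 10} (h : TT p C1 X s) {l : ℕ} (hl : l.Prime) (hlN : NZ < l)
    (hd : ∀ i, ¬ l ∣ PENK.dn (mM j) (rt j s.2) i) (k : Fin 11)
    (hk : (l : ℤ) ∣ PENK.Rf (bT j s) (PENK.cv (rt j s.2) k)) :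
    (mc1_y j s k).factorization l ≠ 0 := by
  have hcv : PENK.Rf (bT j s) (PENK.cv (rt j s.2) k) =
      ec j s.2 * fv s.1 (rt j s.2 k) := RB_cv j h k
  rw [hcv] at hk
  have h1 : l ∣ (fv s.1 (rt j s.2 k)).natAbs := by
    have h2 := Int.natCast_dvd.1 hk
    rw [Int.natAbs_mul] at h2
    rcases hl.dvd_mul.1 h2 with h3 | h3
    · exfalso
      unfold ec at h3
      by_cases hj : j = 10
      · rw [if_pos hj, Int.natAbs_pow] at h3
        exact NZ_z hlN (Int.natCast_dvd.2 (hl.dvd_of_dvd_pow h3))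
      · have h5 := mc1_dv h.gp j
        unfold dv at h5
        rw [if_neg hj] at h3 h5
        rw [h5] at h3
        exact hd 0 h3
    · exact h3
  rw [mc1_fv j h k] at h1
  rcases hl.dvd_mul.1 h1 with h3 | h3
  · exact mc1_fne hl (mc1_yne j h k) h3
  · rcases hl.dvd_mul.1 h3 with h4 | h4
    · exact absurd h4 (hd _)
    · exact absurd h4 (hd _)

/-! ### the values of the weights -/

theorem mc1_alE (j : ℕ) : 0 ≤ alE 10 j ∧ alE 10 j ≤ 1 := by
  unfold alE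
  split_ifs <;> norm_num

theorem mc1_beV (j : ℕ) : 0 < beV 10 j ∧ beV 10 j ≤ 1 := by
  unfold beV
  split_ifs <;> norm_num

theorem mc1_boV (j : ℕ) : boV j = 0 ∨ boV j = 1 := by
  unfold boV
  split_ifs
  · right; rfl
  · left; rfl

theorem mc1_al (j i : Fin 11) : 0 ≤ (WM j).al i ∧ (WM j).al i ≤ 1 := by
  unfold WM
  dsimp only
  split_ifs
  · norm_num
  · exact mc1_alE _

theorem mc1_wdE (Y : ℝ) (j l : ℕ) : 0 ≤ wdE 10 Y j l ∧ wdE 10 Y j l ≤ 1 := by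
  unfold wdE
  split_ifs
  · exact mc1_alE _
  · norm_num

theorem mc1_wyV (P Y : ℝ) (j l : ℕ) : 0 ≤ wyV 10 P Y j l ∧ wyV 10 P Y j l ≤ 1 := by
  unfold wyV
  split_ifs
  · norm_num
  · rcases mc1_boV j with h | h <;> rw [h] <;> norm_num
  · exact ⟨(mc1_beV j).1.le, (mc1_beV j).2⟩
  · norm_num

theorem mc1_s (j : Fin 11) : ((WM j).be 0 ≤ (WM j).s0 ∧ (WM j).be 1 ≤ (WM j).s1) ∧
    (0 < (WM j).s0 ∧ 0 < (WM j).s1) := by
  have h0 := mc1_al j (-1)
  have h1 := mc1_al j 1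
  have b0 : 0 < (WM j).be 0 := (mc1_beV _).1
  have b1 : 0 < (WM j).be 1 := (mc1_beV _).1
  unfold PENK.Wts.s0 PENK.Wts.s1
  refine ⟨⟨?_, ?_⟩, ?_, ?_⟩ <;> linarith

theorem mc1_ws0 (P Y s : ℝ) (hs : 0 < s) (l : ℕ) : 0 < ws P Y s l := by
  unfold ws
  split_ifs
  · exact one_pos
  · exact one_pos
  · exact hs
  · exact one_pos

open Classical in
/-- the local inequality at the primes `2 < l ≤ Y` -/
theorem mc1_loc {p : Prm 10} {C1 : ℝ} {X : ℕ} (j : Fin 11)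
    {s s' : (ℤ × ℤ × ℤ) × Vec 10} (h : TT p C1 X s) (h' : TT p C1 X s') (hb : bT j s' = bT j s)
    {l : ℕ} (hl : l.Prime) (hl2 : NZ < l) (hlP : l ≤ ⌊p.Y X⌋₊) :
    ((∏ i : Fin 11, wdE 10 (p.Y X) (i + j).val l ^ (PENK.dn (mM j) (rt j s.2) i).factorization l) *
        ∏ i : Fin 11, wyV 10 (PP X) (p.Y X) (i + j).val l ^ (mc1_y j s i).factorization l) *
      ((∏ i : Fin 11, wdE 10 (p.Y X) (i + j).val l ^ (PENK.dn (mM j) (rt j s'.2) i).factorization l) *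
        ∏ i : Fin 11, wyV 10 (PP X) (p.Y X) (i + j).val l ^ (mc1_y j s' i).factorization l) /
      (ws (PP X) (p.Y X) (WM j).s0 l ^ ((bT j s).1.natAbs).factorization l *
        ws (PP X) (p.Y X) (WM j).s1 l ^ ((bT j s).2.2.natAbs).factorization l) ≤
    if l ∣ PENK.DD (mM j) (rt j s.2) * PENK.DD (mM j) (rt j s'.2) then
      PENK.th (mM j) (WM j) ⌊p.Y X⌋₊ (rt j s.2) (rt j s'.2) l else
      PENK.phi (WM j) ⌊PP X⌋₊ (rt j s.2) (rt j s'.2) l (bT j s) := by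
  have hY0 : 0 ≤ p.Y X := by unfold Prm.Y; positivity
  have hlY : (l : ℝ) ≤ p.Y X := (Nat.le_floor_iff hY0).1 hlP
  have hPP0 : 0 ≤ PP X := by unfold PP; positivity
  have hl2' : ¬ l ∣ R := NZ_R hl2
  obtain ⟨x0, x1⟩ := mc1_exp j h l
  obtain ⟨x0', x1'⟩ := mc1_exp j h' l
  rw [hb] at x0' x1'
  obtain ⟨⟨bs0, bs1⟩, sp0, sp1⟩ := mc1_s j
  have bb : ∀ i, 0 < (WM j).be i ∧ (WM j).be i ≤ 1 := fun i => mc1_beV _
  have q0 : (WM j).be 0 ^ 2 ≤ (WM j).s0 := by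
    have h1 := bb 0
    nlinarith
  have q1 : (WM j).be 1 ^ 2 ≤ (WM j).s1 := by
    have h1 := bb 1
    nlinarith
  split_ifs with hdd
  · -- the primes dividing `D D'`
    have hj : (∃ i, l ∣ PENK.dn (mM j) (rt j s.2) i) ∨ ∃ i, l ∣ PENK.dn (mM j) (rt j s'.2) i := by
      rcases hl.dvd_mul.1 hdd with h1 | h1
      · left
        obtain ⟨i, _, hi⟩ := (Prime.dvd_finsetProd_iff hl.prime _).1 h1
        exact ⟨i, hi⟩
      · right
        obtain ⟨i, _, hi⟩ := (Prime.dvd_finsetProd_iff hl.prime _).1 h1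
        exact ⟨i, hi⟩
    have hlPP : PP X < (l : ℝ) := by
      rcases hj with ⟨i, hi⟩ | ⟨i, hi⟩
      · exact ((mc1_DP h.gp j i).2 l hl hi).2
      · exact ((mc1_DP h'.gp j i).2 l hl hi).2
    have ewy : ∀ i : Fin 11, wyV 10 (PP X) (p.Y X) (i + j).val l = (WM j).be i := by
      intro i
      unfold wyV
      rw [if_neg hl2', if_neg (not_le.2 hlPP), if_pos hlY]
      rfl
    have ews : ∀ t : ℝ, ws (PP X) (p.Y X) t l = t := by
      intro t
      unfold ws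
      rw [if_neg hl2', if_neg (not_le.2 hlPP), if_pos hlY]
    have ewd : ∀ (t : (ℤ × ℤ × ℤ) × Vec 10), GP p X t.2 → ∀ i : Fin 11,
        wdE 10 (p.Y X) (i + j).val l ^ (PENK.dn (mM j) (rt j t.2) i).factorization l =
        (WM j).al i ^ (PENK.dn (mM j) (rt j t.2) i).factorization l := by
      intro t ht i
      by_cases hi : i + j = 10
      · have h1 : PENK.dn (mM j) (rt j t.2) i = 1 := by
          rw [dn_rt ht j i, if_pos hi]
        rw [h1, Nat.factorization_one]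
        simp
      · have h1 : wdE 10 (p.Y X) (i + j).val l = (WM j).al i := by
          unfold wdE WM
          rw [if_pos hlY]
          dsimp only
          rw [if_neg hi]
        rw [h1]
    simp only [ewy, ews, ewd s h.gp, ewd s' h'.gp]
    rw [mc1_B _ _ _ _ sp0 sp1]
    have elw : ∀ α : ℝ, PENK.lw ⌊p.Y X⌋₊ l α = α := by
      intro α
      unfold PENK.lw
      rw [if_pos hlP]
    have f1 : ∀ (t : (ℤ × ℤ × ℤ) × Vec 10), GP p X t.2 → ∀ i : Fin 11,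
        (PENK.dn (mM j) (rt j t.2) i).factorization l ≤ 1 := by
      intro t ht i
      exact ((mc1_DP ht j i).1).natFactorization_le_one l
    have f2 : ∀ (t : (ℤ × ℤ × ℤ) × Vec 10), GP p X t.2 → ∀ i : Fin 11,
        (PENK.dn (mM j) (rt j t.2) i).factorization l ≠ 0 ↔ l ∣ PENK.dn (mM j) (rt j t.2) i := by
      intro t ht i
      exact ⟨mc1_fz, mc1_fne hl (mc1_dne ht j i)⟩
    -- interior edges
    have I : ∀ (t : (ℤ × ℤ × ℤ) × Vec 10), GP p X t.2 →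
        ∏ i ∈ PENK.inr 11, (WM j).al i ^ (PENK.dn (mM j) (rt j t.2) i).factorization l ≤
        PENK.thi (mM j) (WM j) ⌊p.Y X⌋₊ (rt j t.2) l := by
      intro t ht
      unfold PENK.thi
      refine Finset.prod_le_prod (fun i _ => pow_nonneg (mc1_al j i).1 _) fun i _ => ?_
      rw [elw]
      have h1 := mc1_pow_ite (l ∣ PENK.dn (mM j) (rt j t.2) i) ((WM j).al i) _ (mc1_al j i).1
        (mc1_al j i).2 ((f2 t ht i).2)
      convert h1 using 2
    have In : ∀ (t : (ℤ × ℤ × ℤ) × Vec 10),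
        0 ≤ ∏ i ∈ PENK.inr 11, (WM j).al i ^ (PENK.dn (mM j) (rt j t.2) i).factorization l :=
      fun t => Finset.prod_nonneg fun i _ => pow_nonneg (mc1_al j i).1 _
    -- special edges
    have S1 := mc1_sp' ((WM j).al 1) ((WM j).be 1) (WM j).s1 (mc1_al j 1).1 (bb 1).1.le sp1 q1
      ((PENK.dn (mM j) (rt j s.2) 1).factorization l) ((PENK.dn (mM j) (rt j s'.2) 1).factorization l)
      ((mc1_y j s 1).factorization l) ((mc1_y j s' 1).factorization l)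
      (((bT j s).2.2.natAbs).factorization l) (f1 s h.gp 1) (f1 s' h'.gp 1) x1.symm x1'.symm
      (l ∣ PENK.dn (mM j) (rt j s.2) 1) (l ∣ PENK.dn (mM j) (rt j s'.2) 1) (f2 s h.gp 1).symm
      (f2 s' h'.gp 1).symm
    have S0 := mc1_sp' ((WM j).al (-1)) ((WM j).be 0) (WM j).s0 (mc1_al j (-1)).1 (bb 0).1.le sp0 q0
      ((PENK.dn (mM j) (rt j s.2) (-1)).factorization l) ((PENK.dn (mM j) (rt j s'.2) (-1)).factorization l)
      ((mc1_y j s 0).factorization l) ((mc1_y j s' 0).factorization l)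
      (((bT j s).1.natAbs).factorization l) (f1 s h.gp (-1)) (f1 s' h'.gp (-1)) x0.symm x0'.symm
      (l ∣ PENK.dn (mM j) (rt j s.2) (-1)) (l ∣ PENK.dn (mM j) (rt j s'.2) (-1)) (f2 s h.gp (-1)).symm
      (f2 s' h'.gp (-1)).symm
    have Sn : ∀ (a b t : ℝ) (m m' k k' e : ℕ), 0 ≤ a → 0 ≤ b → 0 < t →
        0 ≤ (a ^ m * b ^ k) * (a ^ m' * b ^ k') / t ^ e := by
      intro a b t m m' k k' e ha hb' ht
      positivity
    -- vertices
    have V : ∀ t : (ℤ × ℤ × ℤ) × Vec 10,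
        0 ≤ ∏ k ∈ PENK.ivr 11, (WM j).be k ^ (mc1_y j t k).factorization l ∧
        ∏ k ∈ PENK.ivr 11, (WM j).be k ^ (mc1_y j t k).factorization l ≤ 1 := by
      intro t
      exact mc1_prod01 _ _ fun i => ⟨pow_nonneg (bb i).1.le _, pow_le_one₀ (bb i).1.le (bb i).2⟩
    have A := mul_le_mul (I s h.gp) (I s' h'.gp) (In s') ((In s).trans (I s h.gp))
    have B := mul_le_mul S1 S0 (Sn _ _ _ _ _ _ _ _ (mc1_al j (-1)).1 (bb 0).1.le sp0)
      ((Sn _ _ _ _ _ _ _ _ (mc1_al j 1).1 (bb 1).1.le sp1).trans S1)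
    have C := mul_le_mul A B (mul_nonneg (Sn _ _ _ _ _ _ _ _ (mc1_al j 1).1 (bb 1).1.le sp1)
      (Sn _ _ _ _ _ _ _ _ (mc1_al j (-1)).1 (bb 0).1.le sp0))
      ((mul_nonneg (In s) (In s')).trans A)
    refine (mul_le_of_le_one_right (mul_nonneg (mul_nonneg (In s) (In s'))
      (mul_nonneg (Sn _ _ _ _ _ _ _ _ (mc1_al j 1).1 (bb 1).1.le sp1)
      (Sn _ _ _ _ _ _ _ _ (mc1_al j (-1)).1 (bb 0).1.le sp0)))
      (mul_le_one₀ (V s).2 (V s').1 (V s').2)).trans ?_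
    refine C.trans (le_of_eq ?_)
    unfold PENK.th PENK.ths
    simp only [elw]
  · -- the other primes
    have hd : ∀ i, ¬ l ∣ PENK.dn (mM j) (rt j s.2) i := by
      intro i hi
      apply hdd
      exact Dvd.dvd.mul_right (hi.trans (Finset.dvd_prod_of_mem (fun i =>
        PENK.dn (mM j) (rt j s.2) i) (Finset.mem_univ i))) _
    have hd' : ∀ i, ¬ l ∣ PENK.dn (mM j) (rt j s'.2) i := by
      intro i hi
      apply hdd
      exact Dvd.dvd.mul_left (hi.trans (Finset.dvd_prod_of_mem (fun i =>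
        PENK.dn (mM j) (rt j s'.2) i) (Finset.mem_univ i))) _
    have z : ∀ i, (PENK.dn (mM j) (rt j s.2) i).factorization l = 0 := fun i =>
      Nat.factorization_eq_zero_of_not_dvd (hd i)
    have z' : ∀ i, (PENK.dn (mM j) (rt j s'.2) i).factorization l = 0 := fun i =>
      Nat.factorization_eq_zero_of_not_dvd (hd' i)
    rw [z (-1), add_zero] at x0
    rw [z' (-1), add_zero] at x0'
    rw [z 1, add_zero] at x1
    rw [z' 1, add_zero] at x1'
    have e0 : (mc1_y j s' 0).factorization l = (mc1_y j s 0).factorization l := by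
      rw [← x0, ← x0']
    have e1 : (mc1_y j s' 1).factorization l = (mc1_y j s 1).factorization l := by
      rw [← x1, ← x1']
    simp only [z, z', pow_zero, Finset.prod_const_one, one_mul]
    rw [x0, x1, mc1_A _ _ _ (mc1_ws0 _ _ _ sp0 l) (mc1_ws0 _ _ _ sp1 l)
      (fun i => (mc1_y j s i).factorization l) (fun i => (mc1_y j s' i).factorization l) e0 e1]
    -- the values
    have key : ∃ b : Fin 11 → ℝ, (∀ i : Fin 11, wyV 10 (PP X) (p.Y X) (i + j).val l = b i) ∧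
        (∀ i, 0 ≤ b i ∧ b i ≤ 1) ∧
        (b 0 ^ 2 / ws (PP X) (p.Y X) (WM j).s0 l ≤ 1 ∧
          b 0 ^ 2 / ws (PP X) (p.Y X) (WM j).s0 l ≤ (WM j).g0 ⌊PP X⌋₊ l) ∧
        (b 1 ^ 2 / ws (PP X) (p.Y X) (WM j).s1 l ≤ 1 ∧
          b 1 ^ 2 / ws (PP X) (p.Y X) (WM j).s1 l ≤ (WM j).g1 ⌊PP X⌋₊ l) ∧
        ∀ k, (WM j).gi ⌊PP X⌋₊ l k = b k := by
      by_cases hlP0 : (l : ℝ) ≤ PP X
      · have hfl : l ≤ ⌊PP X⌋₊ := (Nat.le_floor_iff hPP0).2 hlP0
        have ews : ∀ t : ℝ, ws (PP X) (p.Y X) t l = 1 := by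
          intro t
          unfold ws
          rw [if_neg hl2', if_pos hlP0]
        have b01 : ∀ i, (WM j).bo i = 0 ∨ (WM j).bo i = 1 := fun i => mc1_boV _
        have bsq : ∀ i, (WM j).bo i ^ 2 / 1 ≤ 1 ∧ (WM j).bo i ^ 2 / 1 ≤ (WM j).bo i := by
          intro i
          rcases b01 i with hi | hi <;> rw [hi] <;> norm_num
        refine ⟨(WM j).bo, ?_, ?_, ?_, ?_, ?_⟩
        · intro i
          unfold wyV
          rw [if_neg hl2', if_pos hlP0]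
          rfl
        · intro i
          rcases b01 i with hi | hi <;> rw [hi] <;> norm_num
        · rw [ews]
          unfold PENK.Wts.g0
          rw [if_pos hfl]
          exact bsq 0
        · rw [ews]
          unfold PENK.Wts.g1
          rw [if_pos hfl]
          exact bsq 1
        · intro k
          unfold PENK.Wts.gi
          rw [if_pos hfl]
      · have hfl : ¬ l ≤ ⌊PP X⌋₊ := fun hh => hlP0 ((Nat.le_floor_iff hPP0).1 hh)
        have ews : ∀ t : ℝ, ws (PP X) (p.Y X) t l = t := by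
          intro t
          unfold ws
          rw [if_neg hl2', if_neg hlP0, if_pos hlY]
        refine ⟨(WM j).be, ?_, fun i => ⟨(bb i).1.le, (bb i).2⟩, ?_, ?_, ?_⟩
        · intro i
          unfold wyV
          rw [if_neg hl2', if_neg hlP0, if_pos hlY]
          rfl
        · rw [ews]
          unfold PENK.Wts.g0
          rw [if_neg hfl]
          exact ⟨(div_le_one sp0).2 q0, le_refl _⟩
        · rw [ews]
          unfold PENK.Wts.g1
          rw [if_neg hfl]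
          exact ⟨(div_le_one sp1).2 q1, le_refl _⟩
        · intro k
          unfold PENK.Wts.gi
          rw [if_neg hfl]
    obtain ⟨b, hb1, hb01, g0, g1, gi⟩ := key
    simp only [hb1]
    unfold PENK.phi
    simp only [gi]
    have u0 : 0 ≤ b 0 ^ 2 / ws (PP X) (p.Y X) (WM j).s0 l :=
      div_nonneg (sq_nonneg _) (mc1_ws0 _ _ _ sp0 l).le
    have u1 : 0 ≤ b 1 ^ 2 / ws (PP X) (p.Y X) (WM j).s1 l :=
      div_nonneg (sq_nonneg _) (mc1_ws0 _ _ _ sp1 l).le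
    have A0 : (b 0 ^ 2 / ws (PP X) (p.Y X) (WM j).s0 l) ^ (mc1_y j s 0).factorization l ≤
        PENK.ind l (bT j s).1 ((WM j).g0 ⌊PP X⌋₊ l) := by
      apply mc1_pow_ind _ _ _ _ _ u0 g0.1 g0.2
      intro hh
      rw [← x0]
      exact mc1_fne hl (mc1_gne j h).1 (Int.natCast_dvd.1 hh)
    have A1 : (b 1 ^ 2 / ws (PP X) (p.Y X) (WM j).s1 l) ^ (mc1_y j s 1).factorization l ≤
        PENK.ind l (bT j s).2.2 ((WM j).g1 ⌊PP X⌋₊ l) := by
      apply mc1_pow_ind _ _ _ _ _ u1 g1.1 g1.2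
      intro hh
      rw [← x1]
      exact mc1_fne hl (mc1_gne j h).2 (Int.natCast_dvd.1 hh)
    have I : ∏ k ∈ PENK.ivr 11, b k ^ (mc1_y j s k).factorization l ≤
        ∏ k ∈ PENK.ivr 11, PENK.ind l (PENK.Rf (bT j s) (PENK.cv (rt j s.2) k)) (b k) :=
      Finset.prod_le_prod (fun k _ => pow_nonneg (hb01 k).1 _) fun k _ =>
        mc1_pow_ind _ _ _ _ _ (hb01 k).1 (hb01 k).2 (le_refl _)
          (mc1_inner j h hl hl2 hd k)
    have I' : ∏ k ∈ PENK.ivr 11, b k ^ (mc1_y j s' k).factorization l ≤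
        ∏ k ∈ PENK.ivr 11, PENK.ind l (PENK.Rf (bT j s) (PENK.cv (rt j s'.2) k)) (b k) :=
      Finset.prod_le_prod (fun k _ => pow_nonneg (hb01 k).1 _) fun k _ => by
        rw [← hb]
        exact mc1_pow_ind _ _ _ _ _ (hb01 k).1 (hb01 k).2 (le_refl _)
          (mc1_inner j h' hl hl2 hd' k)
    have In : ∀ t : (ℤ × ℤ × ℤ) × Vec 10,
        0 ≤ ∏ k ∈ PENK.ivr 11, b k ^ (mc1_y j t k).factorization l :=
      fun t => Finset.prod_nonneg fun k _ => pow_nonneg (hb01 k).1 _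
    have F := mul_le_mul A0 A1 (pow_nonneg u1 _) ((pow_nonneg u0 _).trans A0)
    have E := mul_le_mul I I' (In s') ((In s).trans I)
    exact mul_le_mul F E (mul_nonneg (In s) (In s'))
      ((mul_nonneg (pow_nonneg u0 _) (pow_nonneg u1 _)).trans F)

theorem mc1_W {p : Prm 10} {C1 : ℝ} {X : ℕ} (j : Fin 11)
    {s : (ℤ × ℤ × ℤ) × Vec 10} (h : TT p C1 X s) {N : ℕ}
    (hd : ∀ i, PENK.dn (mM j) (rt j s.2) i ≤ N) (hy : ∀ i, mc1_y j s i ≤ N) :
    wT p X s = ∏ l ∈ (Ioc 0 N).filter Nat.Prime,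
      ((∏ i : Fin 11, wdE 10 (p.Y X) (i + j).val l ^ (PENK.dn (mM j) (rt j s.2) i).factorization l) *
        ∏ i : Fin 11, wyV 10 (PP X) (p.Y X) (i + j).val l ^ (mc1_y j s i).factorization l) := by
  have ha : alw p X s.2 = ∏ i : Fin 11, cm (wdE 10 (p.Y X) (i + j).val) (PENK.dn (mM j) (rt j s.2) i) := by
    have h1 : ∏ i : Fin 11, cm (wdE 10 (p.Y X) (i + j).val) (PENK.dn (mM j) (rt j s.2) i) =
        ∏ m : Fin 11, cm (wdE 10 (p.Y X) m.val) (dE s.2 (m.val + 1)) := by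
      rw [← Equiv.prod_comp (Equiv.addRight j)
        (fun m : Fin 11 => cm (wdE 10 (p.Y X) m.val) (dE s.2 (m.val + 1)))]
      refine Finset.prod_congr rfl fun i _ => ?_
      rw [mc1_dn h.gp j i]
      rfl
    rw [h1, Fin.prod_univ_castSucc]
    have h2 : cm (wdE 10 (p.Y X) (Fin.last 10).val) (dE s.2 ((Fin.last 10).val + 1)) = 1 := by
      have h3 : (Fin.last 10).val + 1 = 11 := rfl
      rw [h3, mc1_dE_last]
      exact mc1_cm_one _
    rw [h2, mul_one]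
    rfl
  have hb : yw p X s.1 s.2 = ∏ i : Fin 11, cm (wyV 10 (PP X) (p.Y X) (i + j).val) (mc1_y j s i) := by
    unfold yw
    rw [← Equiv.prod_comp (Equiv.addRight j)
      (fun m : Fin 11 => cm (wyV 10 (PP X) (p.Y X) m.val) (yv s.1 s.2 m))]
    rfl
  unfold wT W
  rw [if_pos h.gd, ha, hb, Finset.prod_mul_distrib, Finset.prod_comm,
    Finset.prod_comm (s := (Ioc 0 N).filter Nat.Prime)]
  congr 1
  · refine Finset.prod_congr rfl fun i _ => ?_
    exact mc1_cm _ (mc1_dne h.gp j i) (hd i)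
  · refine Finset.prod_congr rfl fun i _ => ?_
    exact mc1_cm _ (mc1_yne j h i) (hy i)

theorem wt_le_pr {p : Prm 10} {τ C1 : ℝ} (hp : p.Ok τ) (hτ : τ ≤ 1 / 1000) (hC1 : 1 ≤ C1)
    {X : ℕ} (hX : 2 ≤ X) (hN : (NZ : ℝ) ≤ PP X) (j : Fin 11) {s s' : (ℤ × ℤ × ℤ) × Vec 10}
    (h : TT p C1 X s) (h' : TT p C1 X s') (hb : bT j s' = bT j s) :
    wT p X s * wT p X s' / nuM p X j (bT j s) ≤
      WtJ j (WM j) ⌊PP X⌋₊ ⌊p.Y X⌋₊ (rt j s.2) (rt j s'.2) (bT j s) := by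
  classical
  have hX1 : 1 ≤ X := by omega
  obtain ⟨-, sp0, sp1⟩ := mc1_s j
  set N : ℕ := (∑ i, PENK.dn (mM j) (rt j s.2) i + ∑ i, mc1_y j s i) +
    (∑ i, PENK.dn (mM j) (rt j s'.2) i + ∑ i, mc1_y j s' i) +
    (((bT j s).1.natAbs + (bT j s).2.2.natAbs) + ⌊p.Y X⌋₊) with hNd
  have hle : ∀ (f : Fin 11 → ℕ) (i : Fin 11), f i ≤ ∑ i, f i := fun f i =>
    Finset.single_le_sum (fun _ _ => Nat.zero_le _) (Finset.mem_univ i)
  have n1 : ∀ i, PENK.dn (mM j) (rt j s.2) i ≤ N := fun i => by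
    have := hle (fun i => PENK.dn (mM j) (rt j s.2) i) i
    omega
  have n2 : ∀ i, mc1_y j s i ≤ N := fun i => by
    have := hle (fun i => mc1_y j s i) i
    omega
  have n3 : ∀ i, PENK.dn (mM j) (rt j s'.2) i ≤ N := fun i => by
    have := hle (fun i => PENK.dn (mM j) (rt j s'.2) i) i
    omega
  have n4 : ∀ i, mc1_y j s' i ≤ N := fun i => by
    have := hle (fun i => mc1_y j s' i) i
    omega
  have n5 : (bT j s).1.natAbs ≤ N := by omega
  have n5' : (bT j s).2.2.natAbs ≤ N := by omega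
  have n6 : ⌊p.Y X⌋₊ ≤ N := by omega
  have gne := mc1_gne j h
  have hnu : nuM p X j (bT j s) = ∏ l ∈ (Ioc 0 N).filter Nat.Prime,
      (ws (PP X) (p.Y X) (WM j).s0 l ^ ((bT j s).1.natAbs).factorization l *
        ws (PP X) (p.Y X) (WM j).s1 l ^ ((bT j s).2.2.natAbs).factorization l) := by
    unfold nuM
    rw [mc1_cm _ gne.1 n5, mc1_cm _ gne.2 n5', ← Finset.prod_mul_distrib]
  rw [mc1_W j h n1 n2, mc1_W j h' n3 n4, hnu, ← Finset.prod_mul_distrib,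
    ← Finset.prod_div_distrib]
  have hsub : PENK.prs NZ ⌊p.Y X⌋₊ ⊆ (Ioc 0 N).filter Nat.Prime := by
    intro l hl
    unfold PENK.prs at hl
    rw [Finset.mem_filter, Finset.mem_Ioc] at hl ⊢
    exact ⟨⟨by omega, by omega⟩, hl.2⟩
  have hW : ∀ (t : (ℤ × ℤ × ℤ) × Vec 10) (l : ℕ),
      0 ≤ ((∏ i : Fin 11, wdE 10 (p.Y X) (i + j).val l ^ (PENK.dn (mM j) (rt j t.2) i).factorization l) *
        ∏ i : Fin 11, wyV 10 (PP X) (p.Y X) (i + j).val l ^ (mc1_y j t i).factorization l) ∧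
      ((∏ i : Fin 11, wdE 10 (p.Y X) (i + j).val l ^ (PENK.dn (mM j) (rt j t.2) i).factorization l) *
        ∏ i : Fin 11, wyV 10 (PP X) (p.Y X) (i + j).val l ^ (mc1_y j t i).factorization l) ≤ 1 := by
    intro t l
    have h1 := mc1_prod01 (fun i => wdE 10 (p.Y X) (i + j).val l ^
      (PENK.dn (mM j) (rt j t.2) i).factorization l) univ (fun i =>
        ⟨pow_nonneg (mc1_wdE _ _ _).1 _, pow_le_one₀ (mc1_wdE _ _ _).1 (mc1_wdE _ _ _).2⟩)
    have h2 := mc1_prod01 (fun i => wyV 10 (PP X) (p.Y X) (i + j).val l ^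
      (mc1_y j t i).factorization l) univ (fun i =>
        ⟨pow_nonneg (mc1_wyV _ _ _ _).1 _, pow_le_one₀ (mc1_wyV _ _ _ _).1 (mc1_wyV _ _ _ _).2⟩)
    exact ⟨mul_nonneg h1.1 h2.1, mul_le_one₀ h1.2 h2.1 h2.2⟩
  have hws : ∀ l, 0 < ws (PP X) (p.Y X) (WM j).s0 l ^ ((bT j s).1.natAbs).factorization l *
        ws (PP X) (p.Y X) (WM j).s1 l ^ ((bT j s).2.2.natAbs).factorization l := fun l =>
    mul_pos (pow_pos (mc1_ws0 _ _ _ sp0 l) _) (pow_pos (mc1_ws0 _ _ _ sp1 l) _)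
  rw [← Finset.prod_sdiff hsub]
  show _ ≤ ∏ l ∈ PENK.prs NZ ⌊p.Y X⌋₊, if l ∣ PENK.DD (mM j) (rt j s.2) * PENK.DD (mM j) (rt j s'.2)
    then PENK.th (mM j) (WM j) ⌊p.Y X⌋₊ (rt j s.2) (rt j s'.2) l
    else PENK.phi (WM j) ⌊PP X⌋₊ (rt j s.2) (rt j s'.2) l (bT j s)
  refine le_trans (mul_le_of_le_one_left (Finset.prod_nonneg fun l _ =>
      div_nonneg (mul_nonneg (hW s l).1 (hW s' l).1) (hws l).le)
    (Finset.prod_le_one (fun l _ => div_nonneg (mul_nonneg (hW s l).1 (hW s' l).1) (hws l).le) ?_))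
    (Finset.prod_le_prod (fun l _ => div_nonneg (mul_nonneg (hW s l).1 (hW s' l).1) (hws l).le) ?_)
  · -- the primes outside
    intro l hl
    rw [Finset.mem_sdiff, Finset.mem_filter] at hl
    have hY0 : 0 ≤ p.Y X := by unfold Prm.Y; positivity
    have hwn : ∀ t : ℝ, ws (PP X) (p.Y X) t l = 1 := by
      intro t
      unfold ws
      split_ifs with h2 h3 h4
      · rfl
      · rfl
      · exfalso
        apply hl.2
        unfold PENK.prs
        rw [Finset.mem_filter, Finset.mem_Ioc]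
        have h5 : (NZ : ℝ) < (l : ℝ) := lt_of_le_of_lt hN (not_le.1 h3)
        exact ⟨⟨by exact_mod_cast h5, (Nat.le_floor_iff hY0).2 h4⟩, hl.1.2⟩
      · rfl
    rw [hwn, hwn, one_pow, one_pow, one_mul, div_one]
    exact mul_le_one₀ (hW s l).2 (hW s' l).1 (hW s' l).2
  · intro l hl
    unfold PENK.prs at hl
    rw [Finset.mem_filter, Finset.mem_Ioc] at hl
    have := mc1_loc j h h' hb hl.2 hl.1.1 hl.1.2
    convert this using 2

end Pool.Agent.AQ.PENM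

namespace Pool.Agent.AQ.PENM

open Finset Pool.Agent.PENT Pool.Agent.AQ.NC

variable [Cst]

theorem wt_le : type_of% @wt_le_pr := @wt_le_pr

end Pool.Agent.AQ.PENM
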