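import Pool.Agent.Lib_helper18.AQ.M.Defs
import Pool.Agent.Lib_helper18.AQ.MF.MA1
import Pool.Agent.Lib_helper18.AQ.MF.MA4
import Pool.Agent.Lib_helper18.AQ.MF.MB1
import Pool.Agent.Lib_helper18.AQ.MF.MB2
import Pool.Agent.Lib_helper18.AQ.MF.MB4
import Pool.Agent.Lib_helper18.AQ.MF.MB5
import Pool.Agent.Lib_helper18.AQ.MF.MC1

set_option autoImplicit false

namespace Pool.Agent.AQ.PENM

open Finset Pool.Agent.PENT Pool.Agent.AQ.NC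

variable [Cst]

/-- the sum over the pairs as one sum -/
theorem mc3_sum {Tau B : Type} [DecidableEq B] (s : Finset Tau) (w : Tau → ℝ) (b : Tau → B)
    (ν : B → ℝ) (r : Tau → Tau → Prop) (Q : Finset (Tau × Tau))
    (hQ : ∀ z : Tau × Tau, z ∈ Q ↔ z.1 ∈ s ∧ z.2 ∈ s ∧ b z.2 = b z.1 ∧ r z.1 z.2) :
    ∑ τ ∈ s, w τ * cls s w b ν r τ = ∑ z ∈ Q, w z.1 * w z.2 / ν (b z.1) := by
  classical
  have hQ' : Q = (s ×ˢ s).filter (fun z => b z.2 = b z.1 ∧ r z.1 z.2) := by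
    ext z
    rw [hQ, Finset.mem_filter, Finset.mem_product]
    tauto
  rw [hQ', Finset.sum_filter, Finset.sum_product]
  refine Finset.sum_congr rfl fun τ _ => ?_
  unfold cls
  rw [Finset.sum_filter, Finset.sum_div, Finset.mul_sum]
  refine Finset.sum_congr rfl fun τ' _ => ?_
  by_cases h : b τ' = b τ ∧ r τ τ'
  · rw [if_pos h, if_pos h]
    ring
  · rw [if_neg h, if_neg h]
    simp

/-- `PP X` tends to infinity -/
theorem mc3_PP (a : ℝ) : ∃ X₀ : ℕ, ∀ X ≥ X₀, a ≤ PP X := by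
  have h : Filter.Tendsto PP Filter.atTop Filter.atTop := by
    unfold PP
    exact Real.tendsto_exp_atTop.comp ((tendsto_rpow_atTop (by norm_num)).comp
      (Real.tendsto_log_atTop.comp tendsto_natCast_atTop_atTop))
  exact Filter.eventually_atTop.1 (h.eventually_ge_atTop a)

/-- BLOCK MC3 (uses MB1, MB2, MB4, MB5, MC1): the sum over the pairs. -/
theorem pairs_le_pr {p : Prm 10} {τ δ C1 : ℝ} (hp : p.Ok τ) (hτ : τ ≤ 1 / 1000) (hC1 : 1 ≤ C1) :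
    ∃ X₀ : ℕ, ∀ X ≥ X₀, ∀ (j : Fin 11) (s : Finset ((ℤ × ℤ × ℤ) × Vec 10)), s ⊆ FT p C1 X →
    ∀ r : (ℤ × ℤ × ℤ) × Vec 10 → (ℤ × ℤ × ℤ) × Vec 10 → Prop,
    ∃ S : Finset (PENK.Bas × PENK.PolyK 11 × PENK.PolyK 11),
      (∀ t ∈ S, TripJ j (qM p δ C1 j) (50 * p.ew) X ⌊PP X⌋₊ t ∧
        ∃ σ ∈ s, ∃ σ' ∈ s, r σ σ' ∧ bT j σ' = bT j σ ∧ bT j σ = t.1 ∧ rt j σ.2 = t.2.1 ∧
          rt j σ'.2 = t.2.2) ∧
      prs2 p X j s r ≤
        ∑ t ∈ S, WtJ j (WM j) ⌊PP X⌋₊ ⌊p.Y X⌋₊ t.2.1 t.2.2 t.1 := by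
  classical
  have hc : 0 < p.c1 := hp.c10
  obtain ⟨X₁, hX₁, hpath⟩ := isPath_of (δ := δ) (C1 := C1) hp hτ
  obtain ⟨X₂, -, hover⟩ := over_of (δ := δ) hp hτ hC1
  obtain ⟨X₃, hPP⟩ := mc3_PP (NZ : ℝ)
  refine ⟨max X₁ (max X₂ X₃), fun X hX' j s hs r => ?_⟩
  have hX₀ : 2 ≤ X₁ := hX₁
  have hX : X ≥ X₁ := le_trans (le_max_left _ _) hX'
  have hXo : X ≥ X₂ := le_trans (le_trans (le_max_left _ _) (le_max_right _ _)) hX'
  have hXp : X ≥ X₃ := le_trans (le_trans (le_max_right _ _) (le_max_right _ _)) hX'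
  have hX2 : 2 ≤ X := le_trans hX₀ hX
  obtain ⟨Q, hQ⟩ : ∃ Q : Finset (((ℤ × ℤ × ℤ) × Vec 10) × ((ℤ × ℤ × ℤ) × Vec 10)),
      ∀ z : ((ℤ × ℤ × ℤ) × Vec 10) × ((ℤ × ℤ × ℤ) × Vec 10), z ∈ Q ↔
      z.1 ∈ s ∧ z.2 ∈ s ∧ bT j z.2 = bT j z.1 ∧ r z.1 z.2 := by
    refine ⟨(s ×ˢ s).filter (fun z => bT j z.2 = bT j z.1 ∧ r z.1 z.2), fun z => ?_⟩
    rw [Finset.mem_filter, Finset.mem_product]
    tauto
  have hTT : ∀ σ ∈ s, TT p C1 X σ := fun σ hσ => (mem_FT hc).1 (hs hσ)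
  have hinj : Set.InjOn (fun z : ((ℤ × ℤ × ℤ) × Vec 10) × ((ℤ × ℤ × ℤ) × Vec 10) =>
      ((bT j z.1, rt j z.1.2, rt j z.2.2) :
      PENK.Bas × PENK.PolyK 11 × PENK.PolyK 11)) (Q : Set _) := by
    intro z hz z' hz' he
    obtain ⟨h1, h2, h3, _⟩ := (hQ z).1 (Finset.mem_coe.1 hz)
    obtain ⟨k1, k2, k3, _⟩ := (hQ z').1 (Finset.mem_coe.1 hz')
    simp only [Prod.mk.injEq] at he
    obtain ⟨e1, e2, e3⟩ := he
    refine Prod.ext ?_ ?_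
    · exact RB_inj j (hTT _ k1) (hTT _ h1) e1 e2
    · exact RB_inj j (hTT _ k2) (hTT _ h2) (by rw [h3, k3, e1]) e3
  refine ⟨Q.image (fun z => (bT j z.1, rt j z.1.2, rt j z.2.2)), ?_, ?_⟩
  · intro t ht
    obtain ⟨z, hz, rfl⟩ := Finset.mem_image.1 ht
    obtain ⟨h1, h2, h3, h4⟩ := (hQ z).1 hz
    have t1 := hTT _ h1
    have t2 := hTT _ h2
    have a1 := (hpath X hX j z.1.2 t1.gp).1
    have b1 := (hpath X hX j z.2.2 t2.gp).1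
    have o1 := (hover X hXo j z.1 t1).1
    have o2 := (hover X hXo j z.2 t2).1
    rw [h3] at o2
    refine ⟨?_, z.1, h1, z.2, h2, h4, h3, rfl, rfl, rfl⟩
    letI := fd j
    exact ⟨a1, b1, o1, o2⟩
  · rw [Finset.sum_image hinj]
    unfold prs2
    rw [mc3_sum s (wT p X) (bT j) (nuM p X j) r Q hQ]
    refine Finset.sum_le_sum fun z hz => ?_
    obtain ⟨h1, h2, h3, _⟩ := (hQ z).1 hz
    exact wt_le hp hτ hC1 hX2 (hPP X hXp) j (hTT _ h1) (hTT _ h2) h3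

end Pool.Agent.AQ.PENM

namespace Pool.Agent.AQ.PENM

open Finset Pool.Agent.PENT Pool.Agent.AQ.NC

variable [Cst]

theorem pairs_le : type_of% @pairs_le_pr := @pairs_le_pr

end Pool.Agent.AQ.PENM
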