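import Pool.Agent.Lib_helper18.AQ.MF.Large

/-!
# PENM: the marginal of one edge, narrow windows (helper18)
-/

set_option autoImplicit false

namespace Pool.Agent.AQ.PENM

open Finset Pool.Agent.PENT Pool.Agent.AQ.NC

variable [Cst]

/-- as helper97's `fin_cls_mono` -/
theorem cls_mono3 {Tau B : Type} [DecidableEq B] (s : Finset Tau) {w : Tau → ℝ}
    (hw : ∀ τ, 0 ≤ w τ) (b : Tau → B) {ν : B → ℝ} (hν : ∀ y, 0 < ν y)
    (r r1 r2 r3 : Tau → Tau → Prop) (τ : Tau)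
    (h : ∀ τ', r τ τ' → r1 τ τ' ∨ r2 τ τ' ∨ r3 τ τ') :
    cls s w b ν r τ ≤ cls s w b ν r1 τ + cls s w b ν r2 τ + cls s w b ν r3 τ := by
  classical
  unfold cls
  rw [← add_div, ← add_div]
  apply div_le_div_of_nonneg_right _ (hν _).le
  have e : ∀ q : Tau → Tau → Prop, ∀ (d : DecidablePred fun τ' => b τ' = b τ ∧ q τ τ'),
      ∑ τ' ∈ @Finset.filter _ (fun τ' => b τ' = b τ ∧ q τ τ') d s, w τ' =
      ∑ τ' ∈ s, if b τ' = b τ ∧ q τ τ' then w τ' else 0 := by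
    intro q d
    rw [Finset.sum_filter]
  rw [e r, e r1, e r2, e r3, ← Finset.sum_add_distrib, ← Finset.sum_add_distrib]
  apply Finset.sum_le_sum
  intro τ' _
  have w0 := hw τ'
  by_cases hb : b τ' = b τ
  · by_cases hr : r τ τ'
    · rcases h τ' hr with h' | h' | h' <;>
      · rw [if_pos ⟨hb, hr⟩]
        by_cases g1 : r1 τ τ' <;> by_cases g2 : r2 τ τ' <;> by_cases g3 : r3 τ τ' <;>
          simp_all
    · rw [if_neg (fun h => hr h.2)]
      have : ∀ c : Prop, ∀ _ : Decidable c, 0 ≤ if c then w τ' else 0 := by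
        intro c _; split_ifs <;> simp [w0]
      exact add_nonneg (add_nonneg (this _ _) (this _ _)) (this _ _)
  · simp [hb]

theorem cm_nonneg {g : ℕ → ℝ} (hg : ∀ l, 0 ≤ g l) (m : ℕ) : 0 ≤ cm g m := by
  unfold cm
  exact Finset.prod_nonneg fun l _ => pow_nonneg (hg l) _

theorem W_nonneg (p : Prm 10) (X : ℕ) (q : ℤ × ℤ × ℤ) (u : Vec 10) : 0 ≤ W p X q u := by
  unfold W
  split_ifs
  · apply mul_nonneg
    · unfold alw
      apply Finset.prod_nonneg
      intro j _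
      apply cm_nonneg
      intro l
      unfold wdE alE
      split_ifs <;> norm_num
    · unfold yw
      apply Finset.prod_nonneg
      intro j _
      apply cm_nonneg
      intro l
      unfold wyV boV beV
      split_ifs <;> norm_num
  · exact le_rfl

theorem wT_nonneg (p : Prm 10) (X : ℕ) (σ : (ℤ × ℤ × ℤ) × Vec 10) : 0 ≤ wT p X σ :=
  W_nonneg p X σ.1 σ.2

/-- the total weight and the diagonal of a subfamily -/
theorem sum_sub {p : Prm 10} {C1 : ℝ} {X : ℕ} {s : Finset ((ℤ × ℤ × ℤ) × Vec 10)}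
    (hs : s ⊆ FT p C1 X) {f : (ℤ × ℤ × ℤ) → Vec 10 → ℝ} (hf : ∀ q u, 0 ≤ f q u) :
    ∑ σ ∈ s, f σ.1 σ.2 ≤ ∑ q ∈ AW C1 X, ∑ u ∈ GS p X, f q u := by
  classical
  rw [← Finset.sum_product']
  apply Finset.sum_le_sum_of_subset_of_nonneg
  · intro σ hσ
    have := hs hσ
    unfold FT at this
    exact (Finset.mem_filter.1 this).1
  · intro σ _ _
    exact hf _ _

theorem GM2_pos (j : Fin 11) (σ σ' : (ℤ × ℤ × ℤ) × Vec 10) : 0 < GM2 j σ σ' := by
  classical
  unfold GM2 PENK.Gc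
  apply Finset.prod_pos
  intro l hl
  exact (Nat.prime_of_mem_primeFactors (Finset.mem_filter.1 hl).1).pos

/-- the pairs with different members over one base -/
theorem off_W {p : Prm 10} {δ τ C1 : ℝ} (h : PO p δ τ) (hC1 : 1 ≤ C1) (j : Fin 11) {a b : ℝ}
    (ha : p.em - p.ew ≤ a) (ha' : a ≤ p.ep + p.ew) (hb : p.em - p.ew ≤ b) (hb' : b ≤ p.ep + p.ew) :
    ∃ C : ℝ, 0 ≤ C ∧ ∃ X₀ : ℕ, ∀ X ≥ X₀,
      prs2 p X j (FW p C1 X a b) (fun σ σ' => ¬ σ' = σ) ≤ C * X * Real.log X ^ (-12 : ℝ) := by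
  obtain ⟨C, hC, X₁, H1⟩ := gen_M h hC1 j
  obtain ⟨X₂, H2⟩ := small_M h hC1 j
  obtain ⟨X₃, H3⟩ := large_W' h hC1 j ha ha' hb hb'
  obtain ⟨X₄, hX₄, H4⟩ := lev h
  refine ⟨C + 2, by linarith, max (max X₁ X₂) (max X₃ X₄), fun X hX => ?_⟩
  have y1 : X₁ ≤ X := ((le_max_left _ _).trans (le_max_left _ _)).trans hX
  have y2 : X₂ ≤ X := ((le_max_right _ _).trans (le_max_left _ _)).trans hX
  have y3 : X₃ ≤ X := ((le_max_left _ _).trans (le_max_right _ _)).trans hX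
  have y4 : X₄ ≤ X := ((le_max_right _ _).trans (le_max_right _ _)).trans hX
  have hL := (H4 X y4).1
  have hsub : FW p C1 X a b ⊆ FT p C1 X := Finset.filter_subset _ _
  have b1 := H1 X y1 _ hsub
  have b2 := H2 X y2 _ hsub
  have b3 := H3 X y3
  have hX0 : (0 : ℝ) ≤ X := Nat.cast_nonneg _
  have hpow : Real.log X ^ (-110 : ℝ) ≤ Real.log X ^ (-12 : ℝ) :=
    Real.rpow_le_rpow_of_exponent_le hL (by norm_num)
  have hsum : prs2 p X j (FW p C1 X a b) (fun σ σ' => ¬ σ' = σ) ≤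
      prs2 p X j (FW p C1 X a b) (fun σ σ' => GM2 j σ σ' = 1) +
      prs2 p X j (FW p C1 X a b)
        (fun σ σ' => 1 < GM2 j σ σ' ∧ (GM2 j σ σ' : ℝ) ≤ (X : ℝ) ^ (50 * p.ew / 8)) +
      prs2 p X j (FW p C1 X a b)
        (fun σ σ' => (X : ℝ) ^ (50 * p.ew / 8) < (GM2 j σ σ' : ℝ) ∧ σ' ≠ σ) := by
    unfold prs2
    rw [← Finset.sum_add_distrib, ← Finset.sum_add_distrib]
    apply Finset.sum_le_sum
    intro σ _
    rw [← mul_add, ← mul_add]
    apply mul_le_mul_of_nonneg_left _ (wT_nonneg p X σ)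
    apply cls_mono3 _ (wT_nonneg p X) _ (nuM_pos p X j)
    intro σ' hne
    have g0 := GM2_pos j σ σ'
    by_cases g1 : GM2 j σ σ' = 1
    · exact Or.inl g1
    · by_cases g2 : (GM2 j σ σ' : ℝ) ≤ (X : ℝ) ^ (50 * p.ew / 8)
      · exact Or.inr (Or.inl ⟨by omega, g2⟩)
      · exact Or.inr (Or.inr ⟨not_le.1 g2, hne⟩)
  have c1 : X * Real.log X ^ (-110 : ℝ) ≤ X * Real.log X ^ (-12 : ℝ) :=
    mul_le_mul_of_nonneg_left hpow hX0
  calc _ ≤ _ := hsum
    _ ≤ C * X * Real.log X ^ (-12 : ℝ) + X * Real.log X ^ (-12 : ℝ) +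
        X * Real.log X ^ (-12 : ℝ) := by linarith
    _ = (C + 2) * X * Real.log X ^ (-12 : ℝ) := by ring

/-- THE MARGINAL of one edge, windows -/
theorem edge_W {p : Prm 10} {δ τ C1 : ℝ} (h : PO p δ τ) (hC1 : 1 ≤ C1) {CD η : ℝ} (hη : 0 < η)
    (hη1 : η ≤ 1) {XD : ℕ}
    (hD : ∀ X ≥ XD, ∀ j : Fin 10,
      ∑ q ∈ AW C1 X, ∑ u ∈ GS p X, W p X q u * (W p X q u / nuN p X q u j) ^ η ≤
        CD * X * Real.log X ^ (-mE 10 * (1 + η)))
    {CM : ℝ} {XM : ℕ}
    (hM : ∀ X ≥ XM, ∑ q ∈ AW C1 X, ∑ u ∈ GS p X, W p X q u ≤ CM * X * Real.log X ^ (-mE 10))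
    (j : Fin 10) {a b : ℝ}
    (ha : p.em - p.ew ≤ a) (ha' : a ≤ p.ep + p.ew) (hb : p.em - p.ew ≤ b) (hb' : b ≤ p.ep + p.ew) :
    ∃ C : ℝ, 0 ≤ C ∧ ∃ X₀ : ℕ, ∀ X ≥ X₀, ∀ E : Finset ℕ,
      ∑ n ∈ E, mar (FW p C1 X a b) (wT p X) (fun σ => (bT j.castSucc σ).2.1.natAbs) n ^ (1 + η) ≤
        C * X * Real.log X ^ (-mE 10 * (1 + η)) := by
  classical
  have hj : j.castSucc ≠ (10 : Fin 11) := by
    intro he
    have := congrArg Fin.val he
    have h2 := j.isLt
    simp at this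
    omega
  obtain ⟨CO, hCO, X₁, H1⟩ := off_W h hC1 j.castSucc ha ha' hb hb'
  obtain ⟨CN, X₂, H2⟩ := nu_sum h.ok h.small hC1
  obtain ⟨X₄, hX₄, H4⟩ := lev h
  have hm : mE 10 = 6 := by unfold mE; norm_num
  rw [hm]
  refine ⟨|CN| ^ η * (|CD| + |CM| ^ (1 - η) * CO ^ η), by positivity,
    max (max X₁ X₂) (max X₄ (max XD XM)), fun X hX E => ?_⟩
  have y1 : X₁ ≤ X := ((le_max_left _ _).trans (le_max_left _ _)).trans hX
  have y2 : X₂ ≤ X := ((le_max_right _ _).trans (le_max_left _ _)).trans hX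
  have y4 : X₄ ≤ X := ((le_max_left _ _).trans (le_max_right _ _)).trans hX
  have y5 : XD ≤ X := (((le_max_left _ _).trans (le_max_right _ _)).trans
    (le_max_right _ _)).trans hX
  have y6 : XM ≤ X := (((le_max_right _ _).trans (le_max_right _ _)).trans
    (le_max_right _ _)).trans hX
  have hL := (H4 X y4).1
  have hL0 : 0 < Real.log X := by linarith
  have hX3 : 3 ≤ X := hX₄.trans y4
  have hX0 : (0 : ℝ) < X := by
    have : (3 : ℝ) ≤ X := by exact_mod_cast hX3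
    linarith
  set s := FW p C1 X a b with hs
  have hsub : s ⊆ FT p C1 X := Finset.filter_subset _ _
  have hw := wT_nonneg p X
  have hν := nuM_pos p X j.castSucc
  -- Jensen
  have j1 := jensen_base s (wT p X) hw (bT j.castSucc) (fun y => y.2.1.natAbs)
    (nuM p X j.castSucc) hν (C := |CN|) hη (fun n => by
      refine le_trans ?_ ((H2 X y2 j.castSucc hj n).trans (le_abs_self _))
      apply Finset.sum_le_sum_of_subset_of_nonneg
      · intro y hy
        rw [Finset.mem_filter] at hy ⊢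
        exact ⟨Finset.image_subset_image hsub hy.1, hy.2⟩
      · intro y _ _
        exact (hν y).le) E
  refine j1.trans ?_
  have j2 := class_split s (wT p X) hw (bT j.castSucc) (nuM p X j.castSucc) hν
    (fun σ σ' => σ' = σ) hη hη1
  have j3 := class_diag s (wT p X) hw (bT j.castSucc) (nuM p X j.castSucc) hν
    (fun σ σ' => σ' = σ) (η := η) (m := 1) (L := 1) hη zero_le_one zero_le_one (fun σ _ =>
      ⟨{σ}, by simp, fun σ' _ _ he => ⟨by simp [he], by rw [he, one_mul]⟩⟩)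
  rw [one_mul, Real.one_rpow, one_mul] at j3
  have j4 := class_holder s (wT p X) hw (bT j.castSucc) (nuM p X j.castSucc) hν
    (fun σ σ' => ¬ σ' = σ) hη hη1
  -- the diagonal
  have d1 : ∑ σ ∈ s, wT p X σ * (wT p X σ / nuM p X j.castSucc (bT j.castSucc σ)) ^ η ≤
      |CD| * (X * Real.log X ^ (-6 * (1 + η))) := by
    have e1 : ∑ σ ∈ s, wT p X σ * (wT p X σ / nuM p X j.castSucc (bT j.castSucc σ)) ^ η =
        ∑ σ ∈ s, W p X σ.1 σ.2 * (W p X σ.1 σ.2 / nuN p X σ.1 σ.2 j) ^ η := by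
      apply Finset.sum_congr rfl
      intro σ hσ
      have g := (mem_FT h.ok.c10).1 (hsub hσ)
      have e2 := nuM_eq (p := p) (X := X) g.gd j
      unfold wT bT
      rw [e2]
    rw [e1]
    have e3 := sum_sub (f := fun q u => W p X q u * (W p X q u / nuN p X q u j) ^ η) hsub
      (fun q u => mul_nonneg (W_nonneg p X q u) (Real.rpow_nonneg (div_nonneg (W_nonneg p X q u)
        (by
          unfold nuN
          have hp : ∀ (P Y s : ℝ), 0 ≤ s → ∀ l, 0 ≤ ws P Y s l := by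
            intro P Y s hs l
            unfold ws
            split_ifs <;> linarith
          have h0 : 0 ≤ wS0 j.val := by
            unfold wS0 beV alE
            split_ifs <;> norm_num
          have h1 : 0 ≤ wS1 j.val := by
            unfold wS1 beV alE
            split_ifs <;> norm_num
          exact mul_nonneg (cm_nonneg (hp _ _ _ h0) _) (cm_nonneg (hp _ _ _ h1) _))) _))
    have hD1 := hD X y5 j
    rw [hm] at hD1
    refine e3.trans (hD1.trans ?_)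
    rw [mul_assoc CD]
    exact mul_le_mul_of_nonneg_right (le_abs_self CD)
      (mul_nonneg hX0.le (Real.rpow_nonneg hL0.le _))
  -- the mass
  have d2 : ∑ σ ∈ s, wT p X σ ≤ |CM| * (X * Real.log X ^ (-6 : ℝ)) := by
    have hM1 := hM X y6
    rw [hm] at hM1
    refine (sum_sub (f := fun q u => W p X q u) hsub (fun q u => W_nonneg p X q u)).trans
      (hM1.trans ?_)
    rw [mul_assoc CM]
    exact mul_le_mul_of_nonneg_right (le_abs_self CM)
      (mul_nonneg hX0.le (Real.rpow_nonneg hL0.le _))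
  have d3 := H1 X y1
  unfold prs2 at d3
  have d4 : (∑ σ ∈ s, wT p X σ) ^ (1 - η) *
      (∑ σ ∈ s, wT p X σ * cls s (wT p X) (bT j.castSucc) (nuM p X j.castSucc)
        (fun σ σ' => ¬ σ' = σ) σ) ^ η ≤
      |CM| ^ (1 - η) * CO ^ η * (X * Real.log X ^ (-6 * (1 + η))) := by
    have a1 : (∑ σ ∈ s, wT p X σ) ^ (1 - η) ≤ (|CM| * (X * Real.log X ^ (-6 : ℝ))) ^ (1 - η) :=
      Real.rpow_le_rpow (Finset.sum_nonneg fun σ _ => hw σ) d2 (by linarith)
    have hT0 : 0 ≤ ∑ σ ∈ s, wT p X σ * cls s (wT p X) (bT j.castSucc) (nuM p X j.castSucc)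
        (fun σ σ' => ¬ σ' = σ) σ := by
      apply Finset.sum_nonneg
      intro σ _
      exact mul_nonneg (hw σ) (cls_nonneg s hw (bT j.castSucc) hν _ σ)
    have a2 : (∑ σ ∈ s, wT p X σ * cls s (wT p X) (bT j.castSucc) (nuM p X j.castSucc)
        (fun σ σ' => ¬ σ' = σ) σ) ^ η ≤ (CO * X * Real.log X ^ (-12 : ℝ)) ^ η :=
      Real.rpow_le_rpow hT0 d3 hη.le
    have hl6 : 0 < Real.log X ^ (-6 : ℝ) := Real.rpow_pos_of_pos hL0 _
    have hl12 : 0 < Real.log X ^ (-12 : ℝ) := Real.rpow_pos_of_pos hL0 _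
    refine (mul_le_mul a1 a2 (Real.rpow_nonneg hT0 _) (by positivity)).trans (le_of_eq ?_)
    rw [mul_assoc CO, Real.mul_rpow (abs_nonneg _) (by positivity),
      Real.mul_rpow hX0.le hl6.le, Real.mul_rpow hCO (by positivity),
      Real.mul_rpow hX0.le hl12.le, ← Real.rpow_mul hL0.le, ← Real.rpow_mul hL0.le]
    have b1 : (X : ℝ) ^ (1 - η) * (X : ℝ) ^ η = X := by
      rw [← Real.rpow_add hX0]
      simp
    have b2 : Real.log X ^ (-6 * (1 - η)) * Real.log X ^ (-12 * η) =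
        Real.log X ^ (-6 * (1 + η)) := by
      rw [← Real.rpow_add hL0]
      congr 1
      ring
    calc |CM| ^ (1 - η) * ((X : ℝ) ^ (1 - η) * Real.log X ^ (-6 * (1 - η))) *
          (CO ^ η * ((X : ℝ) ^ η * Real.log X ^ (-12 * η)))
        = |CM| ^ (1 - η) * CO ^ η * (((X : ℝ) ^ (1 - η) * (X : ℝ) ^ η) *
          (Real.log X ^ (-6 * (1 - η)) * Real.log X ^ (-12 * η))) := by ring
      _ = _ := by rw [b1, b2]
  have j5 : ∑ σ ∈ s, wT p X σ * (wb s (wT p X) (bT j.castSucc) (bT j.castSucc σ) /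
      nuM p X j.castSucc (bT j.castSucc σ)) ^ η ≤
      (|CD| + |CM| ^ (1 - η) * CO ^ η) * (X * Real.log X ^ (-6 * (1 + η))) := by
    have k1 := j2.trans (add_le_add (j3.trans d1) (j4.trans d4))
    refine k1.trans (le_of_eq (by ring))
  calc |CN| ^ η * ∑ σ ∈ s, wT p X σ * (wb s (wT p X) (bT j.castSucc) (bT j.castSucc σ) /
      nuM p X j.castSucc (bT j.castSucc σ)) ^ η
      ≤ |CN| ^ η * ((|CD| + |CM| ^ (1 - η) * CO ^ η) * (X * Real.log X ^ (-6 * (1 + η)))) :=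
        mul_le_mul_of_nonneg_left j5 (by positivity)
    _ = _ := by ring

end Pool.Agent.AQ.PENM
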